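import Pool.Agent.Helper62.UD.Disks

/-!
Barycentric coordinates with respect to three points of the plane, and how sign patterns of
affine functionals control them (helper file for MP_c7897a_lc).
-/

namespace UDisk

/-- Twice the signed area of the triangle `e 0, e 1, e 2`. -/
noncomputable def area (e : Fin 3 → E2) : ℝ :=
  (e 1 0 - e 0 0) * (e 2 1 - e 0 1) - (e 1 1 - e 0 1) * (e 2 0 - e 0 0)

/-- The barycentric coordinates of `w` with respect to `e`. -/
noncomputable def bar (e : Fin 3 → E2) (w : E2) (i : Fin 3) : ℝ :=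
  area (Function.update e i w) / area e

/-- An affine functional with coefficients `c`. -/
noncomputable def aff (c : Fin 3 → ℝ) (x : E2) : ℝ := c 0 * x 0 + c 1 * x 1 + c 2

/-- Logarithmic web coordinates. -/
noncomputable def web (e : Fin 3 → E2) (w : E2) (k : Fin 3) : ℝ :=
  Real.log (bar e w (k + 1) / bar e w (k + 2))

lemma sum_bar_aff (e : Fin 3 → E2) (w : E2) (he : area e ≠ 0) (c : Fin 3 → ℝ) :
    ∑ i, bar e w i * aff c (e i) = aff c w := by
  rw [Fin.sum_univ_three]
  unfold bar
  have h0 : area (Function.update e 0 w)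
      = (e 1 0 - w 0) * (e 2 1 - w 1) - (e 1 1 - w 1) * (e 2 0 - w 0) := by
    unfold area; simp
  have h1 : area (Function.update e 1 w)
      = (w 0 - e 0 0) * (e 2 1 - e 0 1) - (w 1 - e 0 1) * (e 2 0 - e 0 0) := by
    unfold area; simp
  have h2 : area (Function.update e 2 w)
      = (e 1 0 - e 0 0) * (w 1 - e 0 1) - (e 1 1 - e 0 1) * (w 0 - e 0 0) := by
    unfold area; simp
  rw [h0, h1, h2]
  field_simp
  unfold aff area
  ring

lemma sum_bar (e : Fin 3 → E2) (w : E2) (he : area e ≠ 0) : ∑ i, bar e w i = 1 := by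
  have := sum_bar_aff e w he ![0, 0, 1]
  simpa [aff] using this

/-- Three points each of which is cut off by a line from the other two are not collinear. -/
lemma area_ne_zero (e : Fin 3 → E2) (c : Fin 3 → Fin 3 → ℝ) (h1 : ∀ i, 0 < aff (c i) (e i))
    (h2 : ∀ i j, i ≠ j → aff (c i) (e j) < 0) : area e ≠ 0 := by
  intro h0
  have hdet : (Matrix.of ![![e 0 0, e 0 1, 1], ![e 1 0, e 1 1, 1], ![e 2 0, e 2 1, 1]] :
      Matrix (Fin 3) (Fin 3) ℝ).det = 0 := by
    rw [Matrix.det_fin_three]
    unfold area at h0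
    simp
    linarith
  obtain ⟨v, hv, hv0⟩ := Matrix.exists_vecMul_eq_zero_iff.mpr hdet
  have e0 := congrFun hv0 0
  have e1 := congrFun hv0 1
  have e2 := congrFun hv0 2
  simp [Matrix.vecMul, dotProduct, Fin.sum_univ_three] at e0 e1 e2
  have hF : ∀ i, v 0 * aff (c i) (e 0) + v 1 * aff (c i) (e 1) + v 2 * aff (c i) (e 2) = 0 := by
    intro i
    unfold aff
    linear_combination (c i 0) * e0 + (c i 1) * e1 + (c i 2) * e2
  have hne : ¬ (v 0 = 0 ∧ v 1 = 0 ∧ v 2 = 0) := by
    rintro ⟨a, b, d⟩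
    apply hv
    funext i
    fin_cases i <;> simp [a, b, d]
  have p0 := h1 0
  have p1 := h1 1
  have p2 := h1 2
  have n01 := h2 0 1 (by decide)
  have n02 := h2 0 2 (by decide)
  have n10 := h2 1 0 (by decide)
  have n12 := h2 1 2 (by decide)
  have n20 := h2 2 0 (by decide)
  have n21 := h2 2 1 (by decide)
  have F0 := hF 0
  have F1 := hF 1
  have F2 := hF 2
  -- one sign is alone
  have claim : ∀ (x y z : ℝ) (a b d : ℝ), x + y + z = 0 → x * a + y * b + z * d = 0 →
      0 < a → b < 0 → d < 0 → y ≤ 0 → z ≤ 0 → x = 0 ∧ y = 0 ∧ z = 0 := by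
    intro x y z a b d s1 s2 ha hb hd hy hz
    have hx : 0 ≤ x := by linarith
    have t1 : 0 ≤ x * a := mul_nonneg hx ha.le
    have t2 : 0 ≤ y * b := mul_nonneg_of_nonpos_of_nonpos hy hb.le
    have t3 : 0 ≤ z * d := mul_nonneg_of_nonpos_of_nonpos hz hd.le
    have u1 : x * a = 0 := by linarith
    have u2 : y * b = 0 := by linarith
    have u3 : z * d = 0 := by linarith
    refine ⟨?_, ?_, ?_⟩
    · rcases mul_eq_zero.mp u1 with h | h
      · exact h
      · exact absurd h ha.ne'
    · rcases mul_eq_zero.mp u2 with h | h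
      · exact h
      · exact absurd h hb.ne
    · rcases mul_eq_zero.mp u3 with h | h
      · exact h
      · exact absurd h hd.ne
  apply hne
  rcases le_total (v 0) 0 with a0 | a0 <;> rcases le_total (v 1) 0 with a1 | a1 <;>
    rcases le_total (v 2) 0 with a2 | a2
  · have := claim (v 0) (v 1) (v 2) _ _ _ e2 F0 p0 n01 n02 a1 a2
    exact this
  · obtain ⟨x, y, z⟩ := claim (v 2) (v 0) (v 1) _ _ _ (by linarith)
      (by linarith [F2]) p2 n20 n21 a0 a1
    exact ⟨y, z, x⟩
  · obtain ⟨x, y, z⟩ := claim (v 1) (v 0) (v 2) _ _ _ (by linarith)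
      (by linarith [F1]) p1 n10 n12 a0 a2
    exact ⟨y, x, z⟩
  · obtain ⟨x, y, z⟩ := claim (-v 0) (-v 1) (-v 2) _ _ _ (by linarith)
      (by linarith [F0]) p0 n01 n02 (by linarith) (by linarith)
    exact ⟨by linarith, by linarith, by linarith⟩
  · obtain ⟨x, y, z⟩ := claim (v 0) (v 1) (v 2) _ _ _ (by linarith)
      (by linarith [F0]) p0 n01 n02 (by linarith) (by linarith)
    exact ⟨by linarith, by linarith, by linarith⟩
  · obtain ⟨x, y, z⟩ := claim (-v 1) (-v 0) (-v 2) _ _ _ (by linarith)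
      (by linarith [F1]) p1 n10 n12 (by linarith) (by linarith)
    exact ⟨by linarith, by linarith, by linarith⟩
  · obtain ⟨x, y, z⟩ := claim (-v 2) (-v 0) (-v 1) _ _ _ (by linarith)
      (by linarith [F2]) p2 n20 n21 (by linarith) (by linarith)
    exact ⟨by linarith, by linarith, by linarith⟩
  · obtain ⟨x, y, z⟩ := claim (-v 0) (-v 1) (-v 2) _ _ _ (by linarith)
      (by linarith [F0]) p0 n01 n02 (by linarith) (by linarith)
    exact ⟨by linarith, by linarith, by linarith⟩

/-- If for every nonempty proper set `T` some functional is positive exactly on `T` and negative at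
the point with coordinates `a`, then all coordinates of the point are positive. -/
lemma all_pos (a : Fin 3 → ℝ) (hs : ∑ i, a i = 1)
    (h : ∀ T : Finset (Fin 3), T.Nonempty → T ≠ Finset.univ → ∃ f : Fin 3 → ℝ,
      (∀ i ∈ T, 0 < f i) ∧ (∀ i ∉ T, f i < 0) ∧ ∑ i, a i * f i < 0) : ∀ i, 0 < a i := by
  classical
  intro i
  by_contra hi
  push Not at hi
  obtain ⟨f, hf1, hf2, hf3⟩ := h (Finset.univ.filter fun j => 0 < a j) (by
    by_contra hcon
    rw [Finset.not_nonempty_iff_eq_empty, Finset.filter_eq_empty_iff] at hcon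
    have : ∑ i, a i ≤ 0 := Finset.sum_nonpos fun j _ => by
      have := hcon (Finset.mem_univ j)
      linarith
    linarith) (by
    intro hcon
    have : i ∈ Finset.univ.filter fun j => 0 < a j := by rw [hcon]; exact Finset.mem_univ _
    simp at this
    linarith)
  have : 0 ≤ ∑ i, a i * f i := by
    refine Finset.sum_nonneg fun j _ => ?_
    by_cases hj : 0 < a j
    · exact mul_nonneg hj.le (hf1 j (by simpa using hj)).le
    · exact mul_nonneg_of_nonpos_of_nonpos (by linarith) (hf2 j (by simpa using hj)).le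
  linarith

lemma sum_three (k : Fin 3) (g : Fin 3 → ℝ) : ∑ i, g i = g k + g (k + 1) + g (k + 2) := by
  rw [Fin.sum_univ_three]
  fin_cases k
  · rfl
  · show g 0 + g 1 + g 2 = g 1 + g 2 + g 0
    ring
  · show g 0 + g 1 + g 2 = g 2 + g 0 + g 1
    ring

/-- Two functionals force a comparison of ratios. -/
lemma ratio_lt (k : Fin 3) (a a' : Fin 3 → ℝ) (ha : ∀ i, 0 < a i) (ha' : ∀ i, 0 < a' i)
    (f g : Fin 3 → ℝ) (f1 : 0 < f k) (f2 : 0 < f (k + 1)) (f3 : ∑ i, a i * f i < 0)
    (f4 : 0 < ∑ i, a' i * f i) (g1 : g k < 0) (g2 : 0 < g (k + 1)) (g3 : ∑ i, a i * g i < 0)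
    (g4 : 0 < ∑ i, a' i * g i) : a (k + 1) / a (k + 2) < a' (k + 1) / a' (k + 2) := by
  rw [div_lt_div_iff₀ (ha _) (ha' _)]
  by_contra hcon
  push Not at hcon
  rw [sum_three k] at f3 f4 g3 g4
  have p2 := ha (k + 2)
  have q2 := ha' (k + 2)
  rcases le_total (a (k + 2) * a' k) (a' (k + 2) * a k) with h | h
  · -- use f
    have t1 : 0 < a (k + 2) * (a' k * f k + a' (k + 1) * f (k + 1) + a' (k + 2) * f (k + 2)) :=
      mul_pos p2 f4
    have t2 : a' (k + 2) * (a k * f k + a (k + 1) * f (k + 1) + a (k + 2) * f (k + 2)) < 0 :=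
      mul_neg_of_pos_of_neg q2 f3
    have t3 : 0 ≤ (a' (k + 2) * a k - a (k + 2) * a' k) * f k :=
      mul_nonneg (by linarith) f1.le
    have t4 : 0 ≤ (a (k + 1) * a' (k + 2) - a' (k + 1) * a (k + 2)) * f (k + 1) :=
      mul_nonneg (by linarith) f2.le
    nlinarith
  · have t1 : 0 < a (k + 2) * (a' k * g k + a' (k + 1) * g (k + 1) + a' (k + 2) * g (k + 2)) :=
      mul_pos p2 g4
    have t2 : a' (k + 2) * (a k * g k + a (k + 1) * g (k + 1) + a (k + 2) * g (k + 2)) < 0 :=
      mul_neg_of_pos_of_neg q2 g3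
    have t3 : 0 ≤ (a' (k + 2) * a k - a (k + 2) * a' k) * g k :=
      mul_nonneg_of_nonpos_of_nonpos (by linarith) g1.le
    have t4 : 0 ≤ (a (k + 1) * a' (k + 2) - a' (k + 1) * a (k + 2)) * g (k + 1) :=
      mul_nonneg (by linarith) g2.le
    nlinarith

/-- Existence of the functionals of `all_pos`. -/
lemma exists_cut (a : Fin 3 → ℝ) (ha : ∀ i, 0 < a i) (T : Finset (Fin 3)) (hT : T ≠ Finset.univ) :
    ∃ f : Fin 3 → ℝ, (∀ i ∈ T, 0 < f i) ∧ (∀ i ∉ T, f i < 0) ∧ ∑ i, a i * f i < 0 := by
  classical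
  obtain ⟨j, hj⟩ : ∃ j, j ∉ T := by
    by_contra hcon
    push Not at hcon
    exact hT (Finset.eq_univ_iff_forall.mpr hcon)
  set S := ∑ i, a i with hS
  have hSpos : 0 < S := Finset.sum_pos (fun i _ => ha i) Finset.univ_nonempty
  refine ⟨fun i => if i ∈ T then a j / (2 * S) else -1, ?_, ?_, ?_⟩
  · intro i hi
    simp only [hi, if_true]
    exact div_pos (ha j) (by linarith)
  · intro i hi
    simp only [hi, if_false]
    norm_num
  · have h1 : ∑ i, a i * (if i ∈ T then a j / (2 * S) else -1)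
        ≤ ∑ i, (a i * (a j / (2 * S)) - if i = j then a j else 0) := by
      refine Finset.sum_le_sum fun i _ => ?_
      have h2 : 0 < a j / (2 * S) := div_pos (ha j) (by linarith)
      by_cases hij : i = j
      · subst hij
        simp only [hj, if_false, if_true]
        have := mul_pos (ha i) h2
        linarith
      · simp only [hij, if_false, sub_zero]
        by_cases hiT : i ∈ T
        · simp [hiT]
        · simp only [hiT, if_false]
          have := mul_pos (ha i) h2
          have := ha i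
          linarith
    have h3 : ∑ i, (a i * (a j / (2 * S)) - if i = j then a j else 0)
        = S * (a j / (2 * S)) - a j := by
      rw [Finset.sum_sub_distrib, ← Finset.sum_mul, Finset.sum_ite_eq' Finset.univ j]
      simp [hS]
    have h4 : S * (a j / (2 * S)) = a j / 2 := by field_simp
    have := ha j
    linarith

/-- Existence of the functionals of `ratio_lt`. -/
lemma exists_sep (k : Fin 3) (a a' : Fin 3 → ℝ) (ha : ∀ i, 0 < a i) (ha' : ∀ i, 0 < a' i)
    (h : a (k + 1) / a (k + 2) < a' (k + 1) / a' (k + 2)) (s : ℝ) :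
    ∃ f : Fin 3 → ℝ, f k = s ∧ 0 < f (k + 1) ∧ ∑ i, a i * f i < 0 ∧ 0 < ∑ i, a' i * f i := by
  rw [div_lt_div_iff₀ (ha _) (ha' _)] at h
  have p2 := ha (k + 2)
  have q2 := ha' (k + 2)
  set D := a' (k + 1) * a (k + 2) - a (k + 1) * a' (k + 2) with hD
  have hDpos : 0 < D := by rw [hD]; linarith
  -- choose Y large
  obtain ⟨Y, hY0, hY⟩ : ∃ Y : ℝ, 0 < Y ∧
      0 < s * (a' k * a (k + 2) - a k * a' (k + 2)) + Y * D - a' (k + 2) := by
    set K := |s * (a' k * a (k + 2) - a k * a' (k + 2))| + a' (k + 2) + 1 with hK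
    have hKpos : 0 < K := by
      have := abs_nonneg (s * (a' k * a (k + 2) - a k * a' (k + 2)))
      rw [hK]; linarith
    refine ⟨K / D, div_pos hKpos hDpos, ?_⟩
    have : K / D * D = K := by field_simp
    rw [this]
    have := neg_abs_le (s * (a' k * a (k + 2) - a k * a' (k + 2)))
    rw [hK]
    linarith
  have hkk : k ≠ k + 1 ∧ k ≠ k + 2 ∧ k + 1 ≠ k + 2 := by
    fin_cases k <;> decide
  obtain ⟨n1, n2, n3⟩ := hkk
  refine ⟨fun i => if i = k then s else if i = k + 1 then Y
    else (-1 - s * a k - Y * a (k + 1)) / a (k + 2), ?_, ?_, ?_, ?_⟩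
  · simp
  · simp only [n1.symm, if_false, if_true]
    exact hY0
  · rw [sum_three k]
    simp only [n1.symm, n2.symm, n3.symm, if_false, if_true]
    have : a (k + 2) * ((-1 - s * a k - Y * a (k + 1)) / a (k + 2))
        = -1 - s * a k - Y * a (k + 1) := by field_simp
    rw [this]
    linarith
  · rw [sum_three k]
    simp only [n1.symm, n2.symm, n3.symm, if_false, if_true]
    have : a' k * s + a' (k + 1) * Y + a' (k + 2) * ((-1 - s * a k - Y * a (k + 1)) / a (k + 2))
        = (s * (a' k * a (k + 2) - a k * a' (k + 2)) + Y * D - a' (k + 2)) / a (k + 2) := by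
      rw [hD]
      field_simp
      ring
    rw [this]
    exact div_pos hY p2

/-- The three web coordinates of a point inside the triangle add up to zero. -/
lemma web_sum (e : Fin 3 → E2) (w : E2) (h : ∀ i, 0 < bar e w i) :
    web e w 0 + web e w 1 + web e w 2 = 0 := by
  unfold web
  have h0 := (h 0).ne'
  have h1 := (h 1).ne'
  have h2 := (h 2).ne'
  show Real.log (bar e w 1 / bar e w 2) + Real.log (bar e w 2 / bar e w 0)
    + Real.log (bar e w 0 / bar e w 1) = 0
  rw [Real.log_div h1 h2, Real.log_div h2 h0, Real.log_div h0 h1]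
  ring

end UDisk
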