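import Mathlib

/-!
A labelling of a blown up structure with few errors contains an errorless labelling of the
structure (helper file for MP_c7897a_lc).
-/

namespace UDisk

/-- Number of functions with two prescribed values. -/
lemma card_two_fixed {m M : ℕ} (i j : Fin m) (hij : i ≠ j) (a b : Fin M) :
    (Finset.univ.filter fun t : Fin m → Fin M => t i = a ∧ t j = b).card * M ^ 2 = M ^ m := by
  classical
  have h1 : (Finset.univ.filter fun t : Fin m → Fin M => t i = a ∧ t j = b)
      = Fintype.piFinset (fun k => if k = i then {a} else if k = j then {b} else Finset.univ) := by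
    ext t
    simp only [Finset.mem_filter, Finset.mem_univ, true_and, Fintype.mem_piFinset]
    constructor
    · rintro ⟨h1, h2⟩ k
      by_cases hk : k = i
      · subst hk; simp [h1]
      · by_cases hk2 : k = j
        · subst hk2; simp [hk, h2]
        · simp [hk, hk2]
    · intro h
      have e1 := h i
      have e2 := h j
      simp only [if_true, Finset.mem_singleton] at e1
      simp only [if_true, hij.symm, if_false, Finset.mem_singleton] at e2
      exact ⟨e1, e2⟩
  rw [h1, Fintype.card_piFinset]
  have h2 : ∀ k : Fin m, (if k = i then ({a} : Finset (Fin M)) else if k = j then {b}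
      else Finset.univ).card * (if k = i then M else if k = j then M else 1) = M := by
    intro k
    by_cases hk : k = i
    · simp [hk]
    · by_cases hk2 : k = j
      · simp [hk2, hij.symm]
      · simp [hk, hk2]
  have h3 : ∏ k : Fin m, (if k = i then M else if k = j then M else 1) = M ^ 2 := by
    have : ∀ k : Fin m, (if k = i then M else if k = j then M else 1)
        = (if k = i then M else 1) * (if k = j then M else 1) := by
      intro k
      by_cases hk : k = i
      · subst hk; simp [hij]
      · by_cases hk2 : k = j <;> simp [hk, hk2, hij.symm]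
    rw [Finset.prod_congr rfl fun k _ => this k, Finset.prod_mul_distrib,
      Finset.prod_ite_eq' Finset.univ i, Finset.prod_ite_eq' Finset.univ j]
    simp [sq]
  calc (∏ k : Fin m, (if k = i then ({a} : Finset (Fin M)) else if k = j then {b}
      else Finset.univ).card) * M ^ 2
      = (∏ k : Fin m, (if k = i then ({a} : Finset (Fin M)) else if k = j then {b}
      else Finset.univ).card) * ∏ k : Fin m, (if k = i then M else if k = j then M else 1) := by
        rw [h3]
    _ = ∏ k : Fin m, M := by
        rw [← Finset.prod_mul_distrib]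
        exact Finset.prod_congr rfl fun k _ => h2 k
    _ = M ^ m := by simp

/-- **Transversals without errors.** -/
theorem exists_transversal {m M : ℕ} (bad : Fin m × Fin M → Fin m × Fin M → Prop)
    (h : {p : (Fin m × Fin M) × (Fin m × Fin M) | p.1.1 ≠ p.2.1 ∧ bad p.1 p.2}.ncard < M ^ 2) :
    ∃ t : Fin m → Fin M, ∀ i j, i ≠ j → ¬ bad (i, t i) (j, t j) := by
  classical
  have hM : 0 < M := by
    rcases Nat.eq_zero_or_pos M with h0 | h0
    · subst h0; simp at h
    · exact h0
  by_contra hcon
  push Not at hcon
  set B : Finset ((Fin m × Fin M) × (Fin m × Fin M)) :=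
    Finset.univ.filter fun p => p.1.1 ≠ p.2.1 ∧ bad p.1 p.2 with hB
  have hBc : B.card < M ^ 2 := by
    have : {p : (Fin m × Fin M) × (Fin m × Fin M) | p.1.1 ≠ p.2.1 ∧ bad p.1 p.2}
        = (B : Set _) := by
      ext p; simp [hB]
    rw [this, Set.ncard_coe_finset] at h
    exact h
  have hcov : (Finset.univ : Finset (Fin m → Fin M)) ⊆ B.biUnion fun p =>
      Finset.univ.filter fun t : Fin m → Fin M => t p.1.1 = p.1.2 ∧ t p.2.1 = p.2.2 := by
    intro t _
    obtain ⟨i, j, hij, hb⟩ := hcon t
    rw [Finset.mem_biUnion]
    refine ⟨((i, t i), (j, t j)), ?_, ?_⟩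
    · simp only [hB, Finset.mem_filter, Finset.mem_univ, true_and]
      exact ⟨hij, hb⟩
    · simp
  have h1 := Finset.card_le_card hcov
  have h2 : (B.biUnion fun p => Finset.univ.filter fun t : Fin m → Fin M =>
      t p.1.1 = p.1.2 ∧ t p.2.1 = p.2.2).card * M ^ 2 ≤ B.card * M ^ m := by
    calc (B.biUnion fun p => Finset.univ.filter fun t : Fin m → Fin M =>
      t p.1.1 = p.1.2 ∧ t p.2.1 = p.2.2).card * M ^ 2
        ≤ (∑ p ∈ B, (Finset.univ.filter fun t : Fin m → Fin M =>
      t p.1.1 = p.1.2 ∧ t p.2.1 = p.2.2).card) * M ^ 2 :=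
          Nat.mul_le_mul_right _ Finset.card_biUnion_le
      _ = ∑ p ∈ B, M ^ m := by
          rw [Finset.sum_mul]
          refine Finset.sum_congr rfl fun p hp => card_two_fixed _ _ ?_ _ _
          exact (Finset.mem_filter.mp hp).2.1
      _ = B.card * M ^ m := by rw [Finset.sum_const, smul_eq_mul]
  have h3 : (Finset.univ : Finset (Fin m → Fin M)).card = M ^ m := by simp
  rw [h3] at h1
  have h4 : M ^ m * M ^ 2 ≤ B.card * M ^ m := le_trans (Nat.mul_le_mul_right _ h1) h2
  have h5 : 0 < M ^ m := pow_pos hM _
  have h6 : M ^ 2 ≤ B.card := by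
    rw [mul_comm] at h4
    exact Nat.le_of_mul_le_mul_right h4 h5
  omega

end UDisk
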