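import Pool.Agent.Helper62.UD.Forcing

/-!
The doubling chain: for every `S < 2 ^ n` a system of comparisons between web coordinates of
`O(n)` points which confines a ratio formed from three of the points between `S / 2 ^ n` and
`(S + 1) / 2 ^ n` (helper file for MP_c7897a_lc).
-/

namespace UDisk

/-- Names of the points. -/
abbrev CW (n : ℕ) := Fin 5 ⊕ (Bool × Fin (n + 1) × Fin 4)

/-- Names of the comparisons. -/
abbrev CJ (n : ℕ) := Fin 8 ⊕ (Bool × Fin n × Fin 8)

/-- The leading digits. -/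
def dig (S n i : ℕ) : ℕ := S / 2 ^ (n - i)

lemma dig_succ (S n i : ℕ) (hi : i < n) : dig S n (i + 1) = 2 * dig S n i + dig S n (i + 1) % 2 := by
  have h1 : dig S n i = dig S n (i + 1) / 2 := by
    unfold dig
    have h2 : n - i = (n - (i + 1)) + 1 := by omega
    rw [h2, pow_succ, Nat.div_div_eq_div_mul]
  rw [h1]
  omega

lemma dig_zero (S n : ℕ) (h : S < 2 ^ n) : dig S n 0 = 0 := by
  unfold dig
  exact Nat.div_eq_of_lt (by simpa using h)

lemma dig_last (S n : ℕ) : dig S n n = S := by
  unfold dig; simp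

/-- The reference point of the digit. -/
def ref {n : ℕ} (S : ℕ) (i : Fin n) : CW n :=
  if dig S n (i.val + 1) % 2 = 1 then Sum.inl 2 else Sum.inl 0

/-- The smaller and the larger point of the comparison (before the swap). -/
def base {n : ℕ} (S : ℕ) (τ : Bool) (i : Fin n) : Fin 8 → CW n × CW n :=
  ![(Sum.inr (τ, i.castSucc, 1), Sum.inr (τ, i.castSucc, 0)),
    (Sum.inr (τ, i.castSucc, 1), Sum.inl 0),
    (Sum.inr (τ, i.castSucc, 1), Sum.inr (τ, i.castSucc, 2)),
    (Sum.inl 0, Sum.inr (τ, i.castSucc, 2)),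
    (Sum.inr (τ, i.castSucc, 3), Sum.inr (τ, i.castSucc, 2)),
    (Sum.inr (τ, i.castSucc, 3), Sum.inr (τ, i.castSucc, 0)),
    (Sum.inr (τ, i.castSucc, 3), Sum.inr (τ, i.succ, 0)),
    (ref S i, Sum.inr (τ, i.succ, 0))]

/-- The two points of the last comparisons. -/
def fin {n : ℕ} : Fin 8 → CW n × CW n :=
  ![(Sum.inr (true, 0, 0), Sum.inl 1), (Sum.inl 1, Sum.inr (false, 0, 0)),
    (Sum.inl 0, Sum.inr (true, Fin.last n, 0)), (Sum.inr (false, Fin.last n, 0), Sum.inl 4),
    (Sum.inl 3, Sum.inl 0), (Sum.inl 3, Sum.inl 2), (Sum.inl 3, Sum.inl 4),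
    (Sum.inl 0, Sum.inl 4)]

def ckOf {n : ℕ} : CJ n → Fin 3 :=
  Sum.elim ![0, 0, 0, 0, 0, 2, 1, 2] (fun x => ![0, 2, 1, 0, 2, 0, 1, 2] x.2.2)

def clOf {n : ℕ} (S : ℕ) : CJ n → CW n :=
  Sum.elim (fun k => (fin k).1)
    (fun x => if x.1 then (base S x.1 x.2.1 x.2.2).1 else (base S x.1 x.2.1 x.2.2).2)

def crOf {n : ℕ} (S : ℕ) : CJ n → CW n :=
  Sum.elim (fun k => (fin k).2)
    (fun x => if x.1 then (base S x.1 x.2.1 x.2.2).2 else (base S x.1 x.2.1 x.2.2).1)

/-- What the comparisons force. -/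
theorem chain_forces {n S : ℕ} (hS : S < 2 ^ n) (X : CW n → Fin 3 → ℝ)
    (hsum : ∀ w, X w 0 + X w 1 + X w 2 = 0)
    (hX : ∀ j, X (clOf S j) (ckOf j) < X (crOf S j) (ckOf j)) :
    (S : ℝ) * (X (Sum.inl 2) 2 - X (Sum.inl 0) 2) < 2 ^ n * (X (Sum.inl 1) 0 - X (Sum.inl 0) 0) ∧
    2 ^ n * (X (Sum.inl 1) 0 - X (Sum.inl 0) 0)
      < ((S : ℝ) + 1) * (X (Sum.inl 2) 2 - X (Sum.inl 0) 2) := by
  set M : ℝ := X (Sum.inl 2) 2 - X (Sum.inl 0) 2 with hM
  have href : ∀ i : Fin n, X (ref S i) 2 - X (Sum.inl 0) 2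
      = ((dig S n (i.val + 1) % 2 : ℕ) : ℝ) * M := by
    intro i
    unfold ref
    split_ifs with h
    · rw [h]; simp [hM]
    · have h0 : dig S n (i.val + 1) % 2 = 0 := by omega
      rw [h0]; simp
  have hdig : ∀ i : Fin n, (dig S n (i.val + 1) : ℝ)
      = 2 * dig S n i.val + ((dig S n (i.val + 1) % 2 : ℕ) : ℝ) := by
    intro i
    exact_mod_cast dig_succ S n i.val i.isLt
  have hlow : ∀ i : Fin (n + 1), X (Sum.inr (true, i, 0)) 0 - X (Sum.inl 0) 0
      ≤ 2 ^ i.val * (X (Sum.inl 1) 0 - X (Sum.inl 0) 0) - dig S n i.val * M := by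
    intro i
    induction i using Fin.induction with
    | zero =>
      have h0 : X (Sum.inr (true, 0, 0)) 0 < X (Sum.inl 1) 0 := hX (Sum.inl 0)
      simp only [Fin.val_zero, pow_zero, one_mul, dig_zero S n hS, Nat.cast_zero, zero_mul,
        sub_zero]
      linarith
    | succ i ih =>
      have c0 : X (Sum.inr (true, i.castSucc, 1)) 0 < X (Sum.inr (true, i.castSucc, 0)) 0 :=
        hX (Sum.inr (true, i, 0))
      have c1 : X (Sum.inr (true, i.castSucc, 1)) 2 < X (Sum.inl 0) 2 :=
        hX (Sum.inr (true, i, 1))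
      have c2 : X (Sum.inr (true, i.castSucc, 1)) 1 < X (Sum.inr (true, i.castSucc, 2)) 1 :=
        hX (Sum.inr (true, i, 2))
      have c3 : X (Sum.inl 0) 0 < X (Sum.inr (true, i.castSucc, 2)) 0 :=
        hX (Sum.inr (true, i, 3))
      have c4 : X (Sum.inr (true, i.castSucc, 3)) 2 < X (Sum.inr (true, i.castSucc, 2)) 2 :=
        hX (Sum.inr (true, i, 4))
      have c5 : X (Sum.inr (true, i.castSucc, 3)) 0 < X (Sum.inr (true, i.castSucc, 0)) 0 :=
        hX (Sum.inr (true, i, 5))
      have c6 : X (Sum.inr (true, i.castSucc, 3)) 1 < X (Sum.inr (true, i.succ, 0)) 1 :=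
        hX (Sum.inr (true, i, 6))
      have c7 : X (ref S i) 2 < X (Sum.inr (true, i.succ, 0)) 2 :=
        hX (Sum.inr (true, i, 7))
      have s0 := hsum (Sum.inl 0)
      have s1 := hsum (Sum.inr (true, i.castSucc, 1))
      have s2 := hsum (Sum.inr (true, i.castSucc, 2))
      have s3 := hsum (Sum.inr (true, i.castSucc, 3))
      have s4 := hsum (Sum.inr (true, i.succ, 0))
      have r := href i
      have d := hdig i
      rw [Fin.val_castSucc] at ih
      rw [Fin.val_succ, pow_succ, d, add_mul]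
      have key : X (Sum.inr (true, i.succ, 0)) 0 - X (Sum.inl 0) 0
          ≤ 2 * (X (Sum.inr (true, i.castSucc, 0)) 0 - X (Sum.inl 0) 0)
            - (X (ref S i) 2 - X (Sum.inl 0) 2) := by linarith
      rw [r] at key
      linarith
  have hupp : ∀ i : Fin (n + 1), 2 ^ i.val * (X (Sum.inl 1) 0 - X (Sum.inl 0) 0)
      - dig S n i.val * M ≤ X (Sum.inr (false, i, 0)) 0 - X (Sum.inl 0) 0 := by
    intro i
    induction i using Fin.induction with
    | zero =>
      have h0 : X (Sum.inl 1) 0 < X (Sum.inr (false, 0, 0)) 0 := hX (Sum.inl 1)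
      simp only [Fin.val_zero, pow_zero, one_mul, dig_zero S n hS, Nat.cast_zero, zero_mul,
        sub_zero]
      linarith
    | succ i ih =>
      have c0 : X (Sum.inr (false, i.castSucc, 0)) 0 < X (Sum.inr (false, i.castSucc, 1)) 0 :=
        hX (Sum.inr (false, i, 0))
      have c1 : X (Sum.inl 0) 2 < X (Sum.inr (false, i.castSucc, 1)) 2 :=
        hX (Sum.inr (false, i, 1))
      have c2 : X (Sum.inr (false, i.castSucc, 2)) 1 < X (Sum.inr (false, i.castSucc, 1)) 1 :=
        hX (Sum.inr (false, i, 2))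
      have c3 : X (Sum.inr (false, i.castSucc, 2)) 0 < X (Sum.inl 0) 0 :=
        hX (Sum.inr (false, i, 3))
      have c4 : X (Sum.inr (false, i.castSucc, 2)) 2 < X (Sum.inr (false, i.castSucc, 3)) 2 :=
        hX (Sum.inr (false, i, 4))
      have c5 : X (Sum.inr (false, i.castSucc, 0)) 0 < X (Sum.inr (false, i.castSucc, 3)) 0 :=
        hX (Sum.inr (false, i, 5))
      have c6 : X (Sum.inr (false, i.succ, 0)) 1 < X (Sum.inr (false, i.castSucc, 3)) 1 :=
        hX (Sum.inr (false, i, 6))
      have c7 : X (Sum.inr (false, i.succ, 0)) 2 < X (ref S i) 2 :=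
        hX (Sum.inr (false, i, 7))
      have s0 := hsum (Sum.inl 0)
      have s1 := hsum (Sum.inr (false, i.castSucc, 1))
      have s2 := hsum (Sum.inr (false, i.castSucc, 2))
      have s3 := hsum (Sum.inr (false, i.castSucc, 3))
      have s4 := hsum (Sum.inr (false, i.succ, 0))
      have r := href i
      have d := hdig i
      rw [Fin.val_castSucc] at ih
      rw [Fin.val_succ, pow_succ, d, add_mul]
      have key : 2 * (X (Sum.inr (false, i.castSucc, 0)) 0 - X (Sum.inl 0) 0)
            - (X (ref S i) 2 - X (Sum.inl 0) 2)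
          ≤ X (Sum.inr (false, i.succ, 0)) 0 - X (Sum.inl 0) 0 := by linarith
      rw [r] at key
      linarith
  have hl := hlow (Fin.last n)
  have hu := hupp (Fin.last n)
  rw [Fin.val_last, dig_last] at hl hu
  have e2 : X (Sum.inl 0) 0 < X (Sum.inr (true, Fin.last n, 0)) 0 := hX (Sum.inl 2)
  have e3 : X (Sum.inr (false, Fin.last n, 0)) 0 < X (Sum.inl 4) 0 := hX (Sum.inl 3)
  have e4 : X (Sum.inl 3) 0 < X (Sum.inl 0) 0 := hX (Sum.inl 4)
  have e5 : X (Sum.inl 3) 2 < X (Sum.inl 2) 2 := hX (Sum.inl 5)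
  have e6 : X (Sum.inl 3) 1 < X (Sum.inl 4) 1 := hX (Sum.inl 6)
  have e7 : X (Sum.inl 0) 2 < X (Sum.inl 4) 2 := hX (Sum.inl 7)
  have s0 := hsum (Sum.inl 0)
  have s3 := hsum (Sum.inl 3)
  have s4 := hsum (Sum.inl 4)
  constructor
  · linarith
  · rw [add_mul, one_mul]
    linarith

/-- The model. -/
noncomputable def xval (S n : ℕ) (τ : Bool) (i : ℕ) : ℝ :=
  2 ^ i * ((S + 1 / 2) / 2 ^ n) - dig S n i
    - (if τ then 1 else -1) * (8 * (2 ^ (i + 1) - 1) * (1 / (64 * 2 ^ n)))

noncomputable def co (S n : ℕ) : CW n → ℝ × ℝ :=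
  Sum.elim ![(0, 0), ((S + 1 / 2) / 2 ^ n, 0), (0, 1),
      (- (1 / (64 * 2 ^ n)), 1 - 1 / (64 * 2 ^ n)),
      (1 - 4 * (1 / (64 * 2 ^ n)), 1 / (64 * 2 ^ n))]
    (fun x => ![(xval S n x.1 x.2.1.val,
          ((dig S n x.2.1.val % 2 : ℕ) : ℝ) + (if x.1 then 1 else -1) * (1 / (64 * 2 ^ n))),
        (xval S n x.1 x.2.1.val - (if x.1 then 1 else -1) * (1 / (64 * 2 ^ n)),
          - (if x.1 then 1 else -1) * (1 / (64 * 2 ^ n))),
        ((if x.1 then 1 else -1) * (1 / (64 * 2 ^ n)),
          xval S n x.1 x.2.1.val - 4 * (if x.1 then 1 else -1) * (1 / (64 * 2 ^ n))),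
        (xval S n x.1 x.2.1.val - (if x.1 then 1 else -1) * (1 / (64 * 2 ^ n)),
          xval S n x.1 x.2.1.val - 5 * (if x.1 then 1 else -1) * (1 / (64 * 2 ^ n)))] x.2.2)

noncomputable def Lmod (S n : ℕ) (k : Fin 3) (w : CW n) : ℝ :=
  ![(co S n w).1, - (co S n w).1 - (co S n w).2, (co S n w).2] k

lemma Lmod_sum (S n : ℕ) (w : CW n) : Lmod S n 0 w + Lmod S n 1 w + Lmod S n 2 w = 0 := by
  simp only [Lmod, Matrix.cons_val_zero, Matrix.cons_val_one, Matrix.cons_val]
  ring

lemma xval_succ (S n : ℕ) (τ : Bool) (i : ℕ) (hi : i < n) : xval S n τ (i + 1)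
    = 2 * xval S n τ i - ((dig S n (i + 1) % 2 : ℕ) : ℝ)
      - 8 * (if τ then 1 else -1) * (1 / (64 * 2 ^ n)) := by
  have h : (dig S n (i + 1) : ℝ) = 2 * dig S n i + ((dig S n (i + 1) % 2 : ℕ) : ℝ) := by
    exact_mod_cast dig_succ S n i hi
  unfold xval
  rw [h]
  ring

/-- The model satisfies all comparisons. -/
theorem chain_model {n S : ℕ} (hS : S < 2 ^ n) (j : CJ n) :
    Lmod S n (ckOf j) (clOf S j) < Lmod S n (ckOf j) (crOf S j) := by
  have h2 : (0 : ℝ) < 2 ^ n := by positivity
  have h1 : (1 : ℝ) ≤ 2 ^ n := one_le_pow₀ (by norm_num)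
  set ε : ℝ := 1 / (64 * 2 ^ n) with hε
  have hε0 : 0 < ε := by positivity
  have hε1 : 2 ^ n * ε = 1 / 64 := by rw [hε]; field_simp
  have hε2 : ε ≤ 1 / 64 := by
    calc ε ≤ 2 ^ n * ε := by nlinarith
      _ = 1 / 64 := hε1
  rcases j with k | ⟨τ, i, k⟩
  · -- last comparisons
    have x0t : xval S n true 0 = (S + 1 / 2) / 2 ^ n - 8 * ε := by
      simp only [xval, dig_zero S n hS, ← hε]
      norm_num
    have x0f : xval S n false 0 = (S + 1 / 2) / 2 ^ n + 8 * ε := by
      simp only [xval, dig_zero S n hS, ← hε]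
      norm_num
    have hx : (2 : ℝ) ^ n * ((S + 1 / 2) / 2 ^ n) = S + 1 / 2 := by field_simp
    have xnt : xval S n true n = 1 / 2 - 1 / 4 + 8 * ε := by
      simp only [xval, dig_last, ← hε, hx, if_true]
      have : (2 : ℝ) ^ (n + 1) = 2 * 2 ^ n := by ring
      rw [this]
      linear_combination (-16) * hε1
    have xnf : xval S n false n = 1 / 2 + 1 / 4 - 8 * ε := by
      simp only [xval, dig_last, ← hε, hx, Bool.false_eq_true, if_false]
      have : (2 : ℝ) ^ (n + 1) = 2 * 2 ^ n := by ring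
      rw [this]
      linear_combination 16 * hε1
    fin_cases k
    · show xval S n true 0 < (S + 1 / 2) / 2 ^ n
      linarith
    · show (S + 1 / 2) / 2 ^ n < xval S n false 0
      linarith
    · show 0 < xval S n true (Fin.last n).val
      rw [Fin.val_last]
      linarith
    · show xval S n false (Fin.last n).val < 1 - 4 * ε
      rw [Fin.val_last]
      linarith
    · show - ε < 0
      linarith
    · show 1 - ε < 1
      linarith
    · show - (-ε) - (1 - ε) < - (1 - 4 * ε) - ε
      linarith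
    · show 0 < ε
      exact hε0
  · have hs := xval_succ S n τ i.val i.isLt
    rw [← hε] at hs
    have hrefc : (co S n (ref S i)).2 = ((dig S n (i.val + 1) % 2 : ℕ) : ℝ) := by
      unfold ref
      split_ifs with h
      · rw [h]; simp [co]
      · have h0 : dig S n (i.val + 1) % 2 = 0 := by omega
        rw [h0]; simp [co]
    have hp1 : co S n (Sum.inr (τ, i.succ, 0)) = (xval S n τ (i.val + 1),
        ((dig S n (i.val + 1) % 2 : ℕ) : ℝ) + (if τ then 1 else -1) * ε) := by
      simp [co, ← hε]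
    have hp0 : co S n (Sum.inr (τ, i.castSucc, 0)) = (xval S n τ i.val,
        ((dig S n i.val % 2 : ℕ) : ℝ) + (if τ then 1 else -1) * ε) := by
      simp [co, ← hε]
    have ht : co S n (Sum.inr (τ, i.castSucc, 1)) = (xval S n τ i.val - (if τ then 1 else -1) * ε,
        - (if τ then 1 else -1) * ε) := by
      simp [co, ← hε]
    have hu : co S n (Sum.inr (τ, i.castSucc, 2)) = ((if τ then 1 else -1) * ε,
        xval S n τ i.val - 4 * (if τ then 1 else -1) * ε) := by
      simp [co, ← hε]
    have hr : co S n (Sum.inr (τ, i.castSucc, 3)) = (xval S n τ i.val - (if τ then 1 else -1) * ε,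
        xval S n τ i.val - 5 * (if τ then 1 else -1) * ε) := by
      simp [co, ← hε]
    have h0 : co S n (Sum.inl 0) = (0, 0) := by simp [co]
    rcases τ with _ | _
    · simp only [Bool.false_eq_true, if_false] at hs hp1 hp0 ht hu hr
      fin_cases k
      · show (co S n (Sum.inr (false, i.castSucc, 0))).1
          < (co S n (Sum.inr (false, i.castSucc, 1))).1
        rw [hp0, ht]; simp only; linarith
      · show (co S n (Sum.inl 0)).2 < (co S n (Sum.inr (false, i.castSucc, 1))).2
        rw [h0, ht]; simp only; linarith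
      · show - (co S n (Sum.inr (false, i.castSucc, 2))).1
            - (co S n (Sum.inr (false, i.castSucc, 2))).2
          < - (co S n (Sum.inr (false, i.castSucc, 1))).1
            - (co S n (Sum.inr (false, i.castSucc, 1))).2
        rw [hu, ht]; simp only; linarith
      · show (co S n (Sum.inr (false, i.castSucc, 2))).1 < (co S n (Sum.inl 0)).1
        rw [h0, hu]; simp only; linarith
      · show (co S n (Sum.inr (false, i.castSucc, 2))).2
          < (co S n (Sum.inr (false, i.castSucc, 3))).2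
        rw [hu, hr]; simp only; linarith
      · show (co S n (Sum.inr (false, i.castSucc, 0))).1
          < (co S n (Sum.inr (false, i.castSucc, 3))).1
        rw [hp0, hr]; simp only; linarith
      · show - (co S n (Sum.inr (false, i.succ, 0))).1
            - (co S n (Sum.inr (false, i.succ, 0))).2
          < - (co S n (Sum.inr (false, i.castSucc, 3))).1
            - (co S n (Sum.inr (false, i.castSucc, 3))).2
        rw [hp1, hr]; simp only; linarith
      · show (co S n (Sum.inr (false, i.succ, 0))).2 < (co S n (ref S i)).2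
        rw [hp1, hrefc]; simp only; linarith
    · simp only [if_true] at hs hp1 hp0 ht hu hr
      fin_cases k
      · show (co S n (Sum.inr (true, i.castSucc, 1))).1
          < (co S n (Sum.inr (true, i.castSucc, 0))).1
        rw [hp0, ht]; simp only; linarith
      · show (co S n (Sum.inr (true, i.castSucc, 1))).2 < (co S n (Sum.inl 0)).2
        rw [h0, ht]; simp only; linarith
      · show - (co S n (Sum.inr (true, i.castSucc, 1))).1
            - (co S n (Sum.inr (true, i.castSucc, 1))).2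
          < - (co S n (Sum.inr (true, i.castSucc, 2))).1
            - (co S n (Sum.inr (true, i.castSucc, 2))).2
        rw [hu, ht]; simp only; linarith
      · show (co S n (Sum.inl 0)).1 < (co S n (Sum.inr (true, i.castSucc, 2))).1
        rw [h0, hu]; simp only; linarith
      · show (co S n (Sum.inr (true, i.castSucc, 3))).2
          < (co S n (Sum.inr (true, i.castSucc, 2))).2
        rw [hu, hr]; simp only; linarith
      · show (co S n (Sum.inr (true, i.castSucc, 3))).1
          < (co S n (Sum.inr (true, i.castSucc, 0))).1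
        rw [hp0, hr]; simp only; linarith
      · show - (co S n (Sum.inr (true, i.castSucc, 3))).1
            - (co S n (Sum.inr (true, i.castSucc, 3))).2
          < - (co S n (Sum.inr (true, i.succ, 0))).1
            - (co S n (Sum.inr (true, i.succ, 0))).2
        rw [hp1, hr]; simp only; linarith
      · show (co S n (ref S i)).2 < (co S n (Sum.inr (true, i.succ, 0))).2
        rw [hp1, hrefc]; simp only; linarith

end UDisk
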