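import Pool.Agent.Helper62.UD.Forcing
import Pool.Agent.Helper62.UD.Blow

/-!
Classes of geometric intersection graphs and adjacency labelling schemes (helper file for
MP_c7897a_lc).
-/

open Metric

namespace UDisk

/-- A class of finite simple graphs: for every `n`, a property of the graphs on `n` vertices. -/
abbrev GraphClass := ∀ n : ℕ, SimpleGraph (Fin n) → Prop

/-- Intersection graphs of closed line segments of the plane. -/
def SegmentGraphs : GraphClass := fun n G =>
  ∃ A B : Fin n → E2, ∀ u v, G.Adj u v ↔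
    u ≠ v ∧ (segment ℝ (A u) (B u) ∩ segment ℝ (A v) (B v)).Nonempty

/-- Intersection graphs of closed disks (of arbitrary positive radii) of the plane. -/
def DiskGraphs : GraphClass := fun n G =>
  ∃ (P : Fin n → E2) (r : Fin n → ℝ), (∀ v, 0 < r v) ∧ ∀ u v, G.Adj u v ↔
    u ≠ v ∧ (closedBall (P u) (r u) ∩ closedBall (P v) (r v)).Nonempty

/-- Intersection graphs of closed disks of radius one of the plane. -/
def UnitDiskGraphs : GraphClass := fun _ G => IsUnitDisk G

/-- The labelling `l` of the vertices with decoder `dec` is correct for `G`. -/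
def Correct {n : ℕ} (dec : List Bool → List Bool → Bool) (G : SimpleGraph (Fin n))
    (l : Fin n → List Bool) : Prop :=
  ∀ u v, u ≠ v → (dec (l u) (l v) = true ↔ G.Adj u v)

/-- The number of ordered pairs of different vertices on which the labelling is wrong. -/
noncomputable def errors {n : ℕ} (dec : List Bool → List Bool → Bool) (G : SimpleGraph (Fin n))
    (l : Fin n → List Bool) : ℕ :=
  {p : Fin n × Fin n | p.1 ≠ p.2 ∧ ¬ (dec (l p.1) (l p.2) = true ↔ G.Adj p.1 p.2)}.ncard

/-- The class has an adjacency labelling scheme with labels of length `O(log n)`. -/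
def Short (C : GraphClass) : Prop :=
  ∃ dec : List Bool → List Bool → Bool, Computable₂ dec ∧ ∃ c : ℕ, ∀ n (G : SimpleGraph (Fin n)),
    C n G → ∃ l : Fin n → List Bool, (∀ v, (l v).length ≤ c * Nat.log 2 n) ∧ Correct dec G l

/-- The class has an approximate adjacency labelling scheme with labels of length `O(log n)`:
for some `δ > 0` at most `O(n ^ (2 - δ))` ordered pairs of vertices may be decoded wrongly. -/
def ShortApprox (C : GraphClass) : Prop :=
  ∃ dec : List Bool → List Bool → Bool, Computable₂ dec ∧ ∃ (c : ℕ) (A δ : ℝ), 0 < δ ∧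
    ∀ n (G : SimpleGraph (Fin n)), C n G → ∃ l : Fin n → List Bool,
      (∀ v, (l v).length ≤ c * Nat.log 2 n) ∧ (errors dec G l : ℝ) ≤ A * (n : ℝ) ^ (2 - δ)

/-- Every vertex of a graph of the class may be replaced by many copies. -/
def BlowUp (C : GraphClass) : Prop :=
  ∀ (m N : ℕ) (f : Fin N → Fin m) (G : SimpleGraph (Fin m)), C m G →
    ∃ G' : SimpleGraph (Fin N), C N G' ∧ ∀ u v, f u ≠ f v → (G'.Adj u v ↔ G.Adj (f u) (f v))

/-- A general construction of blow ups. -/
lemma blowUp_of_rep {X : Type*} (rel : X → X → Prop) (hsymm : ∀ x y, rel x y → rel y x)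
    (ok : X → Prop) :
    BlowUp (fun n G => ∃ P : Fin n → X, (∀ v, ok (P v)) ∧ ∀ u v, G.Adj u v ↔
      u ≠ v ∧ rel (P u) (P v)) := by
  rintro m N f G ⟨P, hok, hP⟩
  refine ⟨{ Adj := fun u v => u ≠ v ∧ rel (P (f u)) (P (f v))
            symm := ⟨fun u v huv => ⟨huv.1.symm, hsymm _ _ huv.2⟩⟩
            loopless := ⟨fun u hu => hu.1 rfl⟩ },
    ⟨fun u => P (f u), fun v => hok _, fun u v => Iff.rfl⟩, fun u v huv => ?_⟩
  rw [hP]
  show (u ≠ v ∧ rel (P (f u)) (P (f v))) ↔ _
  exact ⟨fun h => ⟨huv, h.2⟩, fun h => ⟨fun hcon => huv (by rw [hcon]), h.2⟩⟩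

lemma blowUp_congr {C D : GraphClass} (h : ∀ n G, C n G ↔ D n G) (hC : BlowUp C) : BlowUp D := by
  intro m N f G hG
  obtain ⟨G', h1, h2⟩ := hC m N f G ((h m G).mpr hG)
  exact ⟨G', (h N G').mp h1, h2⟩

lemma blowUp_unit : BlowUp UnitDiskGraphs := by
  refine blowUp_congr (fun n G => ?_) (blowUp_of_rep Meet (fun x y h => (meet_comm x y).mp h)
    (fun _ => True))
  constructor
  · rintro ⟨P, -, h⟩
    exact ⟨P, h⟩
  · rintro ⟨P, h⟩
    exact ⟨P, fun _ => trivial, h⟩

lemma blowUp_disk : BlowUp DiskGraphs := by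
  refine blowUp_congr (fun n G => ?_) (blowUp_of_rep (X := E2 × ℝ)
    (fun x y => (closedBall x.1 x.2 ∩ closedBall y.1 y.2).Nonempty)
    (fun x y h => by rw [Set.inter_comm]; exact h) (fun x => 0 < x.2))
  constructor
  · rintro ⟨P, h1, h2⟩
    exact ⟨fun v => (P v).1, fun v => (P v).2, h1, h2⟩
  · rintro ⟨P, r, h1, h2⟩
    exact ⟨fun v => (P v, r v), h1, h2⟩

lemma blowUp_segment : BlowUp SegmentGraphs := by
  refine blowUp_congr (fun n G => ?_) (blowUp_of_rep (X := E2 × E2)
    (fun x y => (segment ℝ x.1 x.2 ∩ segment ℝ y.1 y.2).Nonempty)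
    (fun x y h => by rw [Set.inter_comm]; exact h) (fun _ => True))
  constructor
  · rintro ⟨P, -, h2⟩
    exact ⟨fun v => (P v).1, fun v => (P v).2, h2⟩
  · rintro ⟨A, B, h2⟩
    exact ⟨fun v => (A v, B v), fun _ => trivial, h2⟩

/-- **From few errors to none.** -/
theorem exact_of_errors {C : GraphClass} (hC : BlowUp C) (dec : List Bool → List Bool → Bool)
    (m M L : ℕ) (h : ∀ G : SimpleGraph (Fin (m * M)), C (m * M) G →
      ∃ l : Fin (m * M) → List Bool, (∀ v, (l v).length ≤ L) ∧ errors dec G l < M ^ 2)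
    (G : SimpleGraph (Fin m)) (hG : C m G) :
    ∃ l : Fin m → List Bool, (∀ v, (l v).length ≤ L) ∧ Correct dec G l := by
  classical
  obtain ⟨G', hG', hadj⟩ := hC m (m * M) (fun u => (finProdFinEquiv.symm u).1) G hG
  obtain ⟨l, hl1, hl2⟩ := h G' hG'
  obtain ⟨t, ht⟩ := exists_transversal (m := m) (M := M)
    (fun x y => ¬ (dec (l (finProdFinEquiv x)) (l (finProdFinEquiv y)) = true ↔
      G'.Adj (finProdFinEquiv x) (finProdFinEquiv y))) (by
      refine lt_of_le_of_lt ?_ hl2
      refine Set.ncard_le_ncard_of_injOn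
        (fun p : (Fin m × Fin M) × (Fin m × Fin M) => (finProdFinEquiv p.1, finProdFinEquiv p.2))
        ?_ ?_ (Set.toFinite _)
      · rintro ⟨x, y⟩ ⟨hne, hb⟩
        refine ⟨fun hcon => hne ?_, hb⟩
        exact congrArg Prod.fst (finProdFinEquiv.injective hcon)
      · rintro ⟨x, y⟩ _ ⟨x', y'⟩ _ heq
        simp only [Prod.mk.injEq, EmbeddingLike.apply_eq_iff_eq] at heq
        rw [heq.1, heq.2])
  refine ⟨fun i => l (finProdFinEquiv (i, t i)), fun i => hl1 _, fun i j hij => ?_⟩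
  have h1 := not_not.mp (ht i j hij)
  rw [h1, hadj _ _ (by simpa using hij)]
  simp

/-- **Approximate schemes give exact schemes.** -/
theorem short_of_approx {C : GraphClass} (hC : BlowUp C) (h : ShortApprox C) : Short C := by
  obtain ⟨dec, hdec, c, A, δ, hδ, hmain⟩ := h
  -- choose the exponent
  obtain ⟨q, hq⟩ : ∃ q : ℕ, A < 2 ^ q := by
    obtain ⟨q, hq⟩ := pow_unbounded_of_one_lt A (one_lt_two)
    exact ⟨q, hq⟩
  obtain ⟨K, hK⟩ : ∃ K : ℕ, (q : ℝ) + 2 < K * δ := by
    obtain ⟨K, hK⟩ := exists_nat_gt (((q : ℝ) + 2) / δ)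
    exact ⟨K, by rwa [div_lt_iff₀ hδ] at hK⟩
  have hK0 : K ≠ 0 := by
    rintro rfl
    have : (0 : ℝ) ≤ q := Nat.cast_nonneg q
    simp at hK
    linarith
  obtain ⟨k, rfl⟩ := Nat.exists_eq_succ_of_ne_zero hK0
  refine ⟨dec, hdec, c * (k + 1) * 2, fun m G hG => ?_⟩
  rcases Nat.lt_or_ge m 2 with hm | hm
  · refine ⟨fun _ => [], fun v => by simp, fun u v huv => ?_⟩
    exact absurd (Fin.ext (by omega)) huv
  · have hlog : 1 ≤ Nat.log 2 m := Nat.log_pos one_lt_two hm
    obtain ⟨l, hl1, hl2⟩ := exact_of_errors hC dec m (m ^ k) (c * Nat.log 2 (m * m ^ k))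
      (fun G' hG' => by
        obtain ⟨l, hl1, hl2⟩ := hmain _ G' hG'
        refine ⟨l, hl1, ?_⟩
        have hm0 : (0 : ℝ) < m := by exact_mod_cast (by omega : 0 < m)
        have hm2 : (2 : ℝ) ≤ m := by exact_mod_cast hm
        have hm1 : (1 : ℝ) ≤ m := by linarith
        have e1 : ((m * m ^ k : ℕ) : ℝ) ^ (2 - δ) = (m : ℝ) ^ (((k : ℝ) + 1) * (2 - δ)) := by
          have : ((m * m ^ k : ℕ) : ℝ) = (m : ℝ) ^ ((k : ℝ) + 1) := by
            rw [Real.rpow_add hm0, Real.rpow_natCast, Real.rpow_one]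
            push_cast
            ring
          rw [this, ← Real.rpow_mul hm0.le]
        have e2 : A * (m : ℝ) ^ (((k : ℝ) + 1) * (2 - δ)) < (m : ℝ) ^ (2 * (k : ℝ)) := by
          have hA : A < (m : ℝ) ^ (q : ℝ) := by
            rw [Real.rpow_natCast]
            exact lt_of_lt_of_le hq (pow_le_pow_left₀ (by norm_num) hm2 q)
          calc A * (m : ℝ) ^ (((k : ℝ) + 1) * (2 - δ))
              < (m : ℝ) ^ (q : ℝ) * (m : ℝ) ^ (((k : ℝ) + 1) * (2 - δ)) :=
                mul_lt_mul_of_pos_right hA (Real.rpow_pos_of_pos hm0 _)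
            _ = (m : ℝ) ^ ((q : ℝ) + ((k : ℝ) + 1) * (2 - δ)) := by rw [Real.rpow_add hm0]
            _ ≤ (m : ℝ) ^ (2 * (k : ℝ)) := by
                refine Real.rpow_le_rpow_of_exponent_le hm1 ?_
                push_cast at hK
                nlinarith
        have e3 : (m : ℝ) ^ (2 * (k : ℝ)) = (((m ^ k) ^ 2 : ℕ) : ℝ) := by
          rw [mul_comm, Real.rpow_mul hm0.le, Real.rpow_natCast]
          push_cast
          norm_num
        have e4 : (errors dec G' l : ℝ) < (((m ^ k) ^ 2 : ℕ) : ℝ) := by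
          rw [← e3]
          refine lt_of_le_of_lt hl2 ?_
          rw [e1]
          exact e2
        exact_mod_cast e4) G hG
    refine ⟨l, fun v => le_trans (hl1 v) ?_, hl2⟩
    have h1 : Nat.log 2 (m * m ^ k) ≤ (k + 1) * (2 * Nat.log 2 m) := by
      have h2 : m < 2 ^ (Nat.log 2 m + 1) := Nat.lt_pow_succ_log_self one_lt_two m
      have h3 : m * m ^ k < 2 ^ ((Nat.log 2 m + 1) * (k + 1)) := by
        rw [pow_mul, ← pow_succ']
        exact Nat.pow_lt_pow_left h2 (by omega)
      have h4 : Nat.log 2 (m * m ^ k) < (Nat.log 2 m + 1) * (k + 1) :=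
        Nat.log_lt_of_lt_pow (by positivity) h3
      nlinarith
    calc c * Nat.log 2 (m * m ^ k) ≤ c * ((k + 1) * (2 * Nat.log 2 m)) :=
          Nat.mul_le_mul_left _ h1
      _ = c * (k + 1) * 2 * Nat.log 2 m := by ring

lemma approx_of_short {C : GraphClass} (h : Short C) : ShortApprox C := by
  obtain ⟨dec, hdec, c, hmain⟩ := h
  refine ⟨dec, hdec, c, 0, 1, one_pos, fun n G hG => ?_⟩
  obtain ⟨l, h1, h2⟩ := hmain n G hG
  refine ⟨l, h1, ?_⟩
  have : errors dec G l = 0 := by
    unfold errors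
    have : {p : Fin n × Fin n | p.1 ≠ p.2 ∧ ¬ (dec (l p.1) (l p.2) = true ↔ G.Adj p.1 p.2)}
        = ∅ := by
      ext p
      simp only [Set.mem_ofPred_eq, Set.mem_empty_iff_false, iff_false, not_and, not_not]
      exact fun hne => h2 _ _ hne
    rw [this, Set.ncard_empty]
  rw [this]
  simp

end UDisk
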