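import Pool.Agent.Helper62.UD.Classes

/-!
Pairs of words and numbers inside words, with primitive recursive projections (helper file for
MP_c7897a_lc).
-/

namespace UDisk

/-- The pair of two words. -/
def pr (x y : List Bool) : List Bool := (x.flatMap fun b => [true, b]) ++ false :: y

lemma length_pr (x y : List Bool) : (pr x y).length = 2 * x.length + 1 + y.length := by
  unfold pr
  rw [List.length_append, List.length_cons]
  have : (x.flatMap fun b => [true, b]).length = 2 * x.length := by
    induction x with
    | nil => rfl
    | cons a t ih =>
      rw [List.flatMap_cons, List.length_append, ih, List.length_cons]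
      simp
      ring
  rw [this]
  ring

/-- One step of the decoder of pairs.  The state is: first word finished, data bit expected, first
word reversed, second word reversed. -/
def stp (s : (Bool × Bool) × (List Bool × List Bool)) (c : Bool) :
    (Bool × Bool) × (List Bool × List Bool) :=
  bif s.1.1 then ((true, false), (s.2.1, c :: s.2.2))
  else bif s.1.2 then ((false, false), (c :: s.2.1, s.2.2))
  else bif c then ((false, true), s.2)
  else ((true, false), s.2)

def run (z : List Bool) : (Bool × Bool) × (List Bool × List Bool) :=
  z.foldl stp ((false, false), ([], []))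

def pr1 (z : List Bool) : List Bool := (run z).2.1.reverse

def pr2 (z : List Bool) : List Bool := (run z).2.2.reverse

lemma run_first (x a b : List Bool) :
    (x.flatMap fun b => [true, b]).foldl stp ((false, false), (a, b))
      = ((false, false), (x.reverse ++ a, b)) := by
  induction x generalizing a with
  | nil => rfl
  | cons c t ih =>
    rw [List.flatMap_cons, List.foldl_append]
    have : [true, c].foldl stp ((false, false), (a, b)) = ((false, false), (c :: a, b)) := rfl
    rw [this, ih]
    simp

lemma run_second (y a b : List Bool) :
    y.foldl stp ((true, false), (a, b)) = ((true, false), (a, y.reverse ++ b)) := by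
  induction y generalizing b with
  | nil => rfl
  | cons c t ih =>
    rw [List.foldl_cons]
    have : stp ((true, false), (a, b)) c = ((true, false), (a, c :: b)) := rfl
    rw [this, ih]
    simp

lemma run_pr (x y : List Bool) : run (pr x y) = ((true, false), (x.reverse, y.reverse)) := by
  unfold run pr
  rw [List.foldl_append, run_first, List.foldl_cons]
  have : stp ((false, false), (x.reverse ++ [], [])) false
      = ((true, false), (x.reverse ++ [], [])) := rfl
  rw [this, run_second]
  simp

@[simp] lemma pr1_pr (x y : List Bool) : pr1 (pr x y) = x := by
  unfold pr1; rw [run_pr]; simp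

@[simp] lemma pr2_pr (x y : List Bool) : pr2 (pr x y) = y := by
  unfold pr2; rw [run_pr]; simp

lemma primrec_stp : Primrec₂ stp := by
  unfold stp
  have s : Primrec (fun p : ((Bool × Bool) × (List Bool × List Bool)) × Bool => p.1) :=
    Primrec.fst
  have c : Primrec (fun p : ((Bool × Bool) × (List Bool × List Bool)) × Bool => p.2) :=
    Primrec.snd
  have s11 := Primrec.fst.comp (Primrec.fst.comp s)
  have s12 := Primrec.snd.comp (Primrec.fst.comp s)
  have s2 := Primrec.snd.comp s
  have s21 := Primrec.fst.comp s2
  have s22 := Primrec.snd.comp s2
  exact Primrec.cond s11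
    (Primrec.pair (Primrec.const (true, false)) (Primrec.pair s21 (Primrec.list_cons.comp c s22)))
    (Primrec.cond s12
      (Primrec.pair (Primrec.const (false, false))
        (Primrec.pair (Primrec.list_cons.comp c s21) s22))
      (Primrec.cond c (Primrec.pair (Primrec.const (false, true)) s2)
        (Primrec.pair (Primrec.const (true, false)) s2)))

lemma primrec_run : Primrec run := by
  unfold run
  have h : Primrec₂ fun (_ : List Bool)
      (p : ((Bool × Bool) × (List Bool × List Bool)) × Bool) => stp p.1 p.2 :=
    primrec_stp.comp (Primrec.fst.comp Primrec.snd) (Primrec.snd.comp Primrec.snd)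
  exact Primrec.list_foldl Primrec.id (Primrec.const ((false, false), ([], []))) h

lemma primrec_pr1 : Primrec pr1 :=
  Primrec.list_reverse.comp (Primrec.fst.comp (Primrec.snd.comp primrec_run))

lemma primrec_pr2 : Primrec pr2 :=
  Primrec.list_reverse.comp (Primrec.snd.comp (Primrec.snd.comp primrec_run))

/-- The number written in a word. -/
def num (x : List Bool) : ℕ := x.foldl (fun a b => 2 * a + bif b then 1 else 0) 0

lemma primrec_num : Primrec num := by
  unfold num
  have h : Primrec₂ fun (_ : List Bool) (p : ℕ × Bool) => 2 * p.1 + bif p.2 then 1 else 0 := by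
    refine Primrec.nat_add.comp ?_ ?_
    · exact Primrec.nat_mul.comp (Primrec.const 2) (Primrec.fst.comp Primrec.snd)
    · exact Primrec.cond (Primrec.snd.comp Primrec.snd) (Primrec.const 1) (Primrec.const 0)
  exact Primrec.list_foldl Primrec.id (Primrec.const 0) h

lemma exists_num (L k : ℕ) (h : k < 2 ^ L) : ∃ x : List Bool, x.length = L ∧ num x = k := by
  induction L generalizing k with
  | zero =>
    have : k = 0 := by simpa using h
    exact ⟨[], rfl, by rw [this]; rfl⟩
  | succ L ih =>
    obtain ⟨x, hx1, hx2⟩ := ih (k / 2) (by rw [pow_succ] at h; omega)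
    refine ⟨x ++ [decide (k % 2 = 1)], by simp [hx1], ?_⟩
    unfold num at hx2 ⊢
    rw [List.foldl_append, hx2]
    simp only [List.foldl_cons, List.foldl_nil]
    rcases Nat.mod_two_eq_zero_or_one k with h0 | h0
    · simp [h0]; omega
    · simp [h0]; omega

/-- Rank of a value in a finite family. -/
noncomputable def rank {ι β : Type*} [Fintype ι] [LinearOrder β] (f : ι → β) (x : β) : ℕ :=
  (Finset.univ.filter fun i => f i < x).card

lemma rank_le_iff {ι β : Type*} [Fintype ι] [LinearOrder β] (f : ι → β) (i j : ι) :
    rank f (f i) ≤ rank f (f j) ↔ f i ≤ f j := by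
  constructor
  · intro h
    by_contra hcon
    push Not at hcon
    have : rank f (f j) < rank f (f i) := by
      refine Finset.card_lt_card ?_
      refine ⟨fun k hk => ?_, fun hsub => ?_⟩
      · simp only [Finset.mem_filter, Finset.mem_univ, true_and] at hk ⊢
        exact lt_trans hk hcon
      · have : j ∈ Finset.univ.filter fun k => f k < f j := hsub (by simpa using hcon)
        simp at this
    omega
  · intro h
    refine Finset.card_le_card fun k hk => ?_
    simp only [Finset.mem_filter, Finset.mem_univ, true_and] at hk ⊢
    exact lt_of_lt_of_le hk h

lemma rank_eq_iff {ι β : Type*} [Fintype ι] [LinearOrder β] (f : ι → β) (i j : ι) :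
    rank f (f i) = rank f (f j) ↔ f i = f j := by
  constructor
  · intro h
    exact le_antisymm ((rank_le_iff f i j).mp h.le) ((rank_le_iff f j i).mp h.ge)
  · intro h
    rw [h]

lemma rank_le_card {ι β : Type*} [Fintype ι] [LinearOrder β] (f : ι → β) (x : β) :
    rank f x ≤ Fintype.card ι := Finset.card_le_univ _

end UDisk
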