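import Pool.Agent.Helper62.UD.Look

/-!
Labels for segment graphs from proper colourings (helper file for MP_c7897a_lc).
-/

namespace UDisk

/-- Labels for graphs of crossing pieces. -/
theorem piece_labels {n : ℕ} (hn : 2 ≤ n) (P : Fin n → Piece) (G : SimpleGraph (Fin n))
    (hG : ∀ u v, G.Adj u v ↔ u ≠ v ∧ Piece.Cross (P u) (P v)) (κ : Fin n → ℕ)
    (hκ : ∀ u v, G.Adj u v → κ u ≠ κ v) (t : ℕ) (ht : ∀ v, (κ '' G.neighborSet v).ncard ≤ t) :
    ∃ l : Fin n → List Bool, (∀ v, (l v).length ≤ 65 * (t + 1) * Nat.log 2 n) ∧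
      Correct colD G l := by
  classical
  set L := Nat.log 2 n with hL
  have hL1 : 1 ≤ L := Nat.log_pos one_lt_two hn
  have hnL : n < 2 ^ (L + 1) := Nat.lt_pow_succ_log_self one_lt_two n
  -- colour classes
  set K : ℕ → Finset (Fin n) := fun i => Finset.univ.filter fun v => κ v = i with hK
  have hdisj : ∀ i, ∀ u ∈ K i, ∀ v ∈ K i, u ≠ v → ¬ Piece.Cross (P u) (P v) := by
    intro i u hu v hv huv hc
    simp only [hK, Finset.mem_filter, Finset.mem_univ, true_and] at hu hv
    exact hκ u v ((hG u v).mpr ⟨huv, hc⟩) (by rw [hu, hv])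
  choose ρc hρc using fun i => exists_order P (K i) (hdisj i)
  choose th hth using fun (i : ℕ) (x y : ℝ) => exists_threshold P (K i) (ρc i) (hρc i) (hdisj i) x y
  set ρ : Fin n → ℝ := fun v => ρc (κ v) v with hρ
  set ex : Fin n → Bool → ℝ := fun v b => bif b then (P v).hi else (P v).lo with hex
  set θ : ℕ → Fin n → Bool → ℝ := fun i v b => th i (ex v b) ((P v).f (ex v b)) with hθ
  have hthr : ∀ (u v : Fin n) (b : Bool), (P u).On (ex v b) →
      ((P u).f (ex v b) ≤ (P v).f (ex v b) ↔ ρ u ≤ θ (κ u) v b) ∧
      ((P v).f (ex v b) ≤ (P u).f (ex v b) ↔ θ (κ u) v b ≤ ρ u) := by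
    intro u v b hu
    exact hth (κ u) (ex v b) ((P v).f (ex v b)) u (by simp [hK]) hu
  -- numbers
  set val : Fin n ⊕ (Fin n × Fin n × Bool) → ℝ :=
    Sum.elim ρ (fun x => θ (κ x.1) x.2.1 x.2.2) with hval
  set xs : Fin n × Bool → ℝ := fun x => ex x.1 x.2 with hxs
  have hb1 : ∀ i : ℕ, rank κ i < 2 ^ (2 * L + 4) := by
    intro i
    have h1 := rank_le_card κ i
    rw [Fintype.card_fin] at h1
    have h2 : (2 : ℕ) ^ (L + 1) ≤ 2 ^ (2 * L + 4) := Nat.pow_le_pow_right (by norm_num) (by omega)
    omega
  have hb2 : ∀ r : ℝ, rank xs r < 2 ^ (2 * L + 4) := by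
    intro r
    have h1 := rank_le_card xs r
    simp only [Fintype.card_prod, Fintype.card_fin, Fintype.card_bool] at h1
    have h2 : (2 : ℕ) ^ (L + 2) ≤ 2 ^ (2 * L + 4) := Nat.pow_le_pow_right (by norm_num) (by omega)
    have h3 : (2 : ℕ) ^ (L + 2) = 2 * 2 ^ (L + 1) := by ring
    omega
  have hb3 : ∀ r : ℝ, rank val r < 2 ^ (2 * L + 4) := by
    intro r
    have h1 := rank_le_card val r
    simp only [Fintype.card_sum, Fintype.card_prod, Fintype.card_fin, Fintype.card_bool] at h1
    have h3 : (2 : ℕ) ^ (2 * L + 4) = 4 * (2 ^ (L + 1) * 2 ^ (L + 1)) := by ring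
    have h4 : n * n < 2 ^ (L + 1) * 2 ^ (L + 1) := Nat.mul_self_lt_mul_self hnL
    have h5 : n ≤ n * n := Nat.le_mul_self n
    have h6 : n * (n * 2) = 2 * (n * n) := by ring
    rw [h6] at h1
    omega
  choose wc hwc1 hwc2 using fun i => exists_num (2 * L + 4) _ (hb1 i)
  choose wx hwx1 hwx2 using fun x : Fin n × Bool => exists_num (2 * L + 4) _ (hb2 (xs x))
  choose wr hwr1 hwr2 using fun r => exists_num (2 * L + 4) _ (hb3 r)
  set S : Fin n → Finset ℕ := fun v => (Finset.univ.filter fun u => G.Adj v u).image κ with hS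
  have hScard : ∀ v, (S v).card ≤ t := by
    intro v
    have h1 : κ '' G.neighborSet v = (S v : Set ℕ) := by
      ext i
      simp [hS, SimpleGraph.mem_neighborSet]
    have h2 := ht v
    rw [h1, Set.ncard_coe_finset] at h2
    exact h2
  set entry : ℕ → Fin n → List Bool := fun i v =>
    pr (wc i) (pr (wr (θ i v false)) (wr (θ i v true))) with hentry
  set es : Fin n → List (List Bool) := fun v => (S v).toList.map fun i => entry i v with hes
  have hesne : ∀ v, ∀ e ∈ es v, e ≠ [] := by
    intro v e he
    simp only [hes, List.mem_map] at he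
    obtain ⟨i, _, rfl⟩ := he
    exact pr_ne_nil _ _
  have hnum1 : ∀ i v, num (pr1 (entry i v)) = rank κ i := by
    intro i v
    rw [hentry]; simp only [pr1_pr, hwc2]
  have hmemS : ∀ v i, i ∈ S v → ∃ w, κ w = i := by
    intro v i hi
    simp only [hS, Finset.mem_image, Finset.mem_filter, Finset.mem_univ, true_and] at hi
    obtain ⟨w, _, hw⟩ := hi
    exact ⟨w, hw⟩
  have hfound : ∀ u v, κ u ∈ S v → look (rank κ (κ u)) (encL (es v)) = entry (κ u) v := by
    intro u v huv
    refine look_found _ _ (hesne v) _ ?_ (hnum1 _ _) ?_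
    · simp only [hes, List.mem_map, Finset.mem_toList]
      exact ⟨κ u, huv, rfl⟩
    · intro e' he' hnum
      simp only [hes, List.mem_map, Finset.mem_toList] at he'
      obtain ⟨i, hi, rfl⟩ := he'
      obtain ⟨w, rfl⟩ := hmemS v i hi
      rw [hnum1, rank_eq_iff] at hnum
      rw [hnum]
  have hnot : ∀ u v, κ u ∉ S v → look (rank κ (κ u)) (encL (es v)) = [] := by
    intro u v huv
    refine look_notFound _ _ (hesne v) ?_
    intro e' he' hnum
    simp only [hes, List.mem_map, Finset.mem_toList] at he'
    obtain ⟨i, hi, rfl⟩ := he'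
    obtain ⟨w, rfl⟩ := hmemS v i hi
    rw [hnum1, rank_eq_iff] at hnum
    rw [hnum] at hi
    exact huv hi
  refine ⟨fun v => pr (wc (κ v)) (pr (wx (v, false)) (pr (wx (v, true)) (pr (wr (ρ v))
    (encL (es v))))), fun v => ?_, fun u v huv => ?_⟩
  · -- length
    simp only [length_pr, hwc1, hwx1, hwr1]
    have h1 : (encL (es v)).length ≤ (es v).length * (2 * (5 * (2 * L + 4) + 2) + 1) := by
      refine length_encL _ _ fun e he => ?_
      simp only [hes, List.mem_map] at he
      obtain ⟨i, _, rfl⟩ := he
      simp only [hentry, length_pr, hwc1, hwr1]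
      omega
    have h2 : (es v).length ≤ t := by
      simp only [hes, List.length_map, Finset.length_toList]
      exact hScard v
    have h3 : (es v).length * (2 * (5 * (2 * L + 4) + 2) + 1)
        ≤ t * (2 * (5 * (2 * L + 4) + 2) + 1) := Nat.mul_le_mul_right _ h2
    have h4 : t * (2 * (5 * (2 * L + 4) + 2) + 1) ≤ t * (65 * L) :=
      Nat.mul_le_mul_left _ (by omega)
    have h5 : 65 * (t + 1) * L = t * (65 * L) + 65 * L := by ring
    rw [h5]
    omega
  · -- correctness
    have hcross := Piece.cross_iff (P u) (P v)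
    rw [hG u v]
    -- the entries
    have hmemadj : ∀ a b : Fin n, G.Adj a b → κ b ∈ S a := by
      intro a b hab
      simp only [hS, Finset.mem_image, Finset.mem_filter, Finset.mem_univ, true_and]
      exact ⟨b, hab, rfl⟩
    simp only [colD]
    have eg1 : ∀ w : Fin n, g1 (pr (wc (κ w)) (pr (wx (w, false)) (pr (wx (w, true))
        (pr (wr (ρ w)) (encL (es w)))))) = wc (κ w) := by intro w; simp [g1]
    have eg2 : ∀ w : Fin n, g2 (pr (wc (κ w)) (pr (wx (w, false)) (pr (wx (w, true))
        (pr (wr (ρ w)) (encL (es w)))))) = wx (w, false) := by intro w; simp [g2]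
    have eg3 : ∀ w : Fin n, g3 (pr (wc (κ w)) (pr (wx (w, false)) (pr (wx (w, true))
        (pr (wr (ρ w)) (encL (es w)))))) = wx (w, true) := by intro w; simp [g3]
    have eg4 : ∀ w : Fin n, g4 (pr (wc (κ w)) (pr (wx (w, false)) (pr (wx (w, true))
        (pr (wr (ρ w)) (encL (es w)))))) = wr (ρ w) := by intro w; simp [g4]
    have eg5 : ∀ w : Fin n, g5 (pr (wc (κ w)) (pr (wx (w, false)) (pr (wx (w, true))
        (pr (wr (ρ w)) (encL (es w)))))) = encL (es w) := by intro w; simp [g5]
    rw [eg1, eg1, eg5, eg5, hwc2, hwc2]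
    by_cases h1 : κ v ∈ S u
    · by_cases h2 : κ u ∈ S v
      · rw [hfound v u h1, hfound u v h2]
        have ne1 : entry (κ v) u ≠ [] := pr_ne_nil _ _
        have ne2 : entry (κ u) v ≠ [] := pr_ne_nil _ _
        simp only [ne1, ne2, decide_false, Bool.not_false, Bool.true_and]
        have htest : testD (pr (wc (κ u)) (pr (wx (u, false)) (pr (wx (u, true))
            (pr (wr (ρ u)) (encL (es u)))))) (pr (wc (κ v)) (pr (wx (v, false)) (pr (wx (v, true))
            (pr (wr (ρ v)) (encL (es v)))))) (entry (κ v) u) (entry (κ u) v) = true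
            ↔ Piece.Cross (P u) (P v) := by
          unfold testD
          rw [eg2, eg2, eg3, eg3, eg4, eg4]
          simp only [hentry, pr1_pr, pr2_pr, hwx2, hwr2]
          have rx : ∀ a b, (rank xs (xs a) ≤ rank xs (xs b) ↔ xs a ≤ xs b) := rank_le_iff xs
          have r1 : ∀ (a b c : Fin n) (s : Bool), (rank val (ρ a) ≤ rank val (θ (κ b) c s)
              ↔ ρ a ≤ θ (κ b) c s) := fun a b c s => rank_le_iff val (Sum.inl a) (Sum.inr (b, c, s))
          have r2 : ∀ (a b c : Fin n) (s : Bool), (rank val (θ (κ b) c s) ≤ rank val (ρ a)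
              ↔ θ (κ b) c s ≤ ρ a) := fun a b c s => rank_le_iff val (Sum.inr (b, c, s)) (Sum.inl a)
          have xl : ∀ w, xs (w, false) = (P w).lo := fun w => rfl
          have xh : ∀ w, xs (w, true) = (P w).hi := fun w => rfl
          simp only [Bool.and_eq_true, Bool.or_eq_true, decide_eq_true_eq, rx]
          simp only [xl, xh]
          rw [hcross]
          have hov : ((P u).lo ≤ (P v).hi ∧ (P v).lo ≤ (P u).hi) ↔
              max (P u).lo (P v).lo ≤ min (P u).hi (P v).hi := by
            have := (P u).le
            have := (P v).le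
            simp only [max_le_iff, le_min_iff]
            tauto
          rw [hov]
          refine and_congr_right fun hmm => ?_
          have hu1 : (P u).lo ≤ (P v).hi := le_trans (le_max_left _ _)
            (le_trans hmm (min_le_right _ _))
          have hv1 : (P v).lo ≤ (P u).hi := le_trans (le_max_right _ _)
            (le_trans hmm (min_le_left _ _))
          -- the left end
          have left1 : ((bif decide ((P u).lo ≤ (P v).lo) then
              decide (rank val (ρ u) ≤ rank val (θ (κ u) v false))
              else decide (rank val (θ (κ v) u false) ≤ rank val (ρ v))) = true)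
              ↔ (P u).f (max (P u).lo (P v).lo) ≤ (P v).f (max (P u).lo (P v).lo) := by
            by_cases hc : (P u).lo ≤ (P v).lo
            · rw [max_eq_right hc]
              simp only [hc, decide_true, cond_true, decide_eq_true_eq, r1]
              exact (hthr u v false ⟨hc, hv1⟩).1.symm
            · rw [max_eq_left (le_of_not_ge hc)]
              simp only [hc, decide_false, cond_false, decide_eq_true_eq, r2]
              exact (hthr v u false ⟨le_of_not_ge hc, hu1⟩).2.symm
          have left2 : ((bif decide ((P u).lo ≤ (P v).lo) then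
              decide (rank val (θ (κ u) v false) ≤ rank val (ρ u))
              else decide (rank val (ρ v) ≤ rank val (θ (κ v) u false))) = true)
              ↔ (P v).f (max (P u).lo (P v).lo) ≤ (P u).f (max (P u).lo (P v).lo) := by
            by_cases hc : (P u).lo ≤ (P v).lo
            · rw [max_eq_right hc]
              simp only [hc, decide_true, cond_true, decide_eq_true_eq, r2]
              exact (hthr u v false ⟨hc, hv1⟩).2.symm
            · rw [max_eq_left (le_of_not_ge hc)]
              simp only [hc, decide_false, cond_false, decide_eq_true_eq, r1]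
              exact (hthr v u false ⟨le_of_not_ge hc, hu1⟩).1.symm
          have right1 : ((bif decide ((P v).hi ≤ (P u).hi) then
              decide (rank val (θ (κ u) v true) ≤ rank val (ρ u))
              else decide (rank val (ρ v) ≤ rank val (θ (κ v) u true))) = true)
              ↔ (P v).f (min (P u).hi (P v).hi) ≤ (P u).f (min (P u).hi (P v).hi) := by
            by_cases hc : (P v).hi ≤ (P u).hi
            · rw [min_eq_right hc]
              simp only [hc, decide_true, cond_true, decide_eq_true_eq, r2]
              exact (hthr u v true ⟨hu1, hc⟩).2.symm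
            · rw [min_eq_left (le_of_not_ge hc)]
              simp only [hc, decide_false, cond_false, decide_eq_true_eq, r1]
              exact (hthr v u true ⟨hv1, le_of_not_ge hc⟩).1.symm
          have right2 : ((bif decide ((P v).hi ≤ (P u).hi) then
              decide (rank val (ρ u) ≤ rank val (θ (κ u) v true))
              else decide (rank val (θ (κ v) u true) ≤ rank val (ρ v))) = true)
              ↔ (P u).f (min (P u).hi (P v).hi) ≤ (P v).f (min (P u).hi (P v).hi) := by
            by_cases hc : (P v).hi ≤ (P u).hi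
            · rw [min_eq_right hc]
              simp only [hc, decide_true, cond_true, decide_eq_true_eq, r1]
              exact (hthr u v true ⟨hu1, hc⟩).1.symm
            · rw [min_eq_left (le_of_not_ge hc)]
              simp only [hc, decide_false, cond_false, decide_eq_true_eq, r2]
              exact (hthr v u true ⟨hv1, le_of_not_ge hc⟩).2.symm
          rw [left1, left2, right1, right2]
        rw [htest]
        exact ⟨fun h => ⟨huv, h⟩, fun h => h.2⟩
      · rw [hnot u v h2]
        simp only [decide_true, Bool.not_true, Bool.and_false, Bool.false_and,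
          Bool.false_eq_true, false_iff]
        exact fun h => h2 (hmemadj v u ((hG u v).mpr h).symm)
    · rw [hnot v u h1]
      simp only [decide_true, Bool.not_true, Bool.false_and, Bool.false_eq_true, false_iff]
      exact fun h => h1 (hmemadj u v ((hG u v).mpr h))

/-- **Labels for segment graphs.** -/
theorem segment_labels {n : ℕ} (hn : 2 ≤ n) (G : SimpleGraph (Fin n)) (hG : SegmentGraphs n G)
    (κ : Fin n → ℕ) (hκ : ∀ u v, G.Adj u v → κ u ≠ κ v) (t : ℕ)
    (ht : ∀ v, (κ '' G.neighborSet v).ncard ≤ t) :
    ∃ l : Fin n → List Bool, (∀ v, (l v).length ≤ 65 * (t + 1) * Nat.log 2 n) ∧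
      Correct colD G l := by
  obtain ⟨A, B, hadj⟩ := hG
  obtain ⟨s, hs⟩ := exists_dir A B
  refine piece_labels hn (fun v => pieceOf s (A v) (B v)) G (fun u v => ?_) κ hκ t ht
  rw [hadj, segments_meet_iff s _ _ _ _ (hs u) (hs v)]

end UDisk
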