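import Mathlib

/-!
Unit disks in the plane, and the realisation of finite point and half-plane patterns by unit
disks (helper file for MP_c7897a_lc).
-/

open Metric

namespace UDisk

/-- The Euclidean plane. -/
abbrev E2 := EuclideanSpace ℝ (Fin 2)

/-- The closed disks of radius one with centres `p` and `q` meet. -/
def Meet (p q : E2) : Prop := (closedBall p 1 ∩ closedBall q 1).Nonempty

/-- Intersection graphs of closed disks of radius one, one disk for each vertex. -/
def IsUnitDisk {V : Type*} (G : SimpleGraph V) : Prop :=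
  ∃ P : V → E2, ∀ u v, G.Adj u v ↔ u ≠ v ∧ Meet (P u) (P v)

lemma meet_iff (p q : E2) : Meet p q ↔ dist p q ≤ 2 := by
  unfold Meet
  constructor
  · rintro ⟨x, hx1, hx2⟩
    rw [mem_closedBall] at hx1 hx2
    calc dist p q ≤ dist p x + dist x q := dist_triangle _ _ _
      _ ≤ 1 + 1 := by rw [dist_comm p x]; exact add_le_add hx1 hx2
      _ = 2 := by norm_num
  · intro h
    obtain ⟨y, hy1, hy2⟩ := exists_dist_le_le (zero_le_one) (zero_le_one)
      (show dist p q ≤ 1 + 1 by linarith)
    exact ⟨y, by rw [mem_closedBall, dist_comm]; exact hy1, by rw [mem_closedBall]; exact hy2⟩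

lemma meet_iff_sq (p q : E2) : Meet p q ↔ (p 0 - q 0) ^ 2 + (p 1 - q 1) ^ 2 ≤ 4 := by
  rw [meet_iff, EuclideanSpace.dist_eq, Fin.sum_univ_two, Real.sqrt_le_left (by norm_num)]
  simp only [Real.dist_eq, sq_abs]
  norm_num

lemma meet_comm (p q : E2) : Meet p q ↔ Meet q p := by
  unfold Meet
  rw [Set.inter_comm]

lemma meet_self (p : E2) : Meet p p := by
  rw [meet_iff]; simp

/-- A finite family of reals has a positive gap above zero. -/
lemma exists_gap {ι : Type*} [Fintype ι] (g : ι → ℝ) : ∃ ξ : ℝ, 0 < ξ ∧ ∀ i, 0 < g i → ξ ≤ g i := by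
  classical
  by_cases hne : (Finset.univ.filter fun i => 0 < g i).Nonempty
  · obtain ⟨i0, hi0, hmin⟩ := (Finset.univ.filter fun i => 0 < g i).exists_min_image g hne
    refine ⟨g i0, by simpa using hi0, fun i hi => hmin i (by simpa using hi)⟩
  · refine ⟨1, one_pos, fun i hi => absurd ⟨i, ?_⟩ hne⟩
    simpa using hi

lemma exists_bound {ι : Type*} [Fintype ι] (g : ι → ℝ) : ∃ B : ℝ, 0 < B ∧ ∀ i, |g i| ≤ B := by
  refine ⟨(∑ i, |g i|) + 1, ?_, fun i => ?_⟩
  · have := Finset.sum_nonneg (fun i (_ : i ∈ Finset.univ) => abs_nonneg (g i))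
    linarith
  · have := Finset.single_le_sum (f := fun i => |g i|) (fun i _ => abs_nonneg (g i))
      (Finset.mem_univ i)
    linarith

/-- Finite patterns of points and open half-planes are realised by unit disks. -/
theorem exists_disks {V J : Type*} [Fintype V] [Fintype J] (px py : V → ℝ) (nx ny h : J → ℝ)
    (hn : ∀ j, nx j ≠ 0 ∨ ny j ≠ 0) :
    ∃ (R : V → E2) (Q : J → E2), ∀ v j,
      (Meet (R v) (Q j) ↔ h j < nx j * px v + ny j * py v) := by
  -- normalise
  set r : J → ℝ := fun j => Real.sqrt (nx j ^ 2 + ny j ^ 2) with hr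
  have hpos : ∀ j, 0 < nx j ^ 2 + ny j ^ 2 := by
    intro j
    rcases hn j with h1 | h1
    · have := sq_pos_of_ne_zero h1
      have := sq_nonneg (ny j)
      linarith [sq_pos_of_ne_zero h1]
    · have := sq_nonneg (nx j)
      linarith [sq_pos_of_ne_zero h1]
  have hr0 : ∀ j, 0 < r j := fun j => Real.sqrt_pos.mpr (hpos j)
  have hr2 : ∀ j, r j ^ 2 = nx j ^ 2 + ny j ^ 2 := fun j => Real.sq_sqrt (hpos j).le
  set a : J → ℝ := fun j => nx j / r j with ha
  set b : J → ℝ := fun j => ny j / r j with hb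
  set k : J → ℝ := fun j => h j / r j with hk
  have hab : ∀ j, a j ^ 2 + b j ^ 2 = 1 := by
    intro j
    have := (hr0 j).ne'
    simp only [ha, hb]
    field_simp
    linarith [hr2 j]
  have hiff : ∀ v j, (h j < nx j * px v + ny j * py v ↔ 0 < a j * px v + b j * py v - k j) := by
    intro v j
    have h0 := hr0 j
    have : a j * px v + b j * py v - k j = (nx j * px v + ny j * py v - h j) / r j := by
      simp only [ha, hb, hk]
      ring
    rw [this]
    constructor
    · intro h1
      exact div_pos (by linarith) h0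
    · intro h1
      have := (div_pos_iff_of_pos_right h0).mp h1
      linarith
  obtain ⟨ξ, hξ, hgap⟩ := exists_gap (fun x : V × J => a x.2 * px x.1 + b x.2 * py x.1 - k x.2)
  set k' : J → ℝ := fun j => k j + ξ / 2 with hk'
  obtain ⟨B, hB, hbd⟩ := exists_bound (fun x : V × J =>
    px x.1 ^ 2 + py x.1 ^ 2 - 2 * k' x.2 * (a x.2 * px x.1 + b x.2 * py x.1) + k' x.2 ^ 2)
  set η : ℝ := ξ / B with hη
  have hη0 : 0 < η := div_pos hξ hB
  have hηB : η * B = ξ := by rw [hη]; field_simp
  refine ⟨fun v => !₂[η * px v, η * py v],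
    fun j => !₂[(2 + η * k' j) * a j, (2 + η * k' j) * b j], fun v j => ?_⟩
  rw [meet_iff_sq, hiff]
  simp only [Matrix.cons_val_zero, Matrix.cons_val_one, Matrix.cons_val_fin_one]
  have hb1 := hbd (v, j)
  simp only at hb1
  set T : ℝ := px v ^ 2 + py v ^ 2 - 2 * k' j * (a j * px v + b j * py v) + k' j ^ 2 with hT
  have key : (η * px v - (2 + η * k' j) * a j) ^ 2 + (η * py v - (2 + η * k' j) * b j) ^ 2
      = 4 + 4 * η * (k' j - (a j * px v + b j * py v)) + η ^ 2 * T := by
    have := hab j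
    rw [hT]
    linear_combination ((2 + η * k' j) ^ 2) * this
  rw [key]
  have hT1 : η ^ 2 * T ≤ η * ξ := by
    have : T ≤ B := (abs_le.mp hb1).2
    have h2 : η ^ 2 * T ≤ η ^ 2 * B := mul_le_mul_of_nonneg_left this (sq_nonneg _)
    calc η ^ 2 * T ≤ η ^ 2 * B := h2
      _ = η * ξ := by rw [← hηB]; ring
  have hT2 : - (η * ξ) ≤ η ^ 2 * T := by
    have : -B ≤ T := (abs_le.mp hb1).1
    have h2 : η ^ 2 * (-B) ≤ η ^ 2 * T := mul_le_mul_of_nonneg_left this (sq_nonneg _)
    calc - (η * ξ) = η ^ 2 * (-B) := by rw [← hηB]; ring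
      _ ≤ η ^ 2 * T := h2
  have hηξ : 0 < η * ξ := mul_pos hη0 hξ
  constructor
  · intro h1
    by_contra hcon
    push Not at hcon
    have : ξ / 2 ≤ k' j - (a j * px v + b j * py v) := by simp only [hk']; linarith
    have h3 : η * (ξ / 2) ≤ η * (k' j - (a j * px v + b j * py v)) :=
      mul_le_mul_of_nonneg_left this hη0.le
    linarith
  · intro h1
    have h2 := hgap (v, j) h1
    simp only at h2
    have : k' j - (a j * px v + b j * py v) ≤ - (ξ / 2) := by simp only [hk']; linarith
    have h3 : η * (k' j - (a j * px v + b j * py v)) ≤ η * (- (ξ / 2)) :=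
      mul_le_mul_of_nonneg_left this hη0.le
    linarith

end UDisk
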