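import Pool.Agent.Helper62.UD.Bary

/-!
Unit disk patterns forcing comparisons between web coordinates (helper file for MP_c7897a_lc).
-/

namespace UDisk

/-- The set cut off by the line with index `(i, b)`. -/
def cutSet (i : Fin 3) (b : Bool) : Finset (Fin 3) := if b then {i} else {i}ᶜ

lemma cutSet_ne (i : Fin 3) (b : Bool) : cutSet i b ≠ Finset.univ := by
  revert i b; decide

lemma cutSet_nonempty (i : Fin 3) (b : Bool) : (cutSet i b).Nonempty := by
  revert i b; decide

lemma exists_cutSet (T : Finset (Fin 3)) (h1 : T.Nonempty) (h2 : T ≠ Finset.univ) :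
    ∃ i b, cutSet i b = T := by
  revert T; decide

/-- The points of the pattern. -/
abbrev PPt (W : Type) := Fin 3 ⊕ W

/-- The lines of the pattern. -/
abbrev PLn (W J : Type) := (W × Fin 3 × Bool) ⊕ (J × Bool)

/-- The vertices of the disk pattern. -/
abbrev PVert (W J : Type) := PPt W ⊕ (PLn W J × Bool)

/-- What is forced: comparisons between web coordinates. -/
def Forced {W J : Type} (ck : J → Fin 3) (cl cr : J → W) (P : PPt W → E2) : Prop :=
  (∀ w, web (fun i => P (Sum.inl i)) (P (Sum.inr w)) 0
      + web (fun i => P (Sum.inl i)) (P (Sum.inr w)) 1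
      + web (fun i => P (Sum.inl i)) (P (Sum.inr w)) 2 = 0) ∧
  ∀ j, web (fun i => P (Sum.inl i)) (P (Sum.inr (cl j))) (ck j)
    < web (fun i => P (Sum.inl i)) (P (Sum.inr (cr j))) (ck j)

/-- **Forcing theorem.**  Strict comparisons between web coordinates of finitely many points are
forced by the sides of finitely many lines on which the points lie. -/
theorem forcing_core {W J : Type} [Fintype W] [Nonempty W]
    (ck : J → Fin 3) (cl cr : J → W) (L : Fin 3 → W → ℝ)
    (hL : ∀ w, L 0 w + L 1 w + L 2 w = 0) (hc : ∀ j, L (ck j) (cl j) < L (ck j) (cr j)) :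
    ∃ (px py : PPt W → ℝ) (A B C : PLn W J → ℝ), (∀ l, A l ≠ 0 ∨ B l ≠ 0) ∧
      ∀ (P : PPt W → E2) (c : PLn W J → Fin 3 → ℝ),
        (∀ l v, 0 < A l * px v + B l * py v + C l → 0 < aff (c l) (P v)) →
        (∀ l v, A l * px v + B l * py v + C l < 0 → aff (c l) (P v) < 0) →
        Forced ck cl cr P := by
  classical
  -- the model
  set a : W → Fin 3 → ℝ := fun w => ![Real.exp (-L 1 w), Real.exp (L 0 w), 1] with ha
  have hapos : ∀ w i, 0 < a w i := by
    intro w i
    fin_cases i
    · exact Real.exp_pos _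
    · exact Real.exp_pos _
    · exact one_pos
  have hratio : ∀ w k, a w (k + 1) / a w (k + 2) = Real.exp (L k w) := by
    intro w k
    fin_cases k
    · show Real.exp (L 0 w) / 1 = _
      simp
    · show 1 / Real.exp (-L 1 w) = Real.exp (L 1 w)
      rw [Real.exp_neg]; simp
    · show Real.exp (-L 1 w) / Real.exp (L 0 w) = Real.exp (L 2 w)
      rw [← Real.exp_sub]
      congr 1
      linarith [hL w]
  -- functionals of the first kind
  choose f1 hf1a hf1b hf1c using fun (x : W × Fin 3 × Bool) =>
    exists_cut (a x.1) (hapos x.1) (cutSet x.2.1 x.2.2) (cutSet_ne _ _)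
  -- functionals of the second kind
  choose f2 hf2a hf2b hf2c hf2d using fun (x : J × Bool) =>
    exists_sep (ck x.1) (a (cl x.1)) (a (cr x.1)) (hapos _) (hapos _)
      (by rw [hratio, hratio]; exact Real.exp_lt_exp.mpr (hc x.1)) (if x.2 then 1 else -1)
  set F : PLn W J → Fin 3 → ℝ := Sum.elim f1 f2 with hF
  have hnc : ∀ l, F l 0 - F l 2 ≠ 0 ∨ F l 1 - F l 2 ≠ 0 := by
    intro l
    by_contra hcon
    push Not at hcon
    have h0 : F l 0 = F l 2 := by linarith [hcon.1]
    have h1 : F l 1 = F l 2 := by linarith [hcon.2]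
    have hall : ∀ i, F l i = F l 2 := by
      intro i; fin_cases i
      · exact h0
      · exact h1
      · rfl
    rcases l with x | x
    · obtain ⟨i, hi⟩ := cutSet_nonempty x.2.1 x.2.2
      have p1 : 0 < F (Sum.inl x) i := hf1a x i hi
      obtain ⟨j, hj⟩ : ∃ j, j ∉ cutSet x.2.1 x.2.2 := by
        by_contra hcon
        push Not at hcon
        exact cutSet_ne _ _ (Finset.eq_univ_iff_forall.mpr hcon)
      have p2 : F (Sum.inl x) j < 0 := hf1b x j hj
      rw [hall] at p1 p2
      linarith
    · have p1 : 0 < F (Sum.inr x) (ck x.1 + 1) := hf2b x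
      have p2 : ∑ i, a (cl x.1) i * F (Sum.inr x) i < 0 := hf2c x
      rw [hall] at p1
      have : 0 ≤ ∑ i, a (cl x.1) i * F (Sum.inr x) i := by
        refine Finset.sum_nonneg fun i _ => ?_
        rw [hall i]
        exact mul_nonneg (hapos _ _).le p1.le
      linarith
  -- positions of the points in the model
  set px : PPt W → ℝ := Sum.elim ![1, 0, 0] (fun w => a w 0 / ∑ i, a w i) with hpx
  set py : PPt W → ℝ := Sum.elim ![0, 1, 0] (fun w => a w 1 / ∑ i, a w i) with hpy
  refine ⟨px, py, fun l => F l 0 - F l 2, fun l => F l 1 - F l 2, fun l => F l 2, hnc,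
    fun P c hpos hneg => ?_⟩
  -- values of the model functionals
  set val : PLn W J → PPt W → ℝ := fun l v =>
    (F l 0 - F l 2) * px v + (F l 1 - F l 2) * py v + F l 2 with hval
  have hval1 : ∀ l i, val l (Sum.inl i) = F l i := by
    intro l i
    simp only [hval, hpx, hpy, Sum.elim_inl]
    fin_cases i <;> simp
  have hval2 : ∀ l w, val l (Sum.inr w) = (∑ i, a w i * F l i) / ∑ i, a w i := by
    intro l w
    have hS : 0 < ∑ i, a w i := Finset.sum_pos (fun i _ => hapos w i) Finset.univ_nonempty
    simp only [hval, hpx, hpy, Sum.elim_inr]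
    rw [eq_div_iff hS.ne']
    rw [Fin.sum_univ_three] at hS ⊢
    rw [Fin.sum_univ_three]
    field_simp
    ring
  have hval3 : ∀ l w, 0 < ∑ i, a w i * F l i → 0 < val l (Sum.inr w) := by
    intro l w h
    rw [hval2]
    exact div_pos h (Finset.sum_pos (fun i _ => hapos w i) Finset.univ_nonempty)
  have hval4 : ∀ l w, ∑ i, a w i * F l i < 0 → val l (Sum.inr w) < 0 := by
    intro l w h
    rw [hval2]
    exact div_neg_of_neg_of_pos h (Finset.sum_pos (fun i _ => hapos w i) Finset.univ_nonempty)
  set e : Fin 3 → E2 := fun i => P (Sum.inl i) with he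
  -- the frame is not collinear
  have harea : area e ≠ 0 := by
    obtain ⟨w⟩ := (inferInstance : Nonempty W)
    refine area_ne_zero e (fun i => c (Sum.inl (w, i, true))) (fun i => ?_) (fun i j hij => ?_)
    · apply hpos
      show 0 < val _ _
      rw [hval1]
      exact hf1a (w, i, true) i (by simp [cutSet])
    · apply hneg
      show val _ _ < 0
      rw [hval1]
      exact hf1b (w, i, true) j (by simp [cutSet, hij.symm])
  have hbar : ∀ w i, 0 < bar e (P (Sum.inr w)) i := by
    intro w
    refine all_pos _ (sum_bar e _ harea) (fun T hT1 hT2 => ?_)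
    obtain ⟨i, b, rfl⟩ := exists_cutSet T hT1 hT2
    refine ⟨fun j => aff (c (Sum.inl (w, i, b))) (e j), fun j hj => ?_, fun j hj => ?_, ?_⟩
    · apply hpos
      show 0 < val _ _
      rw [hval1]
      exact hf1a (w, i, b) j hj
    · apply hneg
      show val _ _ < 0
      rw [hval1]
      exact hf1b (w, i, b) j hj
    · rw [sum_bar_aff e _ harea]
      apply hneg
      apply hval4
      exact hf1c (w, i, b)
  refine ⟨fun w => web_sum e _ (hbar w), fun j => ?_⟩
  unfold web
  refine Real.log_lt_log (div_pos (hbar _ _) (hbar _ _)) ?_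
  refine ratio_lt (ck j) _ _ (hbar _) (hbar _)
    (fun i => aff (c (Sum.inr (j, true))) (e i)) (fun i => aff (c (Sum.inr (j, false))) (e i))
    ?_ ?_ ?_ ?_ ?_ ?_ ?_ ?_
  · apply hpos
    show 0 < val _ _
    rw [hval1]
    show 0 < f2 (j, true) (ck j)
    rw [hf2a (j, true)]
    simp
  · apply hpos
    show 0 < val _ _
    rw [hval1]
    exact hf2b (j, true)
  · rw [sum_bar_aff e _ harea]
    apply hneg
    apply hval4
    exact hf2c (j, true)
  · rw [sum_bar_aff e _ harea]
    apply hpos
    apply hval3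
    exact hf2d (j, true)
  · apply hneg
    show val _ _ < 0
    rw [hval1]
    show f2 (j, false) (ck j) < 0
    rw [hf2a (j, false)]
    simp
  · apply hpos
    show 0 < val _ _
    rw [hval1]
    exact hf2b (j, false)
  · rw [sum_bar_aff e _ harea]
    apply hneg
    apply hval4
    exact hf2c (j, false)
  · rw [sum_bar_aff e _ harea]
    apply hpos
    apply hval3
    exact hf2d (j, false)

/-- The forcing theorem for unit disks. -/
theorem forcing_disk {W J : Type} [Fintype W] [Fintype J] [Nonempty W]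
    (ck : J → Fin 3) (cl cr : J → W) (L : Fin 3 → W → ℝ)
    (hL : ∀ w, L 0 w + L 1 w + L 2 w = 0) (hc : ∀ j, L (ck j) (cl j) < L (ck j) (cr j)) :
    ∃ R : PVert W J → E2, ∀ P : PVert W J → E2,
      (∀ x y, x ≠ y → (Meet (R x) (R y) ↔ Meet (P x) (P y))) →
      Forced ck cl cr (fun v => P (Sum.inl v)) := by
  obtain ⟨px, py, A, B, C, hAB, hmain⟩ := forcing_core ck cl cr L hL hc
  set sg : Bool → ℝ := fun b => if b then 1 else -1 with hsg
  obtain ⟨R0, Q0, hRQ⟩ := exists_disks px py
    (fun l : PLn W J × Bool => sg l.2 * A l.1) (fun l => sg l.2 * B l.1)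
    (fun l => - (sg l.2 * C l.1)) (by
      intro l
      have hs : sg l.2 ≠ 0 := by
        simp only [hsg]; split_ifs <;> norm_num
      rcases hAB l.1 with h | h
      · left; exact mul_ne_zero hs h
      · right; exact mul_ne_zero hs h)
  refine ⟨Sum.elim R0 Q0, fun P hP => ?_⟩
  have hmeet1 : ∀ l v, (Meet (P (Sum.inl v)) (P (Sum.inr (l, true)))
      ↔ 0 < A l * px v + B l * py v + C l) := by
    intro l v
    rw [← hP (Sum.inl v) (Sum.inr (l, true)) (by simp)]
    simp only [Sum.elim_inl, Sum.elim_inr]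
    rw [hRQ]
    simp only [hsg, if_true, one_mul]
    constructor <;> intro h <;> linarith
  have hmeet2 : ∀ l v, (Meet (P (Sum.inl v)) (P (Sum.inr (l, false)))
      ↔ A l * px v + B l * py v + C l < 0) := by
    intro l v
    rw [← hP (Sum.inl v) (Sum.inr (l, false)) (by simp)]
    simp only [Sum.elim_inl, Sum.elim_inr]
    rw [hRQ]
    simp only [hsg, Bool.false_eq_true, if_false]
    constructor <;> intro h <;> linarith
  -- functionals in the given realisation
  set c : PLn W J → Fin 3 → ℝ := fun l =>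
    ![2 * (P (Sum.inr (l, true)) 0 - P (Sum.inr (l, false)) 0),
      2 * (P (Sum.inr (l, true)) 1 - P (Sum.inr (l, false)) 1),
      P (Sum.inr (l, false)) 0 ^ 2 + P (Sum.inr (l, false)) 1 ^ 2
        - P (Sum.inr (l, true)) 0 ^ 2 - P (Sum.inr (l, true)) 1 ^ 2] with hcdef
  have haff : ∀ l x, aff (c l) x
      = ((x 0 - P (Sum.inr (l, false)) 0) ^ 2 + (x 1 - P (Sum.inr (l, false)) 1) ^ 2)
        - ((x 0 - P (Sum.inr (l, true)) 0) ^ 2 + (x 1 - P (Sum.inr (l, true)) 1) ^ 2) := by
    intro l x
    simp only [aff, hcdef, Matrix.cons_val_zero, Matrix.cons_val_one, Matrix.cons_val]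
    ring
  refine hmain (fun v => P (Sum.inl v)) c (fun l v h => ?_) (fun l v h => ?_)
  · have h1 := (hmeet1 l v).mpr h
    have h2 : ¬ Meet (P (Sum.inl v)) (P (Sum.inr (l, false))) := by
      rw [hmeet2]; linarith
    rw [meet_iff_sq] at h1 h2
    rw [haff]
    push Not at h2
    linarith
  · have h1 := (hmeet2 l v).mpr h
    have h2 : ¬ Meet (P (Sum.inl v)) (P (Sum.inr (l, true))) := by
      rw [hmeet1]; linarith
    rw [meet_iff_sq] at h1 h2
    rw [haff]
    push Not at h2
    linarith

/-- Closed half-planes. -/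
def IsHalfPlane (s : Set E2) : Prop :=
  ∃ a b c : ℝ, (a ≠ 0 ∨ b ≠ 0) ∧ s = {x | c ≤ a * x 0 + b * x 1}

/-- The forcing theorem for points and half-planes. -/
theorem forcing_half {W J : Type} [Fintype W] [Fintype J] [Nonempty W]
    (ck : J → Fin 3) (cl cr : J → W) (L : Fin 3 → W → ℝ)
    (hL : ∀ w, L 0 w + L 1 w + L 2 w = 0) (hc : ∀ j, L (ck j) (cl j) < L (ck j) (cr j)) :
    ∃ (R : PPt W → E2) (Q : PLn W J × Bool → Set E2), (∀ l, IsHalfPlane (Q l)) ∧
      ∀ (P : PPt W → E2) (H : PLn W J × Bool → Set E2), (∀ l, IsHalfPlane (H l)) →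
      (∀ v l, (R v ∈ Q l ↔ P v ∈ H l)) → Forced ck cl cr P := by
  obtain ⟨px, py, A, B, C, hAB, hmain⟩ := forcing_core ck cl cr L hL hc
  set sg : Bool → ℝ := fun b => if b then 1 else -1 with hsg
  obtain ⟨ξ, hξ, hgap⟩ := exists_gap (fun x : PPt W × PLn W J × Bool =>
    sg x.2.2 * (A x.2.1 * px x.1 + B x.2.1 * py x.1 + C x.2.1))
  refine ⟨fun v => !₂[px v, py v], fun l => {x | ξ - sg l.2 * C l.1
    ≤ (sg l.2 * A l.1) * x 0 + (sg l.2 * B l.1) * x 1}, fun l => ?_, fun P H hH hP => ?_⟩
  · have hs : sg l.2 ≠ 0 := by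
      simp only [hsg]; split_ifs <;> norm_num
    refine ⟨_, _, _, ?_, rfl⟩
    rcases hAB l.1 with h | h
    · left; exact mul_ne_zero hs h
    · right; exact mul_ne_zero hs h
  · have hmem : ∀ v l b, (P v ∈ H (l, b) ↔ 0 < sg b * (A l * px v + B l * py v + C l)) := by
      intro v l b
      rw [← hP v (l, b)]
      simp only [Set.mem_ofPred_eq, Matrix.cons_val_zero, Matrix.cons_val_one,
        Matrix.cons_val_fin_one]
      have h1 := hgap (v, l, b)
      simp only at h1
      constructor
      · intro h2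
        linarith
      · intro h2
        have := h1 h2
        linarith
    choose ha hb hc' hnz hset using hH
    set c : PLn W J → Fin 3 → ℝ := fun l =>
      ![ha (l, true) - ha (l, false), hb (l, true) - hb (l, false),
        hc' (l, false) - hc' (l, true)] with hcdef
    have haff : ∀ l x, aff (c l) x
        = (ha (l, true) * x 0 + hb (l, true) * x 1 - hc' (l, true))
          - (ha (l, false) * x 0 + hb (l, false) * x 1 - hc' (l, false)) := by
      intro l x
      simp only [aff, hcdef, Matrix.cons_val_zero, Matrix.cons_val_one, Matrix.cons_val]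
      ring
    refine hmain P c (fun l v h => ?_) (fun l v h => ?_)
    · have h1 : P v ∈ H (l, true) := by
        rw [hmem]; simp only [hsg, if_true, one_mul]; exact h
      have h2 : P v ∉ H (l, false) := by
        rw [hmem]; simp only [hsg, Bool.false_eq_true, if_false]; linarith
      rw [hset, Set.mem_ofPred_eq] at h1 h2
      rw [haff]
      push Not at h2
      linarith
    · have h1 : P v ∈ H (l, false) := by
        rw [hmem]; simp only [hsg, Bool.false_eq_true, if_false]; linarith
      have h2 : P v ∉ H (l, true) := by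
        rw [hmem]; simp only [hsg, if_true, one_mul]; linarith
      rw [hset, Set.mem_ofPred_eq] at h1 h2
      rw [haff]
      push Not at h2
      linarith

end UDisk
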