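import Pool.Agent.Helper62.UD.Order

/-!
Lists of entries inside words and the search for an entry (helper file for MP_c7897a_lc).
-/

namespace UDisk

/-- A list of words as a word. -/
def encL (es : List (List Bool)) : List Bool := es.foldr pr []

lemma encL_cons (e : List Bool) (es : List (List Bool)) : encL (e :: es) = pr e (encL es) := rfl

lemma pr_ne_nil (x y : List Bool) : pr x y ≠ [] := by
  unfold pr; simp

lemma length_encL (es : List (List Bool)) (B : ℕ) (h : ∀ e ∈ es, e.length ≤ B) :
    (encL es).length ≤ es.length * (2 * B + 1) := by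
  induction es with
  | nil => simp [encL]
  | cons e es ih =>
    rw [encL_cons, length_pr, List.length_cons]
    have h1 := ih fun e' he' => h e' (List.mem_cons_of_mem _ he')
    have h2 := h e List.mem_cons_self
    have h3 : (es.length + 1) * (2 * B + 1) = es.length * (2 * B + 1) + (2 * B + 1) := by ring
    omega

lemma le_length_encL (es : List (List Bool)) : es.length ≤ (encL es).length := by
  induction es with
  | nil => simp
  | cons e es ih =>
    rw [encL_cons, length_pr, List.length_cons]
    omega

/-- One step of the search. -/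
def lstep (c : ℕ) (s : List Bool × List Bool) : List Bool × List Bool :=
  bif decide (s.2 = []) then
    bif decide (s.1 = []) then s
    else bif decide (num (pr1 (pr1 s.1)) = c) then (s.1, pr1 s.1) else (pr2 s.1, [])
  else s

/-- Search for the entry with number `c`; the result is empty if there is none. -/
def look (c : ℕ) (z : List Bool) : List Bool := ((lstep c)^[z.length] (z, [])).2

lemma lstep_done (c : ℕ) (z : List Bool) (o : List Bool) (ho : o ≠ []) (k : ℕ) :
    (lstep c)^[k] (z, o) = (z, o) := by
  induction k with
  | zero => rfl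
  | succ k ih =>
    rw [Function.iterate_succ_apply]
    have : lstep c (z, o) = (z, o) := by
      unfold lstep; simp [ho]
    rw [this, ih]

lemma lstep_nil (c : ℕ) (k : ℕ) : (lstep c)^[k] ([], []) = ([], []) := by
  induction k with
  | zero => rfl
  | succ k ih =>
    rw [Function.iterate_succ_apply]
    have : lstep c ([], []) = ([], []) := by unfold lstep; simp
    rw [this, ih]

lemma iter_encL (c : ℕ) (es : List (List Bool)) (hes : ∀ e ∈ es, e ≠ []) (k : ℕ)
    (hk : es.length ≤ k) : ((lstep c)^[k] (encL es, [])).2
      = (es.find? fun e => decide (num (pr1 e) = c)).getD [] := by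
  induction es generalizing k with
  | nil =>
    rw [show encL [] = [] from rfl, lstep_nil]
    rfl
  | cons e es ih =>
    obtain ⟨k, rfl⟩ : ∃ k', k = k' + 1 := ⟨k - 1, by rw [List.length_cons] at hk; omega⟩
    rw [Function.iterate_succ_apply, encL_cons, List.find?_cons]
    by_cases hc : num (pr1 e) = c
    · have : lstep c (pr e (encL es), []) = (pr e (encL es), e) := by
        unfold lstep; simp [hc, pr_ne_nil]
      rw [this, lstep_done _ _ _ (hes e List.mem_cons_self)]
      simp [hc]
    · have : lstep c (pr e (encL es), []) = (encL es, []) := by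
        unfold lstep; simp [hc, pr_ne_nil]
      rw [this, ih (fun e' he' => hes e' (List.mem_cons_of_mem _ he')) k
        (by rw [List.length_cons] at hk; omega)]
      simp [hc]

lemma look_encL (c : ℕ) (es : List (List Bool)) (hes : ∀ e ∈ es, e ≠ []) :
    look c (encL es) = (es.find? fun e => decide (num (pr1 e) = c)).getD [] :=
  iter_encL c es hes _ (le_length_encL es)

/-- If the numbers of the entries are different, the search finds the entry. -/
lemma look_found (c : ℕ) (es : List (List Bool)) (hes : ∀ e ∈ es, e ≠ []) (e : List Bool)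
    (he : e ∈ es) (hc : num (pr1 e) = c)
    (huniq : ∀ e' ∈ es, num (pr1 e') = c → e' = e) : look c (encL es) = e := by
  rw [look_encL c es hes]
  have h1 : (es.find? fun e => decide (num (pr1 e) = c)).isSome := by
    rw [List.find?_isSome]
    exact ⟨e, he, by simpa using hc⟩
  obtain ⟨e', he'⟩ := Option.isSome_iff_exists.mp h1
  rw [he']
  have h2 := List.find?_some he'
  have h3 := List.mem_of_find?_eq_some he'
  simp only [decide_eq_true_eq] at h2
  rw [huniq e' h3 h2]
  rfl

lemma look_notFound (c : ℕ) (es : List (List Bool)) (hes : ∀ e ∈ es, e ≠ [])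
    (h : ∀ e ∈ es, num (pr1 e) ≠ c) : look c (encL es) = [] := by
  rw [look_encL c es hes]
  have : (es.find? fun e => decide (num (pr1 e) = c)) = none := by
    rw [List.find?_eq_none]
    intro e he
    simpa using h e he
  rw [this]
  rfl

lemma primrec_look : Primrec₂ look := by
  unfold look
  have hz : Primrec (fun p : (ℕ × List Bool) × (List Bool × List Bool) => p.2.1) :=
    Primrec.fst.comp Primrec.snd
  have ho : Primrec (fun p : (ℕ × List Bool) × (List Bool × List Bool) => p.2.2) :=
    Primrec.snd.comp Primrec.snd
  have hc : Primrec (fun p : (ℕ × List Bool) × (List Bool × List Bool) => p.1.1) :=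
    Primrec.fst.comp Primrec.fst
  have hs : Primrec₂ fun (p : ℕ × List Bool) (s : List Bool × List Bool) => lstep p.1 s := by
    unfold lstep
    refine Primrec.cond (Primrec.eq.decide.comp ho (Primrec.const [])) ?_ Primrec.snd
    refine Primrec.cond (Primrec.eq.decide.comp hz (Primrec.const [])) Primrec.snd ?_
    refine Primrec.cond (Primrec.eq.decide.comp (primrec_num.comp (primrec_pr1.comp
      (primrec_pr1.comp hz))) hc) ?_ ?_
    · exact Primrec.pair hz (primrec_pr1.comp hz)
    · exact Primrec.pair (primrec_pr2.comp hz) (Primrec.const [])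
  have h1 : Primrec fun p : ℕ × List Bool => ((lstep p.1)^[p.2.length] (p.2, [])) :=
    Primrec.nat_iterate (Primrec.list_length.comp Primrec.snd)
      (Primrec.pair Primrec.snd (Primrec.const [])) hs
  exact Primrec.snd.comp h1

/-- Components of a label. -/
def g1 (z : List Bool) : List Bool := pr1 z
def g2 (z : List Bool) : List Bool := pr1 (pr2 z)
def g3 (z : List Bool) : List Bool := pr1 (pr2 (pr2 z))
def g4 (z : List Bool) : List Bool := pr1 (pr2 (pr2 (pr2 z)))
def g5 (z : List Bool) : List Bool := pr2 (pr2 (pr2 (pr2 z)))

/-- The test of the crossing criterion.  `ex` is the entry of the first label for the colour of the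
second one, `ey` the entry of the second label for the colour of the first one. -/
def testD (x y ex ey : List Bool) : Bool :=
  (decide (num (g2 x) ≤ num (g3 y)) && decide (num (g2 y) ≤ num (g3 x))) &&
  (((bif decide (num (g2 x) ≤ num (g2 y)) then decide (num (g4 x) ≤ num (pr1 (pr2 ey)))
      else decide (num (pr1 (pr2 ex)) ≤ num (g4 y))) &&
    (bif decide (num (g3 y) ≤ num (g3 x)) then decide (num (pr2 (pr2 ey)) ≤ num (g4 x))
      else decide (num (g4 y) ≤ num (pr2 (pr2 ex))))) ||
   ((bif decide (num (g2 x) ≤ num (g2 y)) then decide (num (pr1 (pr2 ey)) ≤ num (g4 x))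
      else decide (num (g4 y) ≤ num (pr1 (pr2 ex)))) &&
    (bif decide (num (g3 y) ≤ num (g3 x)) then decide (num (g4 x) ≤ num (pr2 (pr2 ey)))
      else decide (num (pr2 (pr2 ex)) ≤ num (g4 y)))))

/-- The decoder. -/
def colD (x y : List Bool) : Bool :=
  (!decide (look (num (g1 y)) (g5 x) = []) && !decide (look (num (g1 x)) (g5 y) = [])) &&
    testD x y (look (num (g1 y)) (g5 x)) (look (num (g1 x)) (g5 y))

lemma primrec_g1 : Primrec g1 := primrec_pr1
lemma primrec_g2 : Primrec g2 := primrec_pr1.comp primrec_pr2
lemma primrec_g3 : Primrec g3 := primrec_pr1.comp (primrec_pr2.comp primrec_pr2)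
lemma primrec_g4 : Primrec g4 := primrec_pr1.comp (primrec_pr2.comp (primrec_pr2.comp primrec_pr2))
lemma primrec_g5 : Primrec g5 := primrec_pr2.comp (primrec_pr2.comp (primrec_pr2.comp primrec_pr2))

lemma primrec_le {α : Type*} [Primcodable α] {f g : α → List Bool} (hf : Primrec f)
    (hg : Primrec g) : Primrec fun a => decide (num (f a) ≤ num (g a)) :=
  Primrec.nat_le.decide.comp (primrec_num.comp hf) (primrec_num.comp hg)

lemma primrec_testD {α : Type*} [Primcodable α] {x y ex ey : α → List Bool} (hx : Primrec x)
    (hy : Primrec y) (hex : Primrec ex) (hey : Primrec ey) :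
    Primrec fun a => testD (x a) (y a) (ex a) (ey a) := by
  have x2 := primrec_g2.comp hx
  have x3 := primrec_g3.comp hx
  have x4 := primrec_g4.comp hx
  have y2 := primrec_g2.comp hy
  have y3 := primrec_g3.comp hy
  have y4 := primrec_g4.comp hy
  have a1 := primrec_pr1.comp (primrec_pr2.comp hex)
  have a2 := primrec_pr2.comp (primrec_pr2.comp hex)
  have b1 := primrec_pr1.comp (primrec_pr2.comp hey)
  have b2 := primrec_pr2.comp (primrec_pr2.comp hey)
  unfold testD
  exact Primrec.and.comp (Primrec.and.comp (primrec_le x2 y3) (primrec_le y2 x3))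
    (Primrec.or.comp
      (Primrec.and.comp
        (Primrec.cond (primrec_le x2 y2) (primrec_le x4 b1) (primrec_le a1 y4))
        (Primrec.cond (primrec_le y3 x3) (primrec_le b2 x4) (primrec_le y4 a2)))
      (Primrec.and.comp
        (Primrec.cond (primrec_le x2 y2) (primrec_le b1 x4) (primrec_le y4 a1))
        (Primrec.cond (primrec_le y3 x3) (primrec_le x4 b2) (primrec_le a2 y4))))

lemma computable_colD : Computable₂ colD := by
  have hx : Primrec (fun p : List Bool × List Bool => p.1) := Primrec.fst
  have hy : Primrec (fun p : List Bool × List Bool => p.2) := Primrec.snd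
  have hex : Primrec (fun p : List Bool × List Bool => look (num (g1 p.2)) (g5 p.1)) :=
    primrec_look.comp (primrec_num.comp (primrec_g1.comp hy)) (primrec_g5.comp hx)
  have hey : Primrec (fun p : List Bool × List Bool => look (num (g1 p.1)) (g5 p.2)) :=
    primrec_look.comp (primrec_num.comp (primrec_g1.comp hx)) (primrec_g5.comp hy)
  have h : Primrec (fun p : List Bool × List Bool => colD p.1 p.2) := by
    unfold colD
    exact Primrec.and.comp (Primrec.and.comp
      (Primrec.not.comp (Primrec.eq.decide.comp hex (Primrec.const [])))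
      (Primrec.not.comp (Primrec.eq.decide.comp hey (Primrec.const []))))
      (primrec_testD hx hy hex hey)
  exact h.to_comp

end UDisk
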