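import Pool.Agent.Helper62.UD.Segments

/-!
Pieces of graphs of affine functions: crossing criterion, acyclic vertical order of pairwise
disjoint pieces, thresholds of points (helper file for MP_c7897a_lc).
-/

namespace UDisk

/-- A piece of the graph of an affine function: the part of `y = s x + c` with `lo ≤ x ≤ hi`. -/
structure Piece where
  lo : ℝ
  hi : ℝ
  le : lo ≤ hi
  s : ℝ
  c : ℝ

namespace Piece

/-- Height. -/
def f (p : Piece) (x : ℝ) : ℝ := p.s * x + p.c

def On (p : Piece) (x : ℝ) : Prop := p.lo ≤ x ∧ x ≤ p.hi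

/-- Two pieces have a common point. -/
def Cross (p q : Piece) : Prop := ∃ x, p.On x ∧ q.On x ∧ p.f x = q.f x

lemma cross_symm {p q : Piece} (h : Cross p q) : Cross q p := by
  obtain ⟨x, h1, h2, h3⟩ := h
  exact ⟨x, h2, h1, h3.symm⟩

lemma f_param (p : Piece) (a b s : ℝ) : p.f ((1 - s) * a + s * b) = (1 - s) * p.f a + s * p.f b := by
  unfold f; ring

/-- Between two points where the difference has different signs there is a common point. -/
lemma exists_eq {p q : Piece} {a b : ℝ} (h1 : p.f a ≤ q.f a) (h2 : q.f b ≤ p.f b) :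
    ∃ x, min a b ≤ x ∧ x ≤ max a b ∧ p.f x = q.f x := by
  obtain ⟨s, s0, s1, hs⟩ := between_param (x := p.f a - q.f a) (y := p.f b - q.f b) (z := 0)
    ⟨le_trans (min_le_left _ _) (by linarith), le_trans (by linarith) (le_max_right _ _)⟩
  obtain ⟨m1, m2⟩ := param_between (x := a) (y := b) s0 s1
  refine ⟨(1 - s) * a + s * b, m1, m2, ?_⟩
  rw [f_param, f_param]
  linarith

/-- The criterion. -/
lemma cross_iff (p q : Piece) : Cross p q ↔
    max p.lo q.lo ≤ min p.hi q.hi ∧
      ((p.f (max p.lo q.lo) ≤ q.f (max p.lo q.lo) ∧ q.f (min p.hi q.hi) ≤ p.f (min p.hi q.hi)) ∨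
       (q.f (max p.lo q.lo) ≤ p.f (max p.lo q.lo) ∧ p.f (min p.hi q.hi) ≤ q.f (min p.hi q.hi))) := by
  set a := max p.lo q.lo with ha
  set b := min p.hi q.hi with hb
  constructor
  · rintro ⟨x, ⟨h1, h2⟩, ⟨h3, h4⟩, h5⟩
    have hax : a ≤ x := max_le h1 h3
    have hxb : x ≤ b := le_min h2 h4
    refine ⟨le_trans hax hxb, ?_⟩
    have hab : a ≤ b := le_trans hax hxb
    obtain ⟨s, s0, s1, hs⟩ := between_param (x := a) (y := b) (z := x)
      ⟨by rw [min_eq_left hab]; exact hax, by rw [max_eq_right hab]; exact hxb⟩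
    rw [hs, f_param, f_param] at h5
    have hz : 0 = (1 - s) * (p.f a - q.f a) + s * (p.f b - q.f b) := by linarith
    obtain ⟨m1, m2⟩ := param_between (x := p.f a - q.f a) (y := p.f b - q.f b) s0 s1
    rw [← hz] at m1 m2
    rcases min_le_iff.mp m1 with u | u <;> rcases le_max_iff.mp m2 with w | w
    · rcases le_total 0 (p.f b - q.f b) with d | d
      · left; constructor <;> linarith
      · right; constructor <;> linarith
    · left; constructor <;> linarith
    · right; constructor <;> linarith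
    · rcases le_total 0 (p.f a - q.f a) with d | d
      · right; constructor <;> linarith
      · left; constructor <;> linarith
  · rintro ⟨hab, h⟩
    have hmem : ∀ x, min a b ≤ x → x ≤ max a b → p.On x ∧ q.On x := by
      intro x h1 h2
      rw [min_eq_left hab] at h1
      rw [max_eq_right hab] at h2
      exact ⟨⟨le_trans (le_max_left _ _) h1, le_trans h2 (min_le_left _ _)⟩,
        ⟨le_trans (le_max_right _ _) h1, le_trans h2 (min_le_right _ _)⟩⟩
    rcases h with ⟨h1, h2⟩ | ⟨h1, h2⟩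
    · obtain ⟨x, x1, x2, x3⟩ := exists_eq h1 h2
      obtain ⟨y1, y2⟩ := hmem x x1 x2
      exact ⟨x, y1, y2, x3⟩
    · obtain ⟨x, x1, x2, x3⟩ := exists_eq h1 h2
      obtain ⟨y1, y2⟩ := hmem x x1 x2
      exact ⟨x, y1, y2, x3.symm⟩

/-- The order of two disjoint pieces does not change. -/
lemma lt_of_lt {p q : Piece} (h : ¬ Cross p q) {x y : ℝ} (hpx : p.On x) (hqx : q.On x)
    (hpy : p.On y) (hqy : q.On y) (hlt : p.f x < q.f x) : p.f y < q.f y := by
  by_contra hcon
  push Not at hcon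
  obtain ⟨z, z1, z2, z3⟩ := exists_eq hlt.le hcon
  apply h
  refine ⟨z, ⟨le_trans (le_min hpx.1 hpy.1) z1, le_trans z2 (max_le hpx.2 hpy.2)⟩,
    ⟨le_trans (le_min hqx.1 hqy.1) z1, le_trans z2 (max_le hqx.2 hqy.2)⟩, z3⟩

end Piece

/-- A real number between two finite families. -/
lemma exists_mid {ι : Type*} (s t : Finset ι) (g : ι → ℝ) (h : ∀ i ∈ s, ∀ j ∈ t, g i < g j) :
    ∃ θ : ℝ, (∀ i ∈ s, g i < θ) ∧ ∀ j ∈ t, θ < g j := by
  classical
  by_cases hs : s.Nonempty
  · obtain ⟨i0, hi0, hmax⟩ := s.exists_max_image g hs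
    by_cases ht : t.Nonempty
    · obtain ⟨j0, hj0, hmin⟩ := t.exists_min_image g ht
      obtain ⟨θ, h1, h2⟩ := exists_between (h i0 hi0 j0 hj0)
      exact ⟨θ, fun i hi => lt_of_le_of_lt (hmax i hi) h1, fun j hj => lt_of_lt_of_le h2 (hmin j hj)⟩
    · refine ⟨g i0 + 1, fun i hi => by linarith [hmax i hi], fun j hj => absurd ⟨j, hj⟩ ht⟩
  · by_cases ht : t.Nonempty
    · obtain ⟨j0, hj0, hmin⟩ := t.exists_min_image g ht
      exact ⟨g j0 - 1, fun i hi => absurd ⟨i, hi⟩ hs, fun j hj => by linarith [hmin j hj]⟩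
    · exact ⟨0, fun i hi => absurd ⟨i, hi⟩ hs, fun j hj => absurd ⟨j, hj⟩ ht⟩

/-- **Vertical order.**  Pairwise disjoint pieces have a ranking which is compatible with the
order of heights over every point. -/
theorem exists_order {V : Type*} [DecidableEq V] (P : V → Piece) (s : Finset V)
    (h : ∀ u ∈ s, ∀ v ∈ s, u ≠ v → ¬ Piece.Cross (P u) (P v)) :
    ∃ ρ : V → ℝ, ∀ u ∈ s, ∀ v ∈ s, ∀ x, (P u).On x → (P v).On x →
      (P u).f x < (P v).f x → ρ u < ρ v := by
  classical
  induction hk : s.card generalizing s with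
  | zero =>
    rw [Finset.card_eq_zero] at hk
    subst hk
    exact ⟨fun _ => 0, fun u hu => absurd hu (Finset.notMem_empty u)⟩
  | succ k ih =>
    have hne : s.Nonempty := Finset.card_pos.mp (by omega)
    obtain ⟨r, hr, hmin⟩ := s.exists_min_image (fun v => (P v).hi) hne
    obtain ⟨ρ, hρ⟩ := ih (s.erase r) (fun u hu v hv huv =>
      h u (Finset.mem_of_mem_erase hu) v (Finset.mem_of_mem_erase hv) huv)
      (by rw [Finset.card_erase_of_mem hr]; omega)
    set x0 := (P r).hi with hx0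
    have hr0 : (P r).On x0 := ⟨(P r).le, le_refl _⟩
    obtain ⟨θ, hθ1, hθ2⟩ := exists_mid
      ((s.erase r).filter fun v => (P v).On x0 ∧ (P v).f x0 < (P r).f x0)
      ((s.erase r).filter fun v => (P v).On x0 ∧ (P r).f x0 < (P v).f x0) ρ (by
        intro u hu v hv
        rw [Finset.mem_filter] at hu hv
        exact hρ u hu.1 v hv.1 x0 hu.2.1 hv.2.1 (lt_trans hu.2.2 hv.2.2))
    refine ⟨Function.update ρ r θ, fun u hu v hv x hux hvx hlt => ?_⟩
    have hspan : ∀ w ∈ s, ∀ x, (P w).On x → (P r).On x → (P w).On x0 := by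
      intro w hw x h1 h2
      exact ⟨le_trans h1.1 h2.2, hmin w hw⟩
    by_cases hur : u = r
    · by_cases hvr : v = r
      · rw [hur, hvr] at hlt
        exact absurd hlt (lt_irrefl _)
      · rw [hur, Function.update_self, Function.update_of_ne hvr]
        rw [hur] at hlt hux
        have hv0 := hspan v hv x hvx hux
        apply hθ2
        rw [Finset.mem_filter]
        refine ⟨Finset.mem_erase.mpr ⟨hvr, hv⟩, hv0, ?_⟩
        exact Piece.lt_of_lt (h r hr v hv (Ne.symm hvr)) hux hvx hr0 hv0 hlt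
    · by_cases hvr : v = r
      · rw [hvr, Function.update_self, Function.update_of_ne hur]
        rw [hvr] at hlt hvx
        have hu0 := hspan u hu x hux hvx
        apply hθ1
        rw [Finset.mem_filter]
        refine ⟨Finset.mem_erase.mpr ⟨hur, hu⟩, hu0, ?_⟩
        exact Piece.lt_of_lt (h u hu r hr hur) hux hvx hu0 hr0 hlt
      · rw [Function.update_of_ne hur, Function.update_of_ne hvr]
        exact hρ u (Finset.mem_erase.mpr ⟨hur, hu⟩) v (Finset.mem_erase.mpr ⟨hvr, hv⟩) x hux hvx hlt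

/-- **Thresholds.**  The position of a point relative to the pieces over it is a position in the
ranking. -/
theorem exists_threshold {V : Type*} [DecidableEq V] (P : V → Piece) (s : Finset V) (ρ : V → ℝ)
    (hρ : ∀ u ∈ s, ∀ v ∈ s, ∀ x, (P u).On x → (P v).On x → (P u).f x < (P v).f x → ρ u < ρ v)
    (h : ∀ u ∈ s, ∀ v ∈ s, u ≠ v → ¬ Piece.Cross (P u) (P v)) (x y : ℝ) :
    ∃ θ : ℝ, ∀ r ∈ s, (P r).On x → ((P r).f x ≤ y ↔ ρ r ≤ θ) ∧ (y ≤ (P r).f x ↔ θ ≤ ρ r) := by
  classical
  by_cases hon : ∃ r ∈ s, (P r).On x ∧ (P r).f x = y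
  · obtain ⟨r, hr, hrx, hry⟩ := hon
    refine ⟨ρ r, fun v hv hvx => ?_⟩
    rcases lt_trichotomy ((P v).f x) y with hlt | heq | hgt
    · have := hρ v hv r hr x hvx hrx (by rw [hry]; exact hlt)
      exact ⟨⟨fun _ => this.le, fun _ => hlt.le⟩,
        ⟨fun h' => absurd hlt (not_lt.mpr h'), fun h' => absurd this (not_lt.mpr h')⟩⟩
    · have hvr : v = r := by
        by_contra hne
        exact h v hv r hr hne ⟨x, hvx, hrx, by rw [heq, hry]⟩
      rw [hvr, hry]
      simp
    · have := hρ r hr v hv x hrx hvx (by rw [hry]; exact hgt)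
      exact ⟨⟨fun h' => absurd hgt (not_lt.mpr h'), fun h' => absurd this (not_lt.mpr h')⟩,
        ⟨fun _ => this.le, fun _ => hgt.le⟩⟩
  · push Not at hon
    obtain ⟨θ, h1, h2⟩ := exists_mid (s.filter fun v => (P v).On x ∧ (P v).f x < y)
      (s.filter fun v => (P v).On x ∧ y < (P v).f x) ρ (by
        intro u hu v hv
        rw [Finset.mem_filter] at hu hv
        exact hρ u hu.1 v hv.1 x hu.2.1 hv.2.1 (lt_trans hu.2.2 hv.2.2))
    refine ⟨θ, fun v hv hvx => ?_⟩
    rcases lt_trichotomy ((P v).f x) y with hlt | heq | hgt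
    · have := h1 v (Finset.mem_filter.mpr ⟨hv, hvx, hlt⟩)
      exact ⟨⟨fun _ => this.le, fun _ => hlt.le⟩,
        ⟨fun h' => absurd hlt (not_lt.mpr h'), fun h' => absurd this (not_lt.mpr h')⟩⟩
    · exact absurd heq (hon v hv hvx)
    · have := h2 v (Finset.mem_filter.mpr ⟨hv, hvx, hgt⟩)
      exact ⟨⟨fun h' => absurd hgt (not_lt.mpr h'), fun h' => absurd this (not_lt.mpr h')⟩,
        ⟨fun _ => this.le, fun _ => hgt.le⟩⟩

/-- The piece of a segment. -/
noncomputable def pieceOf (t : ℝ) (A B : E2) : Piece where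
  lo := min (xc t A) (xc t B)
  hi := max (xc t A) (xc t B)
  le := min_le_max
  s := slo t A B
  c := cst t A B

lemma seg_on (t : ℝ) (A B : E2) (h1 : A ≠ B → xc t A ≠ xc t B) {P : E2} (hP : P ∈ segment ℝ A B) :
    (pieceOf t A B).On (xc t P) ∧ P 1 = (pieceOf t A B).f (xc t P) := by
  obtain ⟨s, s0, s1, p0, p1⟩ := seg_param hP
  have hx := xc_param t A B P s p0 p1
  obtain ⟨m1, m2⟩ := param_between (x := xc t A) (y := xc t B) s0 s1
  rw [← hx] at m1 m2
  refine ⟨⟨m1, m2⟩, ?_⟩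
  have hz : hgt t A B P = 0 := by
    rw [hgt_param t A B A B P s p0 p1, hgt_left, hgt_right t A B h1]
    ring
  unfold hgt at hz
  show P 1 = slo t A B * xc t P + cst t A B
  linarith

lemma seg_of_on (t : ℝ) (A B : E2) (h1 : A ≠ B → xc t A ≠ xc t B) {x : ℝ}
    (hx : (pieceOf t A B).On x) :
    ∃ P ∈ segment ℝ A B, xc t P = x ∧ P 1 = (pieceOf t A B).f x := by
  obtain ⟨s, s0, s1, hs⟩ := between_param (x := xc t A) (y := xc t B) (z := x) ⟨hx.1, hx.2⟩
  obtain ⟨P, hP, p0, p1⟩ := seg_point A B s s0 s1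
  have hx' := xc_param t A B P s p0 p1
  rw [← hs] at hx'
  refine ⟨P, hP, hx', ?_⟩
  have := (seg_on t A B h1 hP).2
  rw [hx'] at this
  exact this

/-- Segments meet if and only if their pieces cross. -/
theorem segments_meet_iff (t : ℝ) (A B C D : E2) (h1 : A ≠ B → xc t A ≠ xc t B)
    (h2 : C ≠ D → xc t C ≠ xc t D) :
    (segment ℝ A B ∩ segment ℝ C D).Nonempty ↔ Piece.Cross (pieceOf t A B) (pieceOf t C D) := by
  constructor
  · rintro ⟨P, hP1, hP2⟩
    obtain ⟨a1, a2⟩ := seg_on t A B h1 hP1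
    obtain ⟨b1, b2⟩ := seg_on t C D h2 hP2
    exact ⟨xc t P, a1, b1, by rw [← a2, ← b2]⟩
  · rintro ⟨x, a, b, hab⟩
    obtain ⟨P, hP, p0, p1⟩ := seg_of_on t A B h1 a
    obtain ⟨Q, hQ, q0, q1⟩ := seg_of_on t C D h2 b
    have hPQ : P = Q := ext_xc (t := t) (by rw [p0, q0]) (by rw [p1, q1, hab])
    exact ⟨P, hP, by rw [hPQ]; exact hQ⟩

end UDisk
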