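import Pool.Agent.Helper62.UD.Segments

/-!
Short labelling schemes for segment graphs give short labelling schemes for point and half-plane
graphs (helper file for MP_c7897a_lc).
-/

namespace UDisk

/-- The foot of the origin on the line `a x + b y = c`, moved by `m` along the line. -/
noncomputable def bpt (a b c m : ℝ) : E2 :=
  !₂[c * a / (a ^ 2 + b ^ 2) - m * b, c * b / (a ^ 2 + b ^ 2) + m * a]

lemma bpt_on (a b c m : ℝ) (h : a ^ 2 + b ^ 2 ≠ 0) : a * bpt a b c m 0 + b * bpt a b c m 1 = c := by
  simp only [bpt, Matrix.cons_val_zero, Matrix.cons_val_one, Matrix.cons_val_fin_one]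
  field_simp
  ring

/-- The position of the crossing point on the line. -/
noncomputable def mu (a b t : ℝ) (P : E2) (c : ℝ) : ℝ :=
  (a * (P 1 - (a * P 0 + b * P 1 - c) / (a + b * t) * t)
    - b * (P 0 - (a * P 0 + b * P 1 - c) / (a + b * t))) / (a ^ 2 + b ^ 2)

/-- A long segment from `P` in the right direction meets a long segment of the boundary of a
half-plane if and only if `P` is in the half-plane. -/
lemma ray_iff (a b c t T T' σ : ℝ) (P : E2) (hab : a ^ 2 + b ^ 2 ≠ 0) (hσ : σ ^ 2 = 1)
    (hκ : 0 < σ * (a + b * t)) (hT0 : 0 < T) (hT0' : 0 < T')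
    (hT : |(a * P 0 + b * P 1 - c) / (a + b * t)| ≤ T) (hT' : |mu a b t P c| ≤ T') :
    (segment ℝ P (!₂[P 0 - σ * T, P 1 - σ * T * t] : E2)
      ∩ segment ℝ (bpt a b c (-T')) (bpt a b c T')).Nonempty ↔ c ≤ a * P 0 + b * P 1 := by
  have hκ0 : a + b * t ≠ 0 := by
    intro h0
    rw [h0] at hκ
    simp at hκ
  have hσκ : (a * P 0 + b * P 1 - c) / (a + b * t)
      = σ * ((a * P 0 + b * P 1 - c) / (σ * (a + b * t))) := by
    have hσ0 : σ ≠ 0 := by
      rintro rfl
      norm_num at hσ
    field_simp
  constructor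
  · rintro ⟨z, hz1, hz2⟩
    obtain ⟨s, s0, s1, z0, z1⟩ := seg_param hz1
    obtain ⟨r, r0, r1, w0, w1⟩ := seg_param hz2
    have h1 : a * z 0 + b * z 1 = c := by
      rw [w0, w1]
      linear_combination (1 - r) * bpt_on a b c (-T') hab + r * bpt_on a b c T' hab
    simp only [Matrix.cons_val_zero, Matrix.cons_val_one, Matrix.cons_val_fin_one] at z0 z1
    rw [z0, z1] at h1
    have h2 : a * P 0 + b * P 1 - c = s * T * (σ * (a + b * t)) := by linarith
    have h3 : 0 ≤ s * T * (σ * (a + b * t)) := mul_nonneg (mul_nonneg s0 hT0.le) hκ.le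
    linarith
  · intro h
    set S := a * P 0 + b * P 1 - c with hS
    have hS0 : 0 ≤ S := by rw [hS]; linarith
    set lam := S / (σ * (a + b * t)) with hlam
    have hlam0 : 0 ≤ lam := div_nonneg hS0 hκ.le
    have hlamT : lam ≤ T := by
      have habs : |σ * lam| ≤ T := by rw [← hσκ]; exact hT
      have hσ1 : |σ| = 1 := by
        have : |σ| ^ 2 = 1 := by rw [sq_abs]; exact hσ
        have h0 := abs_nonneg σ
        nlinarith
      rw [abs_mul, hσ1, one_mul, abs_of_nonneg hlam0] at habs
      exact habs
    obtain ⟨z, hz, z0, z1⟩ := seg_point P (!₂[P 0 - σ * T, P 1 - σ * T * t] : E2) (lam / T)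
      (div_nonneg hlam0 hT0.le) ((div_le_one hT0).mpr hlamT)
    simp only [Matrix.cons_val_zero, Matrix.cons_val_one, Matrix.cons_val_fin_one] at z0 z1
    have z0' : z 0 = P 0 - S / (a + b * t) := by
      rw [z0, hσκ]
      field_simp
      ring
    have z1' : z 1 = P 1 - S / (a + b * t) * t := by
      rw [z1, hσκ]
      field_simp
      ring
    set m := mu a b t P c with hm
    have hmeq : m * (a ^ 2 + b ^ 2) = a * z 1 - b * z 0 := by
      rw [hm, mu, z0', z1', hS]
      field_simp
    have hline : a * z 0 + b * z 1 = c := by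
      rw [z0', z1']
      have : a * (P 0 - S / (a + b * t)) + b * (P 1 - S / (a + b * t) * t)
          = a * P 0 + b * P 1 - S / (a + b * t) * (a + b * t) := by ring
      rw [this, div_mul_cancel₀ _ hκ0, hS]
      ring
    obtain ⟨m1, m2⟩ := abs_le.mp hT'
    obtain ⟨w, hw, w0, w1⟩ := seg_point (bpt a b c (-T')) (bpt a b c T') ((m + T') / (2 * T'))
      (div_nonneg (by linarith) (by linarith)) ((div_le_one (by linarith)).mpr (by linarith))
    have hzw : z = w := by
      have q0 : w 0 = c * a / (a ^ 2 + b ^ 2) - m * b := by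
        rw [w0]
        simp only [bpt, Matrix.cons_val_zero]
        field_simp
        ring
      have q1 : w 1 = c * b / (a ^ 2 + b ^ 2) + m * a := by
        rw [w1]
        simp only [bpt, Matrix.cons_val_one, Matrix.cons_val_fin_one]
        field_simp
        ring
      ext i
      fin_cases i
      · show z 0 = w 0
        rw [q0]
        field_simp
        linear_combination a * hline + b * hmeq
      · show z 1 = w 1
        rw [q1]
        field_simp
        linear_combination b * hline - a * hmeq
    exact ⟨z, hz, by rw [hzw]; exact hw⟩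

lemma exists_dir2 {n : ℕ} (a b : Fin n → ℝ) (hab : ∀ j, a j ≠ 0 ∨ b j ≠ 0) :
    ∃ t : ℝ, ∀ j, a j + b j * t ≠ 0 := by
  have hfin : (⋃ j : Fin n, {t : ℝ | a j + b j * t = 0}).Finite := by
    refine Set.finite_iUnion fun j => ?_
    refine Set.Subsingleton.finite ?_
    intro t ht s hs
    simp only [Set.mem_ofPred_eq] at ht hs
    have e1 : b j * (t - s) = 0 := by linarith
    rcases mul_eq_zero.mp e1 with h | h
    · rw [h] at ht
      rcases hab j with h' | h'
      · exact absurd (by linarith) h'
      · exact absurd h h'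
    · linarith
  obtain ⟨t, ht⟩ := hfin.infinite_compl.nonempty
  refine ⟨t, fun j hcon => ht ?_⟩
  rw [Set.mem_iUnion]
  exact ⟨j, hcon⟩

/-- The decoder. -/
def phD (dec : List Bool → List Bool → Bool) (x y : List Bool) : Bool :=
  bif x.headI then
    bif y.headI then false
    else bif y.tail.headI then dec (pr2 x.tail.tail) (pr1 y.tail.tail)
      else dec (pr1 x.tail.tail) (pr1 y.tail.tail)
  else
    bif y.headI then
      bif x.tail.headI then dec (pr2 y.tail.tail) (pr1 x.tail.tail)
      else dec (pr1 y.tail.tail) (pr1 x.tail.tail)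
    else false

lemma computable_phD {dec : List Bool → List Bool → Bool} (hdec : Computable₂ dec) :
    Computable₂ (phD dec) := by
  have hx : Primrec (fun p : List Bool × List Bool => p.1) := Primrec.fst
  have hy : Primrec (fun p : List Bool × List Bool => p.2) := Primrec.snd
  have hx1 := Primrec.list_tail.comp hx
  have hy1 := Primrec.list_tail.comp hy
  have hx2 := Primrec.list_tail.comp hx1
  have hy2 := Primrec.list_tail.comp hy1
  unfold phD
  refine Computable.cond (Primrec.list_headI.comp hx).to_comp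
    (Computable.cond (Primrec.list_headI.comp hy).to_comp (Computable.const false)
      (Computable.cond (Primrec.list_headI.comp hy1).to_comp ?_ ?_))
    (Computable.cond (Primrec.list_headI.comp hy).to_comp
      (Computable.cond (Primrec.list_headI.comp hx1).to_comp ?_ ?_) (Computable.const false))
  · exact hdec.comp (primrec_pr2.comp hx2).to_comp (primrec_pr1.comp hy2).to_comp
  · exact hdec.comp (primrec_pr1.comp hx2).to_comp (primrec_pr1.comp hy2).to_comp
  · exact hdec.comp (primrec_pr2.comp hy2).to_comp (primrec_pr1.comp hx2).to_comp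
  · exact hdec.comp (primrec_pr1.comp hy2).to_comp (primrec_pr1.comp hx2).to_comp

/-- The intersection graph of segments. -/
def segg {V : Type*} (A B : V → E2) : SimpleGraph V where
  Adj u v := u ≠ v ∧ (segment ℝ (A u) (B u) ∩ segment ℝ (A v) (B v)).Nonempty
  symm := ⟨fun _ _ h => ⟨h.1.symm, by rw [Set.inter_comm]; exact h.2⟩⟩
  loopless := ⟨fun _ h => h.1 rfl⟩

theorem ph_of_segment (h : Short SegmentGraphs) : Short PointHalfPlaneGraphs := by
  classical
  obtain ⟨dec, hdec, c, hmain⟩ := h
  refine short_of (phD dec) (computable_phD hdec) (6 * c + 3) (fun n G hn hG => ?_)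
  obtain ⟨side, p, H, hH, hadj⟩ := hG
  choose a b d hab hset using hH
  obtain ⟨t, ht⟩ := exists_dir2 a b hab
  set L := Nat.log 2 n with hL
  have hL1 : 1 ≤ L := Nat.log_pos one_lt_two hn
  obtain ⟨T, hT0, hT⟩ := exists_bound (fun x : Fin n × Fin n =>
    (a x.2 * p x.1 0 + b x.2 * p x.1 1 - d x.2) / (a x.2 + b x.2 * t))
  obtain ⟨T', hT0', hT'⟩ := exists_bound (fun x : Fin n × Fin n =>
    mu (a x.2) (b x.2) t (p x.1) (d x.2))
  have hsq : ∀ j, a j ^ 2 + b j ^ 2 ≠ 0 := by
    intro j h0
    have h1 : a j ^ 2 = 0 := by nlinarith [sq_nonneg (a j), sq_nonneg (b j)]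
    have h2 : b j ^ 2 = 0 := by nlinarith [sq_nonneg (a j), sq_nonneg (b j)]
    rcases hab j with h | h
    · exact h (pow_eq_zero_iff (two_ne_zero) |>.mp h1)
    · exact h (pow_eq_zero_iff (two_ne_zero) |>.mp h2)
  set e : Fin n × Fin 2 ≃ Fin (n * 2) := finProdFinEquiv with he
  set EA : Fin n × Fin 2 → E2 := fun x => if side x.1 then p x.1
    else bpt (a x.1) (b x.1) (d x.1) (-T') with hEA
  set EB : Fin n × Fin 2 → E2 := fun x => if side x.1 then
      (if x.2 = 0 then !₂[p x.1 0 - (-1) * T, p x.1 1 - (-1) * T * t]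
        else !₂[p x.1 0 - 1 * T, p x.1 1 - 1 * T * t])
    else bpt (a x.1) (b x.1) (d x.1) T' with hEB
  obtain ⟨l, hl1, hl2⟩ := hmain (n * 2) (segg (fun x => EA (e.symm x)) (fun x => EB (e.symm x)))
    ⟨_, _, fun _ _ => Iff.rfl⟩
  have hlen : ∀ v, (l v).length ≤ c * (L + 1) := by
    intro v
    refine le_trans (hl1 v) (Nat.mul_le_mul_left _ ?_)
    have h1 : n < 2 ^ (L + 1) := Nat.lt_pow_succ_log_self one_lt_two n
    have h2 : n * 2 < 2 ^ (L + 2) := by
      have : (2 : ℕ) ^ (L + 2) = 2 ^ (L + 1) * 2 := by ring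
      omega
    have h3 : Nat.log 2 (n * 2) < L + 2 := Nat.log_lt_of_lt_pow (by omega) h2
    omega
  -- the incidence test
  have htest : ∀ (u v : Fin n) (i : Fin 2), side u = true → side v = false →
      (i = 1 ↔ 0 < a v + b v * t) →
      (dec (l (e (u, i))) (l (e (v, 0))) = true ↔ p u ∈ H v) := by
    intro u v i hu hv hi
    have hne : e (u, i) ≠ e (v, 0) := by
      intro hcon
      have := congrArg Prod.fst (e.injective hcon)
      simp only at this
      rw [this, hv] at hu
      exact absurd hu (by decide)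
    rw [hl2 _ _ hne, hset]
    show (_ ≠ _ ∧ (segment ℝ (EA (e.symm (e (u, i)))) (EB (e.symm (e (u, i)))) ∩
      segment ℝ (EA (e.symm (e (v, 0)))) (EB (e.symm (e (v, 0))))).Nonempty) ↔ _
    rw [Equiv.symm_apply_apply, Equiv.symm_apply_apply]
    have g1 : EA (u, i) = p u := by simp [hEA, hu]
    have g2 : EA (v, 0) = bpt (a v) (b v) (d v) (-T') := by simp [hEA, hv]
    have g3 : EB (v, 0) = bpt (a v) (b v) (d v) T' := by simp [hEB, hv]
    rw [g1, g2, g3, Set.mem_ofPred_eq]
    have hκ := ht v
    by_cases hpos : 0 < a v + b v * t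
    · have hi1 : i = 1 := hi.mpr hpos
      have g4 : EB (u, i) = !₂[p u 0 - 1 * T, p u 1 - 1 * T * t] := by
        rw [hi1]; simp [hEB, hu]
      rw [g4]
      have := ray_iff (a v) (b v) (d v) t T T' 1 (p u) (hsq v) (by norm_num)
        (by rw [one_mul]; exact hpos) hT0 hT0' (hT (u, v)) (hT' (u, v))
      rw [← this]
      exact ⟨fun h => h.2, fun h => ⟨hne, h⟩⟩
    · have hi0 : i = 0 := by
        have : ¬ i = 1 := fun h => hpos (hi.mp h)
        omega
      have hneg : a v + b v * t < 0 := lt_of_le_of_ne (not_lt.mp hpos) hκ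
      have g4 : EB (u, i) = !₂[p u 0 - (-1) * T, p u 1 - (-1) * T * t] := by
        rw [hi0]; simp [hEB, hu]
      rw [g4]
      have := ray_iff (a v) (b v) (d v) t T T' (-1) (p u) (hsq v) (by norm_num)
        (by linarith) hT0 hT0' (hT (u, v)) (hT' (u, v))
      rw [← this]
      exact ⟨fun h => h.2, fun h => ⟨hne, h⟩⟩
  refine ⟨fun v => side v :: decide (0 < a v + b v * t) :: pr (l (e (v, 0))) (l (e (v, 1))),
    fun v => ?_, fun u v huv => ?_⟩
  · simp only [List.length_cons, length_pr]
    have a0 := hlen (e (v, 0))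
    have a1 := hlen (e (v, 1))
    have b1 : c * (L + 1) ≤ 2 * (c * L) := by nlinarith
    have b2 : (6 * c + 3) * L = 6 * (c * L) + 3 * L := by ring
    rw [b2]
    omega
  · rw [hadj]
    simp only [phD, List.headI_cons, List.tail_cons, pr1_pr, pr2_pr]
    rcases hu : side u with _ | _ <;> rcases hv : side v with _ | _
    · simp
    · simp only [cond_false, cond_true, Bool.false_eq_true, false_and, true_and, false_or]
      by_cases hpos : 0 < a u + b u * t
      · simp only [hpos, decide_true, cond_true]
        exact htest v u 1 hv hu (by simp [hpos])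
      · simp only [hpos, decide_false, cond_false]
        exact htest v u 0 hv hu (by simp [hpos])
    · simp only [cond_false, cond_true, Bool.false_eq_true, false_and, true_and, or_false]
      by_cases hpos : 0 < a v + b v * t
      · simp only [hpos, decide_true, cond_true]
        exact htest u v 1 hu hv (by simp [hpos])
      · simp only [hpos, decide_false, cond_false]
        exact htest u v 0 hu hv (by simp [hpos])
    · simp

end UDisk
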