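import Pool.Agent.Helper62.UD.Segments

/-!
Short labelling schemes for point and half-plane graphs give short labelling schemes for segment
graphs (helper file for MP_c7897a_lc).
-/

namespace UDisk

/-- The closed half-plane above (`b = true`) or below the supporting line. -/
def hpl (t : ℝ) (A B : E2) (b : Bool) : Set E2 :=
  bif b then {P | cst t A B ≤ (- slo t A B) * P 0 + (1 - slo t A B * t) * P 1}
  else {P | - cst t A B ≤ slo t A B * P 0 + (slo t A B * t - 1) * P 1}

lemma hpl_isHalfPlane (t : ℝ) (A B : E2) (b : Bool) : IsHalfPlane (hpl t A B b) := by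
  rcases b with _ | _
  · refine ⟨slo t A B, slo t A B * t - 1, - cst t A B, ?_, rfl⟩
    by_cases h : slo t A B = 0
    · right; rw [h]; norm_num
    · left; exact h
  · refine ⟨- slo t A B, 1 - slo t A B * t, cst t A B, ?_, rfl⟩
    by_cases h : slo t A B = 0
    · right; rw [h]; norm_num
    · left; exact neg_ne_zero.mpr h

lemma mem_hpl_true (t : ℝ) (A B P : E2) : P ∈ hpl t A B true ↔ 0 ≤ hgt t A B P := by
  show cst t A B ≤ (- slo t A B) * P 0 + (1 - slo t A B * t) * P 1 ↔ _
  unfold hgt xc
  constructor <;> intro h <;> linarith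

lemma mem_hpl_false (t : ℝ) (A B P : E2) : P ∈ hpl t A B false ↔ hgt t A B P ≤ 0 := by
  show - cst t A B ≤ slo t A B * P 0 + (slo t A B * t - 1) * P 1 ↔ _
  unfold hgt xc
  constructor <;> intro h <;> linarith

theorem segment_of_ph (h : Short PointHalfPlaneGraphs) : Short SegmentGraphs := by
  classical
  obtain ⟨dec, hdec, c, hmain⟩ := h
  refine short_of (segD dec) (computable_segD hdec) (24 * c + 24) (fun n G hn hG => ?_)
  obtain ⟨A, B, hadj⟩ := hG
  obtain ⟨t, ht⟩ := exists_dir A B
  set L := Nat.log 2 n with hL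
  have hL1 : 1 ≤ L := Nat.log_pos one_lt_two hn
  -- the point and half-plane graph
  set e : Fin n × Fin 4 ≃ Fin (n * 4) := finProdFinEquiv with he
  obtain ⟨l, hl1, hl2⟩ := hmain (n * 4)
    (phg (fun x => decide ((e.symm x).2.val < 2))
      (fun x => if (e.symm x).2 = 1 then B (e.symm x).1 else A (e.symm x).1)
      (fun x => hpl t (A (e.symm x).1) (B (e.symm x).1) (decide ((e.symm x).2 = 2))))
    (phg_mem _ _ _ fun v => hpl_isHalfPlane _ _ _ _)
  have hlen : ∀ v, (l v).length ≤ c * (L + 2) := by
    intro v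
    refine le_trans (hl1 v) (Nat.mul_le_mul_left _ ?_)
    have h1 : n < 2 ^ (L + 1) := Nat.lt_pow_succ_log_self one_lt_two n
    have h2 : n * 4 < 2 ^ (L + 3) := by
      have : (2 : ℕ) ^ (L + 3) = 2 ^ (L + 1) * 4 := by ring
      omega
    have h3 : Nat.log 2 (n * 4) < L + 3 := Nat.log_lt_of_lt_pow (by omega) h2
    omega
  have hpt : ∀ (u v : Fin n) (i j : Fin 4), i.val < 2 → ¬ j.val < 2 →
      (dec (l (e (v, i))) (l (e (u, j))) = true ↔
        (if i = 1 then B v else A v) ∈ hpl t (A u) (B u) (decide (j = 2))) := by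
    intro u v i j hi hj
    have hne : e (v, i) ≠ e (u, j) := by
      intro hcon
      have := congrArg (fun x => x.2.val) (e.injective hcon)
      simp only at this
      omega
    rw [hl2 _ _ hne]
    show _ ∨ _ ↔ _
    simp only [Equiv.symm_apply_apply, hi, hj, decide_true, decide_false, true_and,
      Bool.false_eq_true, false_and, or_false]
  -- numbers
  set key : Fin n → ℝ ×ₗ ℝ := fun u => toLex (slo t (A u) (B u), cst t (A u) (B u)) with hkey
  set val : Fin n × Bool → ℝ := fun x =>
    bif x.2 then max (xc t (A x.1)) (xc t (B x.1)) else min (xc t (A x.1)) (xc t (B x.1)) with hval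
  have hn2 : 2 * n < 2 ^ (L + 2) := by
    have h1 : n < 2 ^ (L + 1) := Nat.lt_pow_succ_log_self one_lt_two n
    have : (2 : ℕ) ^ (L + 2) = 2 * 2 ^ (L + 1) := by ring
    omega
  have hrk : ∀ u, rank key (key u) < 2 ^ (L + 2) := by
    intro u
    have := rank_le_card key (key u)
    rw [Fintype.card_fin] at this
    omega
  have hrv : ∀ x, rank val (val x) < 2 ^ (L + 2) := by
    intro x
    have := rank_le_card val (val x)
    simp only [Fintype.card_prod, Fintype.card_fin, Fintype.card_bool] at this
    omega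
  choose wk hwk1 hwk2 using fun u => exists_num (L + 2) _ (hrk u)
  choose wv hwv1 hwv2 using fun x => exists_num (L + 2) _ (hrv x)
  refine ⟨fun v => pr (l (e (v, 0))) (pr (l (e (v, 1))) (pr (l (e (v, 2))) (pr (l (e (v, 3)))
    (pr (wk v) (pr (wv (v, false)) (wv (v, true))))))), fun v => ?_, fun u v huv => ?_⟩
  · simp only [length_pr, hwk1, hwv1]
    have a0 := hlen (e (v, 0))
    have a1 := hlen (e (v, 1))
    have a2 := hlen (e (v, 2))
    have a3 := hlen (e (v, 3))
    have b1 : c * (L + 2) ≤ 3 * (c * L) := by nlinarith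
    have b2 : (24 * c + 24) * L = 24 * (c * L) + 24 * L := by ring
    rw [b2]
    omega
  · have hsegD : ∀ u v : Fin n,
        oppD dec (pr (l (e (u, 0))) (pr (l (e (u, 1))) (pr (l (e (u, 2))) (pr (l (e (u, 3)))
          (pr (wk u) (pr (wv (u, false)) (wv (u, true))))))))
        (pr (l (e (v, 0))) (pr (l (e (v, 1))) (pr (l (e (v, 2))) (pr (l (e (v, 3)))
          (pr (wk v) (pr (wv (v, false)) (wv (v, true)))))))) = true
        ↔ Opp t (A u) (B u) (A v) (B v) := by
      intro u v
      unfold oppD k1 k2 k3 k4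
      simp only [pr1_pr, pr2_pr, Bool.or_eq_true, Bool.and_eq_true]
      rw [hpt u v 0 2 (by decide) (by decide), hpt u v 1 3 (by decide) (by decide),
        hpt u v 0 3 (by decide) (by decide), hpt u v 1 2 (by decide) (by decide)]
      have d1 : (if (0 : Fin 4) = 1 then B v else A v) = A v := by simp
      have d2 : (if (1 : Fin 4) = 1 then B v else A v) = B v := by simp
      have d3 : decide ((2 : Fin 4) = 2) = true := by decide
      have d4 : decide ((3 : Fin 4) = 2) = false := by decide
      rw [d1, d2, d3, d4, mem_hpl_true, mem_hpl_true, mem_hpl_false, mem_hpl_false]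
      exact Iff.rfl
    rw [hadj]
    have hiff := meet_segments t (A u) (B u) (A v) (B v) (ht u) (ht v)
    have hsame : (slo t (A u) (B u) = slo t (A v) (B v) ∧ cst t (A u) (B u) = cst t (A v) (B v))
        ↔ rank key (key u) = rank key (key v) := by
      rw [rank_eq_iff, hkey]
      simp only [EmbeddingLike.apply_eq_iff_eq, Prod.mk.injEq]
    have hgoal : (u ≠ v ∧ (segment ℝ (A u) (B u) ∩ segment ℝ (A v) (B v)).Nonempty)
        ↔ (segment ℝ (A u) (B u) ∩ segment ℝ (A v) (B v)).Nonempty :=
      ⟨fun h => h.2, fun h => ⟨huv, h⟩⟩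
    rw [hgoal, hiff]
    unfold segD
    have e5 : ∀ w : Fin n, k5 (pr (l (e (w, 0))) (pr (l (e (w, 1))) (pr (l (e (w, 2)))
        (pr (l (e (w, 3))) (pr (wk w) (pr (wv (w, false)) (wv (w, true)))))))) = wk w := by
      intro w; simp [k5]
    have e6 : ∀ w : Fin n, k6 (pr (l (e (w, 0))) (pr (l (e (w, 1))) (pr (l (e (w, 2)))
        (pr (l (e (w, 3))) (pr (wk w) (pr (wv (w, false)) (wv (w, true)))))))) = wv (w, false) := by
      intro w; simp [k6]
    have e7 : ∀ w : Fin n, k7 (pr (l (e (w, 0))) (pr (l (e (w, 1))) (pr (l (e (w, 2)))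
        (pr (l (e (w, 3))) (pr (wk w) (pr (wv (w, false)) (wv (w, true)))))))) = wv (w, true) := by
      intro w; simp [k7]
    simp only [e5, e6, e7, hwk2, hwv2]
    by_cases hs : slo t (A u) (B u) = slo t (A v) (B v) ∧ cst t (A u) (B u) = cst t (A v) (B v)
    · rw [if_pos hs]
      have hr := hsame.mp hs
      simp only [hr, decide_true, cond_true, Bool.and_eq_true, decide_eq_true_eq]
      rw [rank_le_iff, rank_le_iff]
      exact Iff.rfl
    · rw [if_neg hs]
      have hr : ¬ rank key (key u) = rank key (key v) := fun h => hs (hsame.mpr h)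
      simp only [hr, decide_false, cond_false, Bool.and_eq_true]
      rw [hsegD, hsegD]

end UDisk
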