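import Pool.Agent.Helper62.UD.Transfer

/-!
Transfer of short labelling schemes from point and half-plane graphs to segment graphs (helper
file for MP_c7897a_lc).
-/

namespace UDisk

/-- A linear coordinate. -/
def xc (t : ℝ) (P : E2) : ℝ := P 0 + t * P 1

lemma seg_param {A B P : E2} (h : P ∈ segment ℝ A B) :
    ∃ s : ℝ, 0 ≤ s ∧ s ≤ 1 ∧ P 0 = (1 - s) * A 0 + s * B 0 ∧ P 1 = (1 - s) * A 1 + s * B 1 := by
  rw [segment_eq_image] at h
  obtain ⟨s, ⟨h1, h2⟩, rfl⟩ := h
  exact ⟨s, h1, h2, by simp, by simp⟩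

lemma seg_point (A B : E2) (s : ℝ) (h1 : 0 ≤ s) (h2 : s ≤ 1) :
    ∃ P ∈ segment ℝ A B, P 0 = (1 - s) * A 0 + s * B 0 ∧ P 1 = (1 - s) * A 1 + s * B 1 := by
  refine ⟨(1 - s) • A + s • B, ?_, by simp, by simp⟩
  rw [segment_eq_image]
  exact ⟨s, ⟨h1, h2⟩, rfl⟩

/-- A point of the interval between two numbers. -/
lemma between_param {x y z : ℝ} (h : min x y ≤ z ∧ z ≤ max x y) :
    ∃ s : ℝ, 0 ≤ s ∧ s ≤ 1 ∧ z = (1 - s) * x + s * y := by
  rcases eq_or_ne x y with hxy | hxy
  · subst hxy
    simp only [min_self, max_self] at h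
    exact ⟨0, le_refl _, zero_le_one, by linarith⟩
  · have hne : y - x ≠ 0 := sub_ne_zero.mpr hxy.symm
    refine ⟨(z - x) / (y - x), ?_, ?_, ?_⟩
    · rcases lt_or_gt_of_ne hxy with hlt | hgt
      · rw [min_eq_left hlt.le] at h
        exact div_nonneg (by linarith [h.1]) (by linarith)
      · rw [max_eq_left hgt.le] at h
        exact div_nonneg_of_nonpos (by linarith [h.2]) (by linarith)
    · rcases lt_or_gt_of_ne hxy with hlt | hgt
      · rw [max_eq_right hlt.le] at h
        rw [div_le_one (by linarith)]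
        linarith [h.2]
      · rw [min_eq_right hgt.le] at h
        rw [div_le_one_of_neg (by linarith)]
        linarith [h.1]
    · field_simp
      ring

lemma param_between {x y s : ℝ} (h1 : 0 ≤ s) (h2 : s ≤ 1) :
    min x y ≤ (1 - s) * x + s * y ∧ (1 - s) * x + s * y ≤ max x y := by
  have a1 := min_le_left x y
  have a2 := min_le_right x y
  have b1 := le_max_left x y
  have b2 := le_max_right x y
  have c1 : 0 ≤ 1 - s := by linarith
  constructor
  · have e1 : (1 - s) * min x y ≤ (1 - s) * x := mul_le_mul_of_nonneg_left a1 c1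
    have e2 : s * min x y ≤ s * y := mul_le_mul_of_nonneg_left a2 h1
    linarith
  · have e1 : (1 - s) * x ≤ (1 - s) * max x y := mul_le_mul_of_nonneg_left b1 c1
    have e2 : s * y ≤ s * max x y := mul_le_mul_of_nonneg_left b2 h1
    linarith

/-- Slope of the supporting line. -/
noncomputable def slo (t : ℝ) (A B : E2) : ℝ := (B 1 - A 1) / (xc t B - xc t A)

noncomputable def cst (t : ℝ) (A B : E2) : ℝ := A 1 - slo t A B * xc t A

/-- The height of `P` above the supporting line of `A`, `B`. -/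
noncomputable def hgt (t : ℝ) (A B P : E2) : ℝ := P 1 - slo t A B * xc t P - cst t A B

lemma hgt_left (t : ℝ) (A B : E2) : hgt t A B A = 0 := by
  unfold hgt cst; ring

lemma hgt_right (t : ℝ) (A B : E2) (h : A ≠ B → xc t A ≠ xc t B) : hgt t A B B = 0 := by
  rcases eq_or_ne A B with hAB | hAB
  · subst hAB; exact hgt_left t A A
  · have hne : xc t B - xc t A ≠ 0 := sub_ne_zero.mpr (h hAB).symm
    unfold hgt cst slo
    field_simp
    ring

lemma hgt_param (t : ℝ) (A B C D P : E2) (s : ℝ) (h0 : P 0 = (1 - s) * C 0 + s * D 0)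
    (h1 : P 1 = (1 - s) * C 1 + s * D 1) :
    hgt t A B P = (1 - s) * hgt t A B C + s * hgt t A B D := by
  unfold hgt xc
  rw [h0, h1]
  ring

lemma xc_param (t : ℝ) (C D P : E2) (s : ℝ) (h0 : P 0 = (1 - s) * C 0 + s * D 0)
    (h1 : P 1 = (1 - s) * C 1 + s * D 1) : xc t P = (1 - s) * xc t C + s * xc t D := by
  unfold xc
  rw [h0, h1]
  ring

lemma ext_xc {t : ℝ} {P Q : E2} (h0 : xc t P = xc t Q) (h1 : P 1 = Q 1) : P = Q := by
  ext i
  fin_cases i
  · unfold xc at h0
    rw [h1] at h0
    simpa using h0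
  · simpa using h1

/-- The endpoints of the second segment are weakly on different sides of the first line. -/
def Opp (t : ℝ) (A B C D : E2) : Prop :=
  (0 ≤ hgt t A B C ∧ hgt t A B D ≤ 0) ∨ (hgt t A B C ≤ 0 ∧ 0 ≤ hgt t A B D)

lemma opp_iff (t : ℝ) (A B C D : E2) :
    Opp t A B C D ↔ ∃ P ∈ segment ℝ C D, hgt t A B P = 0 := by
  constructor
  · intro h
    have hb : min (hgt t A B C) (hgt t A B D) ≤ 0 ∧ 0 ≤ max (hgt t A B C) (hgt t A B D) := by
      rcases h with ⟨h1, h2⟩ | ⟨h1, h2⟩
      · exact ⟨le_trans (min_le_right _ _) h2, le_trans h1 (le_max_left _ _)⟩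
      · exact ⟨le_trans (min_le_left _ _) h1, le_trans h2 (le_max_right _ _)⟩
    obtain ⟨s, s0, s1, hs⟩ := between_param hb
    obtain ⟨P, hP, p0, p1⟩ := seg_point C D s s0 s1
    exact ⟨P, hP, by rw [hgt_param t A B C D P s p0 p1]; exact hs.symm⟩
  · rintro ⟨P, hP, h0⟩
    obtain ⟨s, s0, s1, p0, p1⟩ := seg_param hP
    rw [hgt_param t A B C D P s p0 p1] at h0
    obtain ⟨h1, h2⟩ := param_between (x := hgt t A B C) (y := hgt t A B D) s0 s1
    rw [h0] at h1 h2
    unfold Opp
    rcases min_le_iff.mp h1 with a | a <;> rcases le_max_iff.mp h2 with b | b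
    · rcases le_total 0 (hgt t A B D) with d | d
      · right; exact ⟨a, d⟩
      · left; exact ⟨b, d⟩
    · right; exact ⟨a, b⟩
    · left; exact ⟨b, a⟩
    · rcases le_total 0 (hgt t A B C) with d | d
      · left; exact ⟨d, a⟩
      · right; exact ⟨d, b⟩

/-- When do two segments meet? -/
theorem meet_segments (t : ℝ) (A B C D : E2) (h1 : A ≠ B → xc t A ≠ xc t B)
    (h2 : C ≠ D → xc t C ≠ xc t D) :
    (segment ℝ A B ∩ segment ℝ C D).Nonempty ↔
      if slo t A B = slo t C D ∧ cst t A B = cst t C D then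
        min (xc t A) (xc t B) ≤ max (xc t C) (xc t D) ∧
          min (xc t C) (xc t D) ≤ max (xc t A) (xc t B)
      else Opp t A B C D ∧ Opp t C D A B := by
  have hl1 : ∀ P ∈ segment ℝ A B, hgt t A B P = 0 := by
    intro P hP
    obtain ⟨s, s0, s1, p0, p1⟩ := seg_param hP
    rw [hgt_param t A B A B P s p0 p1, hgt_left, hgt_right t A B h1]
    ring
  have hl2 : ∀ P ∈ segment ℝ C D, hgt t C D P = 0 := by
    intro P hP
    obtain ⟨s, s0, s1, p0, p1⟩ := seg_param hP
    rw [hgt_param t C D C D P s p0 p1, hgt_left, hgt_right t C D h2]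
    ring
  split_ifs with hsame
  · constructor
    · rintro ⟨P, hP1, hP2⟩
      obtain ⟨s, s0, s1, p0, p1⟩ := seg_param hP1
      obtain ⟨r, r0, r1, q0, q1⟩ := seg_param hP2
      have x1 := xc_param t A B P s p0 p1
      have x2 := xc_param t C D P r q0 q1
      obtain ⟨a1, a2⟩ := param_between (x := xc t A) (y := xc t B) s0 s1
      obtain ⟨b1, b2⟩ := param_between (x := xc t C) (y := xc t D) r0 r1
      rw [← x1] at a1 a2
      rw [← x2] at b1 b2
      exact ⟨le_trans a1 b2, le_trans b1 a2⟩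
    · rintro ⟨a, b⟩
      set z := max (min (xc t A) (xc t B)) (min (xc t C) (xc t D)) with hz
      have z1 : min (xc t A) (xc t B) ≤ z ∧ z ≤ max (xc t A) (xc t B) :=
        ⟨le_max_left _ _, max_le min_le_max b⟩
      have z2 : min (xc t C) (xc t D) ≤ z ∧ z ≤ max (xc t C) (xc t D) :=
        ⟨le_max_right _ _, max_le a min_le_max⟩
      obtain ⟨s, s0, s1, hs⟩ := between_param z1
      obtain ⟨r, r0, r1, hr⟩ := between_param z2
      obtain ⟨P, hP, p0, p1⟩ := seg_point A B s s0 s1
      obtain ⟨Q, hQ, q0, q1⟩ := seg_point C D r r0 r1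
      have x1 := xc_param t A B P s p0 p1
      have x2 := xc_param t C D Q r q0 q1
      have hx : xc t P = xc t Q := by rw [x1, x2, ← hs, ← hr]
      have hP0 := hl1 P hP
      have hQ0 := hl2 Q hQ
      have hy : P 1 = Q 1 := by
        unfold hgt at hP0 hQ0
        rw [← hsame.1, ← hsame.2, ← hx] at hQ0
        linarith
      have hPQ : P = Q := ext_xc hx hy
      exact ⟨P, hP, by rw [hPQ]; exact hQ⟩
  · constructor
    · rintro ⟨P, hP1, hP2⟩
      exact ⟨(opp_iff t A B C D).mpr ⟨P, hP2, hl1 P hP1⟩,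
        (opp_iff t C D A B).mpr ⟨P, hP1, hl2 P hP2⟩⟩
    · rintro ⟨o1, o2⟩
      obtain ⟨P, hP, p0⟩ := (opp_iff t A B C D).mp o1
      obtain ⟨Q, hQ, q0⟩ := (opp_iff t C D A B).mp o2
      have p1 := hl2 P hP
      have q1 := hl1 Q hQ
      have hx : xc t P = xc t Q := by
        by_contra hne
        apply hsame
        unfold hgt at p0 p1 q0 q1
        have e1 : (slo t A B - slo t C D) * (xc t P - xc t Q) = 0 := by linarith
        have e2 : slo t A B = slo t C D := by
          rcases mul_eq_zero.mp e1 with h | h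
          · linarith
          · exact absurd (by linarith) hne
        refine ⟨e2, ?_⟩
        rw [e2] at p0
        linarith
      have hy : P 1 = Q 1 := by
        unfold hgt at p0 q1
        rw [hx] at p0
        linarith
      have hPQ : P = Q := ext_xc hx hy
      exact ⟨Q, hQ, by rw [← hPQ]; exact hP⟩

/-- A good direction. -/
lemma exists_dir {n : ℕ} (A B : Fin n → E2) :
    ∃ t : ℝ, ∀ u, A u ≠ B u → xc t (A u) ≠ xc t (B u) := by
  have hfin : (⋃ u : Fin n, {t : ℝ | A u ≠ B u ∧ xc t (A u) = xc t (B u)}).Finite := by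
    refine Set.finite_iUnion fun u => ?_
    refine Set.Subsingleton.finite ?_
    rintro t ⟨hne, ht⟩ s ⟨_, hs⟩
    unfold xc at ht hs
    by_contra hts
    apply hne
    have e1 : (t - s) * (A u 1 - B u 1) = 0 := by linarith
    have e2 : A u 1 = B u 1 := by
      rcases mul_eq_zero.mp e1 with h | h
      · exact absurd (by linarith) hts
      · linarith
    ext i
    fin_cases i
    · rw [e2] at ht
      simpa using ht
    · simpa using e2
  obtain ⟨t, ht⟩ := hfin.infinite_compl.nonempty
  refine ⟨t, fun u hne hcon => ht ?_⟩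
  rw [Set.mem_iUnion]
  exact ⟨u, hne, hcon⟩

/-- Components of a label. -/
def k1 (z : List Bool) : List Bool := pr1 z
def k2 (z : List Bool) : List Bool := pr1 (pr2 z)
def k3 (z : List Bool) : List Bool := pr1 (pr2 (pr2 z))
def k4 (z : List Bool) : List Bool := pr1 (pr2 (pr2 (pr2 z)))
def k5 (z : List Bool) : List Bool := pr1 (pr2 (pr2 (pr2 (pr2 z))))
def k6 (z : List Bool) : List Bool := pr1 (pr2 (pr2 (pr2 (pr2 (pr2 z)))))
def k7 (z : List Bool) : List Bool := pr2 (pr2 (pr2 (pr2 (pr2 (pr2 z)))))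

lemma primrec_k1 : Primrec k1 := primrec_pr1
lemma primrec_k2 : Primrec k2 := primrec_pr1.comp primrec_pr2
lemma primrec_k3 : Primrec k3 := primrec_pr1.comp (primrec_pr2.comp primrec_pr2)
lemma primrec_k4 : Primrec k4 := primrec_pr1.comp (primrec_pr2.comp (primrec_pr2.comp primrec_pr2))
lemma primrec_k5 : Primrec k5 :=
  primrec_pr1.comp (primrec_pr2.comp (primrec_pr2.comp (primrec_pr2.comp primrec_pr2)))
lemma primrec_k6 : Primrec k6 :=
  primrec_pr1.comp (primrec_pr2.comp (primrec_pr2.comp (primrec_pr2.comp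
    (primrec_pr2.comp primrec_pr2))))
lemma primrec_k7 : Primrec k7 :=
  primrec_pr2.comp (primrec_pr2.comp (primrec_pr2.comp (primrec_pr2.comp
    (primrec_pr2.comp primrec_pr2))))

def oppD (dec : List Bool → List Bool → Bool) (x y : List Bool) : Bool :=
  (dec (k1 y) (k3 x) && dec (k2 y) (k4 x)) || (dec (k1 y) (k4 x) && dec (k2 y) (k3 x))

def segD (dec : List Bool → List Bool → Bool) (x y : List Bool) : Bool :=
  bif decide (num (k5 x) = num (k5 y)) then
    decide (num (k6 x) ≤ num (k7 y)) && decide (num (k6 y) ≤ num (k7 x))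
  else oppD dec x y && oppD dec y x

lemma computable_oppD {dec : List Bool → List Bool → Bool} (hdec : Computable₂ dec)
    {α : Type*} [Primcodable α] {f g : α → List Bool} (hf : Primrec f) (hg : Primrec g) :
    Computable fun a => oppD dec (f a) (g a) := by
  unfold oppD
  refine (Primrec.or.to_comp).comp ((Primrec.and.to_comp).comp ?_ ?_)
    ((Primrec.and.to_comp).comp ?_ ?_)
  · exact hdec.comp (primrec_k1.comp hg).to_comp (primrec_k3.comp hf).to_comp
  · exact hdec.comp (primrec_k2.comp hg).to_comp (primrec_k4.comp hf).to_comp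
  · exact hdec.comp (primrec_k1.comp hg).to_comp (primrec_k4.comp hf).to_comp
  · exact hdec.comp (primrec_k2.comp hg).to_comp (primrec_k3.comp hf).to_comp

lemma computable_segD {dec : List Bool → List Bool → Bool} (hdec : Computable₂ dec) :
    Computable₂ (segD dec) := by
  unfold segD
  refine Computable.cond ?_ ?_ ?_
  · exact (Primrec.eq.decide.comp (primrec_num.comp (primrec_k5.comp Primrec.fst))
      (primrec_num.comp (primrec_k5.comp Primrec.snd))).to_comp
  · exact (Primrec.and.comp
      (Primrec.nat_le.decide.comp (primrec_num.comp (primrec_k6.comp Primrec.fst))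
        (primrec_num.comp (primrec_k7.comp Primrec.snd)))
      (Primrec.nat_le.decide.comp (primrec_num.comp (primrec_k6.comp Primrec.snd))
        (primrec_num.comp (primrec_k7.comp Primrec.fst)))).to_comp
  · exact (Primrec.and.to_comp).comp (computable_oppD hdec Primrec.fst Primrec.snd)
      (computable_oppD hdec Primrec.snd Primrec.fst)

end UDisk
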