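import Pool.Agent.Helper62.UD.Chain
import Pool.Agent.Helper62.UD.Blow

/-!
Exponential lower bounds for tables of points of the plane through which all unit disk graphs
can be labelled, and for tables of points and half-planes (helper file for MP_c7897a_lc).
-/

namespace UDisk

open Function

/-- The designated points. -/
def desig {m : ℕ} : Fin 3 ⊕ Fin 3 → PPt (CW m) :=
  Sum.elim (fun i => Sum.inl i) (fun i => Sum.inr (Sum.inl ⟨i.val, by omega⟩))

/-- Pigeonhole step: two different systems cannot share the designated points. -/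
theorem pigeon {m : ℕ} {α : Type} [Fintype α] (P : α → E2)
    (h : ∀ S : Fin (2 ^ m), ∃ φ : PPt (CW m) → α,
      Forced ckOf (clOf S.val) (crOf S.val) (fun v => P (φ v))) :
    2 ^ m ≤ Fintype.card α ^ 6 := by
  classical
  by_contra hlt
  push Not at hlt
  choose φ hφ using h
  set d : Fin (2 ^ m) → (Fin 3 ⊕ Fin 3 → α) := fun S x => φ S (desig x) with hd
  have hnot : ¬ Function.Injective d := by
    intro hinj
    have := Fintype.card_le_of_injective d hinj
    simp only [Fintype.card_fin, Fintype.card_pi, Finset.prod_const, Finset.card_univ,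
      Fintype.card_sum] at this
    have h33 : Fintype.card α ^ (3 + 3) = Fintype.card α ^ 6 := by norm_num
    omega
  rw [Function.Injective] at hnot
  push Not at hnot
  obtain ⟨S, S', hSS, hne⟩ := hnot
  have hframe : (fun i => P (φ S (Sum.inl i))) = (fun i => P (φ S' (Sum.inl i))) := by
    funext i
    have : φ S (Sum.inl i) = φ S' (Sum.inl i) := congrFun hSS (Sum.inl i)
    rw [this]
  have p0 : φ S (Sum.inr (Sum.inl 0)) = φ S' (Sum.inr (Sum.inl 0)) := congrFun hSS (Sum.inr 0)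
  have p1 : φ S (Sum.inr (Sum.inl 1)) = φ S' (Sum.inr (Sum.inl 1)) := congrFun hSS (Sum.inr 1)
  have p2 : φ S (Sum.inr (Sum.inl 2)) = φ S' (Sum.inr (Sum.inl 2)) := congrFun hSS (Sum.inr 2)
  obtain ⟨a1, a2⟩ := chain_forces S.isLt
    (fun w k => web (fun i => P (φ S (Sum.inl i))) (P (φ S (Sum.inr w))) k) (hφ S).1 (hφ S).2
  obtain ⟨b1, b2⟩ := chain_forces S'.isLt
    (fun w k => web (fun i => P (φ S' (Sum.inl i))) (P (φ S' (Sum.inr w))) k) (hφ S').1 (hφ S').2
  rw [hframe, p0, p1, p2] at a1 a2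
  set e := (fun i => P (φ S' (Sum.inl i))) with he
  set M := web e (P (φ S' (Sum.inr (Sum.inl 2)))) 2
    - web e (P (φ S' (Sum.inr (Sum.inl 0)))) 2 with hM
  set A := (2 : ℝ) ^ m * (web e (P (φ S' (Sum.inr (Sum.inl 1)))) 0
    - web e (P (φ S' (Sum.inr (Sum.inl 0)))) 0) with hA
  have hM0 : 0 < M := by nlinarith
  have h1 : (S.val : ℝ) * M < ((S'.val : ℝ) + 1) * M := by linarith
  have h2 : (S'.val : ℝ) * M < ((S.val : ℝ) + 1) * M := by linarith
  have h3 : (S.val : ℝ) < (S'.val : ℝ) + 1 := lt_of_mul_lt_mul_right h1 hM0.le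
  have h4 : (S'.val : ℝ) < (S.val : ℝ) + 1 := lt_of_mul_lt_mul_right h2 hM0.le
  have h5 : S.val < S'.val + 1 := by exact_mod_cast h3
  have h6 : S'.val < S.val + 1 := by exact_mod_cast h4
  exact hne (Fin.ext (by omega))

lemma card_PVert (m : ℕ) : Fintype.card (PVert (CW m) (CJ m)) = 204 + 168 * m := by
  simp only [Fintype.card_sum, Fintype.card_prod, Fintype.card_fin, Fintype.card_bool]
  ring

lemma card_PPt (m : ℕ) : Fintype.card (PPt (CW m)) = 16 + 8 * m := by
  simp only [Fintype.card_sum, Fintype.card_prod, Fintype.card_fin, Fintype.card_bool]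
  ring

lemma card_PLn (m : ℕ) : Fintype.card (PLn (CW m) (CJ m) × Bool) = 188 + 160 * m := by
  simp only [Fintype.card_sum, Fintype.card_prod, Fintype.card_fin, Fintype.card_bool]
  ring

/-- The intersection graph of the unit disks with the given centres. -/
def udg {V : Type*} (R : V → E2) : SimpleGraph V where
  Adj u v := u ≠ v ∧ Meet (R u) (R v)
  symm := ⟨fun _ _ huv => ⟨huv.1.symm, (meet_comm _ _).mp huv.2⟩⟩
  loopless := ⟨fun _ hu => hu.1 rfl⟩

lemma udg_isUnitDisk {V : Type*} (R : V → E2) : IsUnitDisk (udg R) := ⟨R, fun _ _ => Iff.rfl⟩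

/-- Main counting step. -/
theorem table_pow (n m : ℕ) (hcard : Fintype.card (PVert (CW m) (CJ m)) ≤ n)
    {α : Type} [Fintype α] (P : α → E2)
    (h : ∀ G : SimpleGraph (Fin n), IsUnitDisk G →
      ∃ φ : Fin n → α, ∀ u v, u ≠ v → (G.Adj u v ↔ Meet (P (φ u)) (P (φ v)))) :
    2 ^ m ≤ Fintype.card α ^ 6 := by
  classical
  obtain ⟨ι⟩ : Nonempty (PVert (CW m) (CJ m) ↪ Fin n) :=
    Function.Embedding.nonempty_of_card_le (by simpa using hcard)
  have : Nonempty (PVert (CW m) (CJ m)) := ⟨Sum.inl (Sum.inl 0)⟩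
  set g : Fin n → PVert (CW m) (CJ m) := Function.invFun ι with hg
  have hgι : ∀ x, g (ι x) = x := Function.leftInverse_invFun ι.injective
  refine pigeon P (fun S => ?_)
  obtain ⟨R, hR⟩ := forcing_disk (W := CW m) (J := CJ m) ckOf (clOf S.val) (crOf S.val)
    (Lmod S.val m) (Lmod_sum S.val m) (fun j => chain_model S.isLt j)
  obtain ⟨φ, hφ⟩ := h (udg fun u => R (g u)) (udg_isUnitDisk _)
  refine ⟨fun v => φ (ι (Sum.inl v)), hR (fun x => P (φ (ι x))) (fun x y hxy => ?_)⟩
  have hne : ι x ≠ ι y := fun hcon => hxy (ι.injective hcon)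
  rw [← hφ (ι x) (ι y) hne]
  show Meet (R x) (R y) ↔ ι x ≠ ι y ∧ Meet (R (g (ι x))) (R (g (ι y)))
  rw [hgι, hgι]
  exact ⟨fun hh => ⟨hne, hh⟩, fun hh => hh.2⟩

lemma root_bound {q N : ℕ} (h : 2 ^ (6 * q) ≤ N ^ 6) : 2 ^ q ≤ N := by
  rw [mul_comm, pow_mul] at h
  exact le_of_not_gt fun hcon => absurd h (not_le.mpr (Nat.pow_lt_pow_left hcon (by norm_num)))

/-- **Exponential lower bound for tables.** -/
theorem table_bound (n : ℕ) (hn : 1 ≤ n) {α : Type} [Fintype α] (P : α → E2)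
    (h : ∀ G : SimpleGraph (Fin n), IsUnitDisk G →
      ∃ φ : Fin n → α, ∀ u v, u ≠ v → (G.Adj u v ↔ Meet (P (φ u)) (P (φ v)))) :
    2 ^ (n / 1250) ≤ Fintype.card α := by
  rcases Nat.eq_zero_or_pos (n / 1250) with h0 | hpos
  · rw [h0, pow_zero]
    obtain ⟨φ, -⟩ := h (udg fun _ => 0) (udg_isUnitDisk _)
    exact Fintype.card_pos_iff.mpr ⟨φ ⟨0, hn⟩⟩
  · have h1 : Fintype.card (PVert (CW (6 * (n / 1250))) (CJ (6 * (n / 1250)))) ≤ n := by
      rw [card_PVert]
      omega
    exact root_bound (table_pow n (6 * (n / 1250)) h1 P h)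

/-- **Approximate version.** -/
theorem table_bound_approx (m M : ℕ) (hm : 1 ≤ m) {α : Type} [Fintype α] (P : α → E2)
    (h : ∀ G : SimpleGraph (Fin (m * M)), IsUnitDisk G → ∃ φ : Fin (m * M) → α,
      {p : Fin (m * M) × Fin (m * M) | p.1 ≠ p.2 ∧
        ¬ (G.Adj p.1 p.2 ↔ Meet (P (φ p.1)) (P (φ p.2)))}.ncard < M ^ 2) :
    2 ^ (m / 1250) ≤ Fintype.card α := by
  classical
  refine table_bound m hm P (fun G hG => ?_)
  obtain ⟨R, hR⟩ := hG
  obtain ⟨φ, hφ⟩ := h (udg fun u => R (finProdFinEquiv.symm u).1) (udg_isUnitDisk _)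
  obtain ⟨t, ht⟩ := exists_transversal (m := m) (M := M)
    (fun x y => ¬ ((udg fun u => R (finProdFinEquiv.symm u).1).Adj
      (finProdFinEquiv x) (finProdFinEquiv y) ↔
        Meet (P (φ (finProdFinEquiv x))) (P (φ (finProdFinEquiv y))))) (by
      refine lt_of_le_of_lt ?_ hφ
      refine Set.ncard_le_ncard_of_injOn
        (fun p : (Fin m × Fin M) × (Fin m × Fin M) => (finProdFinEquiv p.1, finProdFinEquiv p.2))
        ?_ ?_ (Set.toFinite _)
      · rintro ⟨x, y⟩ ⟨hne, hb⟩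
        refine ⟨fun hcon => hne ?_, hb⟩
        have := finProdFinEquiv.injective hcon
        exact congrArg Prod.fst this
      · rintro ⟨x, y⟩ _ ⟨x', y'⟩ _ heq
        simp only [Prod.mk.injEq, EmbeddingLike.apply_eq_iff_eq] at heq
        rw [heq.1, heq.2])
  refine ⟨fun i => φ (finProdFinEquiv (i, t i)), fun i j hij => ?_⟩
  have h1 := not_not.mp (ht i j hij)
  rw [← h1, hR]
  show i ≠ j ∧ Meet (R i) (R j) ↔ finProdFinEquiv (i, t i) ≠ finProdFinEquiv (j, t j) ∧
    Meet (R (finProdFinEquiv.symm (finProdFinEquiv (i, t i))).1)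
      (R (finProdFinEquiv.symm (finProdFinEquiv (j, t j))).1)
  rw [Equiv.symm_apply_apply, Equiv.symm_apply_apply]
  refine ⟨fun hh => ⟨fun hcon => hij ?_, hh.2⟩, fun hh => ⟨hij, hh.2⟩⟩
  exact congrArg Prod.fst (finProdFinEquiv.injective hcon)

/-- **Tables of points and half-planes.** -/
theorem half_bound (n N : ℕ) (hn : 1 ≤ n) (P : Fin N → E2) (H : Fin N → Set E2)
    (hH : ∀ j, IsHalfPlane (H j))
    (h : ∀ (p : Fin n → E2) (g : Fin n → Set E2), (∀ j, IsHalfPlane (g j)) →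
      ∃ φ ψ : Fin n → Fin N, ∀ i j, (p i ∈ g j ↔ P (φ i) ∈ H (ψ j))) :
    2 ^ (n / 1250) ≤ N := by
  classical
  rcases Nat.eq_zero_or_pos (n / 1250) with h0 | hpos
  · rw [h0, pow_zero]
    obtain ⟨φ, -⟩ := h (fun _ => 0) (fun _ => {x | 0 ≤ 1 * x 0 + 0 * x 1})
      (fun _ => ⟨1, 0, 0, Or.inl one_ne_zero, rfl⟩)
    have := (φ ⟨0, hn⟩).isLt
    omega
  · set m := 6 * (n / 1250) with hm
    have h1 : Fintype.card (PPt (CW m)) ≤ n := by
      rw [card_PPt]; omega
    have h2 : Fintype.card (PLn (CW m) (CJ m) × Bool) ≤ n := by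
      rw [card_PLn]; omega
    obtain ⟨ι⟩ : Nonempty (PPt (CW m) ↪ Fin n) :=
      Function.Embedding.nonempty_of_card_le (by simpa using h1)
    obtain ⟨κ⟩ : Nonempty ((PLn (CW m) (CJ m) × Bool) ↪ Fin n) :=
      Function.Embedding.nonempty_of_card_le (by simpa using h2)
    have i1 : Nonempty (PPt (CW m)) := ⟨Sum.inl 0⟩
    have i2 : Nonempty (PLn (CW m) (CJ m) × Bool) := ⟨(Sum.inl (Sum.inl 0, 0, true), true)⟩
    have hι : ∀ x, Function.invFun ι (ι x) = x := Function.leftInverse_invFun ι.injective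
    have hκ : ∀ x, Function.invFun κ (κ x) = x := Function.leftInverse_invFun κ.injective
    have key : 2 ^ m ≤ Fintype.card (Fin N) ^ 6 := by
      refine pigeon P (fun S => ?_)
      obtain ⟨R, Q, hQ, hRQ⟩ := forcing_half (W := CW m) (J := CJ m) ckOf (clOf S.val)
        (crOf S.val) (Lmod S.val m) (Lmod_sum S.val m) (fun j => chain_model S.isLt j)
      obtain ⟨φ, ψ, hφ⟩ := h (fun i => R (Function.invFun ι i)) (fun j => Q (Function.invFun κ j))
        (fun j => hQ _)
      refine ⟨fun v => φ (ι v), hRQ _ (fun l => H (ψ (κ l))) (fun l => hH _) (fun v l => ?_)⟩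
      have := hφ (ι v) (κ l)
      rw [hι, hκ] at this
      exact this
    rw [Fintype.card_fin] at key
    exact root_bound key

/-- Number of words of length at most `L`. -/
lemma card_words (L : ℕ) : Fintype.card (Σ k : Fin (L + 1), (Fin k.val → Bool)) < 2 ^ (L + 1) := by
  rw [Fintype.card_sigma]
  simp only [Fintype.card_pi, Fintype.card_bool, Finset.prod_const, Finset.card_univ,
    Fintype.card_fin]
  rw [Fin.sum_univ_eq_sum_range (fun k => 2 ^ k) (L + 1)]
  have := Nat.geomSum_eq (le_refl 2) (L + 1)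
  have h2 : 0 < 2 ^ (L + 1) := by positivity
  rw [this]
  omega

/-- **Lower bound for label lengths.** -/
theorem label_bound (n L : ℕ) (hn : 1 ≤ n) (P : List Bool → E2)
    (h : ∀ G : SimpleGraph (Fin n), IsUnitDisk G → ∃ l : Fin n → List Bool,
      (∀ v, (l v).length ≤ L) ∧ ∀ u v, u ≠ v → (G.Adj u v ↔ Meet (P (l u)) (P (l v)))) :
    n / 1250 ≤ L := by
  have h1 := table_bound n hn (α := Σ k : Fin (L + 1), (Fin k.val → Bool))
    (fun a => P (List.ofFn a.2)) (fun G hG => by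
      obtain ⟨l, hl1, hl2⟩ := h G hG
      refine ⟨fun v => ⟨⟨(l v).length, by have := hl1 v; omega⟩, (l v).get⟩, fun u v huv => ?_⟩
      simp only [List.ofFn_get]
      exact hl2 u v huv)
  have h2 := lt_of_le_of_lt h1 (card_words L)
  have h3 := (Nat.pow_lt_pow_iff_right (le_refl 2)).mp h2
  omega

end UDisk
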