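import Pool.Agent.Helper62.UD.Codec
import Pool.Agent.Helper62.UD.Table

/-!
Transfer of short labelling schemes: disk graphs to unit disk graphs, unit disk graphs to point
and half-plane graphs (helper file for MP_c7897a_lc).
-/

open Metric

namespace UDisk

/-- Incidence graphs of points and closed half-planes of the plane: every vertex is a point
(`side v = true`) or a half-plane (`side v = false`). -/
def PointHalfPlaneGraphs : GraphClass := fun n G =>
  ∃ (side : Fin n → Bool) (p : Fin n → E2) (H : Fin n → Set E2), (∀ v, IsHalfPlane (H v)) ∧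
    ∀ u v, G.Adj u v ↔ (side u = true ∧ side v = false ∧ p u ∈ H v) ∨
      (side v = true ∧ side u = false ∧ p v ∈ H u)

/-- The incidence graph. -/
def phg {n : ℕ} (side : Fin n → Bool) (p : Fin n → E2) (H : Fin n → Set E2) :
    SimpleGraph (Fin n) where
  Adj u v := (side u = true ∧ side v = false ∧ p u ∈ H v) ∨
      (side v = true ∧ side u = false ∧ p v ∈ H u)
  symm := ⟨fun _ _ h => Or.symm h⟩
  loopless := ⟨fun u hu => by
    rcases hu with ⟨h1, h2, -⟩ | ⟨h1, h2, -⟩ <;> rw [h1] at h2 <;> exact absurd h2 (by decide)⟩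

lemma phg_mem {n : ℕ} (side : Fin n → Bool) (p : Fin n → E2) (H : Fin n → Set E2)
    (hH : ∀ v, IsHalfPlane (H v)) : PointHalfPlaneGraphs n (phg side p H) :=
  ⟨side, p, H, hH, fun _ _ => Iff.rfl⟩

/-- Short schemes pass to smaller classes. -/
lemma Short.mono {C D : GraphClass} (h : ∀ n G, C n G → D n G) (hD : Short D) : Short C := by
  obtain ⟨dec, hdec, c, hmain⟩ := hD
  exact ⟨dec, hdec, c, fun n G hG => hmain n G (h n G hG)⟩

theorem unit_of_disk (h : Short DiskGraphs) : Short UnitDiskGraphs := by
  refine h.mono fun n G hG => ?_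
  obtain ⟨P, hP⟩ := hG
  exact ⟨P, fun _ => 1, fun _ => one_pos, hP⟩

/-- It is enough to find labels for graphs with at least two vertices. -/
lemma short_of {C : GraphClass} (dec : List Bool → List Bool → Bool) (hdec : Computable₂ dec)
    (c : ℕ) (h : ∀ n (G : SimpleGraph (Fin n)), 2 ≤ n → C n G → ∃ l : Fin n → List Bool,
      (∀ v, (l v).length ≤ c * Nat.log 2 n) ∧ Correct dec G l) : Short C := by
  refine ⟨dec, hdec, c, fun n G hG => ?_⟩
  rcases Nat.lt_or_ge n 2 with hn | hn
  · refine ⟨fun _ => [], fun v => by simp, fun u v huv => ?_⟩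
    exact absurd (Fin.ext (by omega)) huv
  · exact h n G hn hG

/-- Closed half-planes and finitely many points. -/
lemma exists_disks_closed {n : ℕ} (p : Fin n → E2) (H : Fin n → Set E2)
    (hH : ∀ v, IsHalfPlane (H v)) :
    ∃ R Q : Fin n → E2, ∀ v j, (Meet (R v) (Q j) ↔ p v ∈ H j) := by
  choose a b c hab hset using hH
  obtain ⟨ξ, hξ, hgap⟩ := exists_gap
    (fun x : Fin n × Fin n => c x.2 - (a x.2 * p x.1 0 + b x.2 * p x.1 1))
  obtain ⟨R, Q, hRQ⟩ := exists_disks (fun v => p v 0) (fun v => p v 1) a b
    (fun j => c j - ξ) hab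
  refine ⟨R, Q, fun v j => ?_⟩
  rw [hRQ, hset, Set.mem_ofPred_eq]
  have h1 := hgap (v, j)
  simp only at h1
  constructor
  · intro h2
    by_contra hcon
    push Not at hcon
    have := h1 (by linarith)
    linarith
  · intro h2
    linarith

theorem ph_of_unit (h : Short UnitDiskGraphs) : Short PointHalfPlaneGraphs := by
  obtain ⟨dec, hdec, c, hmain⟩ := h
  refine short_of (fun x y => bif x.headI == y.headI then false else dec x.tail y.tail) ?_
    (c + 1) (fun n G hn hG => ?_)
  · refine Computable.cond ?_ (Computable.const false) ?_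
    · have : Primrec fun p : List Bool × List Bool => (p.1.headI == p.2.headI) :=
        Primrec.beq.comp (Primrec.list_headI.comp Primrec.fst) (Primrec.list_headI.comp Primrec.snd)
      exact this.to_comp
    · exact hdec.comp (Primrec.list_tail.comp Primrec.fst).to_comp
        (Primrec.list_tail.comp Primrec.snd).to_comp
  · obtain ⟨side, p, H, hH, hadj⟩ := hG
    obtain ⟨R, Q, hRQ⟩ := exists_disks_closed p H hH
    obtain ⟨l, hl1, hl2⟩ := hmain n (udg fun v => bif side v then R v else Q v)
      (udg_isUnitDisk _)
    have hlog : 1 ≤ Nat.log 2 n := Nat.log_pos one_lt_two hn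
    refine ⟨fun v => side v :: l v, fun v => ?_, fun u v huv => ?_⟩
    · rw [List.length_cons, add_mul, one_mul]
      exact add_le_add (hl1 v) hlog
    · simp only [List.headI_cons, List.tail_cons]
      have h1 := hl2 u v huv
      rw [hadj]
      rcases hu : side u with _ | _ <;> rcases hv : side v with _ | _
      · simp
      · have h2 : (udg fun v => bif side v then R v else Q v).Adj u v ↔ p v ∈ H u := by
          show u ≠ v ∧ Meet (bif side u then R u else Q u) (bif side v then R v else Q v) ↔ _
          rw [hu, hv, meet_comm, ← hRQ]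
          exact ⟨fun h => h.2, fun h => ⟨huv, h⟩⟩
        rw [h2] at h1
        simpa using h1
      · have h2 : (udg fun v => bif side v then R v else Q v).Adj u v ↔ p u ∈ H v := by
          show u ≠ v ∧ Meet (bif side u then R u else Q u) (bif side v then R v else Q v) ↔ _
          rw [hu, hv, ← hRQ]
          exact ⟨fun h => h.2, fun h => ⟨huv, h⟩⟩
        rw [h2] at h1
        simpa using h1
      · simp

end UDisk
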